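import Pool.Agent.Run7.h484.K.Local

/-! The group and its action on trees of planes with several kinds of planes. -/

namespace Run7.h484.K

open Set

/-- the vector of a shift -/
def vec (a : ℤ × ℤ) : ℝ × ℝ := (a.1, a.2)

theorem vec_zero : vec 0 = 0 := by
  unfold vec
  ext <;> simp

theorem vec_add (a b : ℤ × ℤ) : vec (a + b) = vec a + vec b := by
  unfold vec
  ext <;> simp

theorem line_vec (a : ℤ × ℤ) {e : Letter} {q : ℝ × ℝ} (hq : q ∈ line e) :
    q + vec a ∈ line (sh a e) := by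
  rcases e with ⟨_ | _, k⟩
  · have hq' : q.2 = k := hq
    show q.2 + (a.2:ℝ) = ((k + a.2 : ℤ) : ℝ)
    rw [hq']; push_cast; ring
  · have hq' : q.1 = k := hq
    show q.1 + (a.1:ℝ) = ((k + a.1 : ℤ) : ℝ)
    rw [hq']; push_cast; ring

section

variable {𝒜 : Auto} (𝒢 : Geo 𝒜)

theorem Geo.cost_map_le (a : ℤ × ℤ) (c : 𝒜.C) (L : List Letter) (z z' : ℝ × ℝ) :
    𝒢.cost c (L.map (sh a)) (z + vec a) (z' + vec a) ≤ 𝒢.cost c L z z' := by
  induction L using List.reverseRecOn generalizing z' with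
  | nil => simp only [List.map_nil, 𝒢.cost_nil, 𝒢.N_add]; exact le_refl _
  | append_singleton L e ih =>
    obtain ⟨q, hq, h⟩ := 𝒢.cost_snoc_ex c L e z z'
    rw [h, List.map_append, List.map_singleton]
    have h1 := 𝒢.cost_snoc_le c (L.map (sh a)) (sh a e) (z + vec a) (q + vec a) (z' + vec a)
      (line_vec a hq)
    have h2 : 𝒜.act c (L.map (sh a) ++ [sh a e]) = 𝒜.act c (L ++ [e]) := by
      have := 𝒜.act_map a c (L ++ [e])
      rwa [List.map_append, List.map_singleton] at this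
    rw [𝒢.N_add, h2] at h1
    exact h1.trans (add_le_add (ih q) le_rfl)

theorem Geo.cost_map (a : ℤ × ℤ) (c : 𝒜.C) (L : List Letter) (z z' : ℝ × ℝ) :
    𝒢.cost c (L.map (sh a)) (z + vec a) (z' + vec a) = 𝒢.cost c L z z' := by
  apply le_antisymm (𝒢.cost_map_le a c L z z')
  have h := 𝒢.cost_map_le (-a) c (L.map (sh a)) (z + vec a) (z' + vec a)
  rw [add_assoc, add_assoc, ← vec_add, add_neg_cancel, vec_zero, add_zero, add_zero,
    List.map_map] at h
  have : L.map (sh (-a) ∘ sh a) = L := by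
    conv_rhs => rw [← List.map_id L]
    apply List.map_congr_left
    intro e _
    simp only [Function.comp]
    rw [← sh_add, neg_add_cancel, sh_zero]; rfl
  rwa [this] at h

end

/-- the group preserving the classes of the planes -/
def GC (𝒜 : Auto) : Subgroup GG where
  carrier := {g | ∀ w, 𝒜.cls (g.1.1 w) = 𝒜.cls w}
  one_mem' := fun _ => rfl
  mul_mem' := by
    intro g h hg hh w
    show 𝒜.cls (g.1.1 (h.1.1 w)) = _
    rw [hg, hh]
  inv_mem' := by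
    intro g hg w
    have e1 : g.1.1 (g.1.1⁻¹ w) = w := g.1.1.apply_symm_apply w
    have := hg (g.1.1⁻¹ w)
    rw [e1] at this
    exact this.symm

section act

variable {𝒜 : Auto} {𝒢 : Geo 𝒜}

/-- action on points -/
def smulPt (g : GC 𝒜) (ξ : Pt 𝒢) : Pt 𝒢 :=
  ⟨g.1.1.1 ξ.pl, ξ.pos + vec (Multiplicative.toAdd g.1.1.2)⟩

theorem dist_smulPt (g : GC 𝒜) (ξ η : Pt 𝒢) :
    dist (smulPt g ξ) (smulPt g η) = dist ξ η := by
  rw [Pt.dist_def, Pt.dist_def]
  show 𝒢.cst (𝒜.cls (g.1.1.1 ξ.pl)) ((g.1.1.1 ξ.pl)⁻¹ * g.1.1.1 η.pl) _ _ = _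
  rw [g.1.2.1, g.2 ξ.pl]
  exact 𝒢.cost_map _ _ _ _ _

theorem one_smulPt (ξ : Pt 𝒢) : smulPt 1 ξ = ξ := by
  apply Pt.ext
  · rfl
  · show ξ.pos + vec 0 = ξ.pos
    rw [vec_zero, add_zero]

theorem mul_smulPt (g h : GC 𝒜) (ξ : Pt 𝒢) : smulPt (g * h) ξ = smulPt g (smulPt h ξ) := by
  apply Pt.ext
  · rfl
  · show ξ.pos + vec (Multiplicative.toAdd g.1.1.2 + Multiplicative.toAdd h.1.1.2) =
      ξ.pos + vec (Multiplicative.toAdd h.1.1.2) + vec (Multiplicative.toAdd g.1.1.2)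
    rw [vec_add, add_assoc, add_comm (vec (Multiplicative.toAdd g.1.1.2))]

/-- action on points of valid planes -/
def smulV (g : GC 𝒜) (ξ : VPt 𝒢) : VPt 𝒢 :=
  ⟨smulPt g ξ.1, (g.1.2.2 _).1 ξ.2⟩

theorem dist_smulV (g : GC 𝒜) (ξ η : VPt 𝒢) : dist (smulV g ξ) (smulV g η) = dist ξ η :=
  dist_smulPt g ξ.1 η.1

/-- action on the space -/
noncomputable def smulX (g : GC 𝒜) : XX 𝒢 → XX 𝒢 :=
  Quotient.map' (smulV g) fun ξ η h => by
    have h' : Inseparable ξ η := h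
    rw [Metric.inseparable_iff] at h'
    have : Inseparable (smulV g ξ) (smulV g η) := by
      rw [Metric.inseparable_iff, dist_smulV, h']
    exact this

theorem smulX_mk (g : GC 𝒜) (ξ : VPt 𝒢) :
    smulX g (SeparationQuotient.mk ξ) = SeparationQuotient.mk (smulV g ξ) := rfl

noncomputable instance : MulAction (GC 𝒜) (XX 𝒢) where
  smul g v := smulX g v
  one_smul v := by
    obtain ⟨ξ, rfl⟩ := SeparationQuotient.surjective_mk v
    show smulX 1 _ = _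
    rw [smulX_mk]
    congr 1
    apply Subtype.ext
    exact one_smulPt ξ.1
  mul_smul g h v := by
    obtain ⟨ξ, rfl⟩ := SeparationQuotient.surjective_mk v
    show smulX (g * h) _ = smulX g (smulX h _)
    rw [smulX_mk, smulX_mk, smulX_mk]
    congr 1
    apply Subtype.ext
    exact mul_smulPt g h ξ.1

theorem smul_mk (g : GC 𝒜) (ξ : VPt 𝒢) :
    g • (SeparationQuotient.mk ξ : XX 𝒢) = SeparationQuotient.mk (smulV g ξ) := rfl

theorem dist_smulX (g : GC 𝒜) (x y : XX 𝒢) : dist (g • x) (g • y) = dist x y := by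
  obtain ⟨ξ, rfl⟩ := SeparationQuotient.surjective_mk x
  obtain ⟨η, rfl⟩ := SeparationQuotient.surjective_mk y
  rw [smul_mk, smul_mk, SeparationQuotient.dist_mk, SeparationQuotient.dist_mk, dist_smulV]

/-- only finitely many elements move the base point a bounded distance -/
theorem finite_move (r : ℝ) :
    {g : GC 𝒜 | dist ((rzX 𝒢).pt 1 one_mem_VP (0, 0)) (g • (rzX 𝒢).pt 1 one_mem_VP (0, 0)) ≤
      r}.Finite := by
  have hf1 := 𝒢.fin r
  obtain ⟨n, hn⟩ := exists_nat_gt (2 * r)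
  have hf := hf1.prod ((Set.finite_Icc (-(n:ℤ)) n).prod (Set.finite_Icc (-(n:ℤ)) n))
  apply Set.Finite.of_finite_image
    (f := fun g : GC 𝒜 => (g.1.1.1 1, Multiplicative.toAdd g.1.1.2))
  · apply hf.subset
    rintro _ ⟨g, hg, rfl⟩
    have hg' : dist (⟨1, (0, 0)⟩ : Pt 𝒢) (smulPt g ⟨1, (0, 0)⟩) ≤ r := hg
    refine ⟨⟨(g.1.2.2 _).1 one_mem_VP, _, hg'⟩, ?_⟩
    have h1 := Pt.lo_dist true (⟨1, (0, 0)⟩ : Pt 𝒢) (smulPt g ⟨1, (0, 0)⟩)
    have h2 := Pt.lo_dist false (⟨1, (0, 0)⟩ : Pt 𝒢) (smulPt g ⟨1, (0, 0)⟩)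
    have h1' : |(0:ℝ) - (0 + ((Multiplicative.toAdd g.1.1.2).1 : ℝ))| ≤
      2 * dist (⟨1, (0, 0)⟩ : Pt 𝒢) (smulPt g ⟨1, (0, 0)⟩) := h1
    have h2' : |(0:ℝ) - (0 + ((Multiplicative.toAdd g.1.1.2).2 : ℝ))| ≤
      2 * dist (⟨1, (0, 0)⟩ : Pt 𝒢) (smulPt g ⟨1, (0, 0)⟩) := h2
    rw [zero_add, zero_sub, abs_neg] at h1' h2'
    have h3 : |((Multiplicative.toAdd g.1.1.2).1 : ℝ)| ≤ n := by linarith
    have h4 : |((Multiplicative.toAdd g.1.1.2).2 : ℝ)| ≤ n := by linarith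
    have h5 : |(Multiplicative.toAdd g.1.1.2).1| ≤ (n:ℤ) := by exact_mod_cast h3
    have h6 : |(Multiplicative.toAdd g.1.1.2).2| ≤ (n:ℤ) := by exact_mod_cast h4
    exact ⟨abs_le.1 h5, abs_le.1 h6⟩
  · intro g _ h _ hgh
    simp only [Prod.mk.injEq] at hgh
    apply Subtype.ext
    apply Subtype.ext
    apply Prod.ext
    · apply Equiv.ext
      intro w
      have h1 := g.1.2.1 1 w
      have h2 := h.1.2.1 1 w
      rw [hgh.1, hgh.2, ← h2] at h1
      exact mul_left_cancel h1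
    · exact hgh.2

/-- a group element preserving classes as soon as it does so at one plane -/
theorem mem_GC {g : GG} {v : Pl} (hv : 𝒜.cls (g.1.1 v) = 𝒜.cls v) : g ∈ GC 𝒜 := by
  intro w
  have h1 := g.2.1 v w
  have h2 := 𝒜.cls_mul (g.1.1 v) ((g.1.1 v)⁻¹ * g.1.1 w)
  rw [mul_inv_cancel_left, h1, ta_val, 𝒜.act_map, hv, 𝒜.act_rel] at h2
  exact h2

theorem cocompact_aux [Finite 𝒜.C] : ∃ K : Set (XX 𝒢), IsCompact K ∧
    ∀ x : XX 𝒢, ∃ g : GC 𝒜, ∃ k ∈ K, x = g • k := by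
  classical
  -- representatives of the classes
  let C' := {c : 𝒜.C // ∃ v ∈ VP, 𝒜.cls v = c}
  have hrep : ∀ c : C', ∃ v ∈ VP, 𝒜.cls v = c.1 := fun c => c.2
  choose v hv hvc using hrep
  have hsh : ∀ c : C', ∃ a : ℤ × ℤ, (a.1 : ZMod 2) = par false (v c).val ∧
      (a.2 : ZMod 2) = par true (v c).val := by
    intro c
    obtain ⟨a, ha, -⟩ := exists_parity 0 (par false (v c).val)
    obtain ⟨b, hb, -⟩ := exists_parity 0 (par true (v c).val)
    exact ⟨(a, b), ha, hb⟩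
  choose a' ha1 ha2 using hsh
  have hcont : ∀ c : C', Continuous fun z : ℝ × ℝ => (rzX 𝒢).pt (v c) (hv c) z := by
    intro c
    apply LipschitzWith.continuous (K := 2)
    apply LipschitzWith.of_dist_le_mul
    intro z z'
    rw [(rzX 𝒢).dist_same]
    have h1 := 𝒢.hi (𝒜.cls (v c)) z z'
    have h2 : dist z z' = max (dist z.1 z'.1) (dist z.2 z'.2) := rfl
    rw [h2, Real.dist_eq, Real.dist_eq]
    have h3 := le_max_left |z.1 - z'.1| |z.2 - z'.2|
    have h4 := le_max_right |z.1 - z'.1| |z.2 - z'.2|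
    have h5 : ((2 : NNReal) : ℝ) = 2 := rfl
    rw [h5]
    unfold N1 at h1
    linarith
  refine ⟨⋃ c : C', (fun z : ℝ × ℝ => (rzX 𝒢).pt (v c) (hv c) z) ''
    (Metric.closedBall (vec (a' c)) 2), ?_, ?_⟩
  · exact isCompact_iUnion fun c => (isCompact_closedBall _ _).image (hcont c)
  · intro x
    obtain ⟨ξ, rfl⟩ := (rzX 𝒢).exists_pt x
    let c : C' := ⟨𝒜.cls ξ.1.pl, ξ.1.pl, ξ.2, rfl⟩
    obtain ⟨b1, hb1, hb1', hb1''⟩ := exists_parity ξ.1.pos.1 (par false ξ.1.pl.val)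
    obtain ⟨b2, hb2, hb2', hb2''⟩ := exists_parity ξ.1.pos.2 (par true ξ.1.pl.val)
    set g1 := elt ξ.1.pl (b1, b2) ξ.2 hb1 hb2 with hg1
    set g2 := elt (v c) (a' c) (hv c) (ha1 c) (ha2 c) with hg2
    have e1 : g1.1.1 1 = ξ.1.pl := by
      show ξ.1.pl * ta (b1, b2) 1 = ξ.1.pl
      rw [map_one, mul_one]
    have e2 : g2.1.1 1 = v c := by
      show v c * ta (a' c) 1 = v c
      rw [map_one, mul_one]
    have e2' : (g2⁻¹).1.1 (v c) = 1 := by
      show g2.1.1⁻¹ (v c) = 1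
      rw [← e2]
      exact g2.1.1.symm_apply_apply 1
    have e3 : (g1 * g2⁻¹).1.1 (v c) = ξ.1.pl := by
      show g1.1.1 ((g2⁻¹).1.1 (v c)) = _
      rw [e2', e1]
    have hmem : g1 * g2⁻¹ ∈ GC 𝒜 := mem_GC (v := v c) (by rw [e3, hvc])
    refine ⟨⟨g1 * g2⁻¹, hmem⟩, (rzX 𝒢).pt (v c) (hv c) (ξ.1.pos - vec (b1, b2) + vec (a' c)),
      mem_iUnion.2 ⟨c, _, ?_, rfl⟩, ?_⟩
    · rw [Metric.mem_closedBall]
      have h5 : dist (ξ.1.pos - vec (b1, b2) + vec (a' c)) (vec (a' c)) =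
        max (dist (ξ.1.pos.1 - b1 + (a' c).1) ((a' c).1:ℝ))
          (dist (ξ.1.pos.2 - b2 + (a' c).2) ((a' c).2:ℝ)) := rfl
      rw [h5, Real.dist_eq, Real.dist_eq, add_sub_cancel_right, add_sub_cancel_right,
        abs_of_nonneg hb1', abs_of_nonneg hb2']
      exact max_le hb1''.le hb2''.le
    · show SeparationQuotient.mk ξ = SeparationQuotient.mk (smulV _ _)
      congr 1
      apply Subtype.ext
      apply Pt.ext
      · exact e3.symm
      · show ξ.1.pos = ξ.1.pos - vec (b1, b2) + vec (a' c) + vec ((b1, b2) + -(a' c))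
        have h6 : vec (a' c) + vec (-(a' c)) = 0 := by
          rw [← vec_add, add_neg_cancel, vec_zero]
        rw [vec_add, add_comm (vec (b1, b2)), ← add_assoc, add_assoc (ξ.1.pos - vec (b1, b2)),
          h6, add_zero, sub_add_cancel]

end act

end Run7.h484.K
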