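import Pool.Agent.Run7.h484.K.LU

/-! Coordinates adapted to a line, and inequalities for intermediate points. -/

namespace Run7.h484.K

universe u

open Set Filter Topology

variable {𝒜 : Auto} (𝒢 : Geo 𝒜)

namespace Geo

/-- coordinate along the line `e`, in a plane of class `c` -/
noncomputable def te (c : 𝒜.C) (e : Letter) (z : ℝ × ℝ) : ℝ :=
  if 𝒢.κ c = none then alc e.1 z else if 𝒢.κ c = some e.1 then sm z - e.2
  else alc e.1 z + (pec e.1 z - e.2) / 2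

/-- coordinate transversal to the line `e`, in a plane of class `c` -/
noncomputable def ve (c : 𝒜.C) (e : Letter) (z : ℝ × ℝ) : ℝ :=
  if 𝒢.κ c = none then pec e.1 z - e.2 else if 𝒢.κ c = some e.1 then pec e.1 z - e.2
  else (pec e.1 z - e.2) / 2

variable {𝒢}

theorem te_none {c : 𝒜.C} (h : 𝒢.κ c = none) (e : Letter) (z : ℝ × ℝ) :
    𝒢.te c e z = alc e.1 z := by unfold te; rw [if_pos h]
theorem ve_none {c : 𝒜.C} (h : 𝒢.κ c = none) (e : Letter) (z : ℝ × ℝ) :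
    𝒢.ve c e z = pec e.1 z - e.2 := by unfold ve; rw [if_pos h]

theorem te_axis {c : 𝒜.C} {e : Letter} (h : 𝒢.κ c = some e.1) (z : ℝ × ℝ) :
    𝒢.te c e z = sm z - e.2 := by
  unfold te
  rw [if_neg (by rw [h]; simp), if_pos h]
theorem ve_axis {c : 𝒜.C} {e : Letter} (h : 𝒢.κ c = some e.1) (z : ℝ × ℝ) :
    𝒢.ve c e z = pec e.1 z - e.2 := by
  unfold ve
  rw [if_neg (by rw [h]; simp), if_pos h]

theorem te_diag {c : 𝒜.C} {e : Letter} (h : 𝒢.κ c = some (!e.1)) (z : ℝ × ℝ) :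
    𝒢.te c e z = alc e.1 z + (pec e.1 z - e.2) / 2 := by
  unfold te
  rw [if_neg (by rw [h]; simp), if_neg (by rw [h]; cases e.1 <;> simp)]
theorem ve_diag {c : 𝒜.C} {e : Letter} (h : 𝒢.κ c = some (!e.1)) (z : ℝ × ℝ) :
    𝒢.ve c e z = (pec e.1 z - e.2) / 2 := by
  unfold ve
  rw [if_neg (by rw [h]; simp), if_neg (by rw [h]; cases e.1 <;> simp)]

theorem te_line (c : 𝒜.C) {e : Letter} {z : ℝ × ℝ} (hz : z ∈ line e) :
    𝒢.te c e z = alc e.1 z := by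
  have h1 : pec e.1 z = e.2 := hz
  rcases 𝒢.cases3 c e.1 with h | h | h
  · rw [te_none h]
  · rw [te_axis h, sm_eq e.1, h1]; ring
  · rw [te_diag h, h1]; ring

theorem ve_eq_zero (c : 𝒜.C) (e : Letter) (z : ℝ × ℝ) :
    𝒢.ve c e z = 0 ↔ z ∈ line e := by
  show _ ↔ pec e.1 z = e.2
  rcases 𝒢.cases3 c e.1 with h | h | h
  · rw [ve_none h, sub_eq_zero]
  · rw [ve_axis h, sub_eq_zero]
  · rw [ve_diag h]
    constructor
    · intro h; linarith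
    · intro h; rw [h]; ring

theorem ve_line (c : 𝒜.C) {e : Letter} {z : ℝ × ℝ} (hz : z ∈ line e) : 𝒢.ve c e z = 0 :=
  (ve_eq_zero c e z).2 hz

theorem N_tv_diag {c : 𝒜.C} {e : Letter} (h : 𝒢.κ c ≠ some e.1) (z z' : ℝ × ℝ) :
    𝒢.N c z z' = |𝒢.te c e z - 𝒢.te c e z'| + |𝒢.ve c e z - 𝒢.ve c e z'| := by
  rcases 𝒢.cases3 c e.1 with h' | h' | h'
  · rw [N_none 𝒢 h', te_none h', te_none h', ve_none h', ve_none h', N1_eq e.1]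
    congr 2; ring
  · exact absurd h' h
  · rw [N_some 𝒢 h', te_diag h', te_diag h', ve_diag h', ve_diag h', sm_eq e.1, sm_eq e.1,
      pec_not, pec_not]
    set A := alc e.1 z + (pec e.1 z - e.2) / 2 - (alc e.1 z' + (pec e.1 z' - e.2) / 2)
    set B := (pec e.1 z - e.2) / 2 - (pec e.1 z' - e.2) / 2
    have h1 := max_abs_pq B A
    rw [show alc e.1 z + pec e.1 z - (alc e.1 z' + pec e.1 z') = B + A by ring,
      show alc e.1 z - alc e.1 z' = A - B by ring, h1]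
    ring

theorem N_tv_axis {c : 𝒜.C} {e : Letter} (h : 𝒢.κ c = some e.1) (z z' : ℝ × ℝ) :
    𝒢.N c z z' = max |𝒢.te c e z - 𝒢.te c e z'| |𝒢.ve c e z - 𝒢.ve c e z'| := by
  rw [N_some 𝒢 h, te_axis h, te_axis h, ve_axis h, ve_axis h]
  congr 2 <;> ring

theorem tv_inj {c : 𝒜.C} {e : Letter} {z z' : ℝ × ℝ} (h1 : 𝒢.te c e z = 𝒢.te c e z')
    (h2 : 𝒢.ve c e z = 𝒢.ve c e z') : z = z' := by
  apply 𝒢.N_eq_zero (c := c)
  by_cases h : 𝒢.κ c = some e.1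
  · rw [N_tv_axis h, h1, h2]; simp
  · rw [N_tv_diag h, h1, h2]; simp

/-- the point with given adapted coordinates -/
theorem tv_surj (c : 𝒜.C) (e : Letter) (t v : ℝ) : ∃ z, 𝒢.te c e z = t ∧ 𝒢.ve c e z = v := by
  rcases 𝒢.cases3 c e.1 with h | h | h
  · refine ⟨mkp e.1 t (v + e.2), ?_, ?_⟩
    · rw [te_none h, alc_mkp]
    · rw [ve_none h, pec_mkp]; ring
  · refine ⟨mkp e.1 (t - v) (v + e.2), ?_, ?_⟩
    · rw [te_axis h, sm_mkp]; ring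
    · rw [ve_axis h, pec_mkp]; ring
  · refine ⟨mkp e.1 (t - v) (2 * v + e.2), ?_, ?_⟩
    · rw [te_diag h, alc_mkp, pec_mkp]; ring
    · rw [ve_diag h, pec_mkp]; ring

theorem tr_ini_diag {c : 𝒜.C} {e : Letter} (h : 𝒢.κ c ≠ some e.1) (z : ℝ × ℝ) :
    𝒢.tr e (ini c z) = ⟨𝒜.nx e.1 c, |𝒢.ve c e z|, 0, mkp e.1 (𝒢.te c e z) e.2, le_refl 0⟩ := by
  rcases 𝒢.cases3 c e.1 with h' | h' | h'
  · rw [tr_none 𝒢 (S := ini c z) h', te_none h', ve_none h']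
    simp only [ini, zero_add]
  · exact absurd h' h
  · rw [tr_diag 𝒢 (S := ini c z) h', te_diag h', ve_diag h']
    simp only [ini, zero_add, cl_zero, sub_zero, abs_div]
    rw [abs_of_pos (by norm_num : (0:ℝ) < 2)]

theorem tr_ini_axis {c : 𝒜.C} {e : Letter} (h : 𝒢.κ c = some e.1) (z : ℝ × ℝ) :
    𝒢.tr e (ini c z) = ⟨𝒜.nx e.1 c, 0, |𝒢.ve c e z|, mkp e.1 (𝒢.te c e z) e.2, abs_nonneg _⟩ := by
  rw [tr_axis 𝒢 (S := ini c z) h, te_axis h, ve_axis h]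
  simp only [ini, zero_add]

theorem mem_mkp (e : Letter) (t : ℝ) : mkp e.1 t e.2 ∈ line e := by
  show pec e.1 _ = _; simp

@[simp] theorem te_mkp (c : 𝒜.C) (e : Letter) (t : ℝ) : 𝒢.te c e (mkp e.1 t e.2) = t := by
  rw [te_line c (mem_mkp e t), alc_mkp]

@[simp] theorem ve_mkp (c : 𝒜.C) (e : Letter) (t : ℝ) : 𝒢.ve c e (mkp e.1 t e.2) = 0 :=
  ve_line c (mem_mkp e t)

variable (𝒢)

theorem D_le_tr (e : Letter) (S : St 𝒜) : S.D ≤ (𝒢.tr e S).D := by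
  rcases 𝒢.cases3 S.c e.1 with h | h | h
  · rw [tr_none 𝒢 h]; linarith [abs_nonneg (pec e.1 S.g - e.2)]
  · rw [tr_axis 𝒢 h]
  · rw [tr_diag 𝒢 h]
    have := S.hh
    have := abs_nonneg (pec e.1 S.g - ↑e.2 - cl (pec e.1 S.g - ↑e.2) S.h)
    simp only
    linarith

theorem D_le_go (L : List Letter) (S : St 𝒜) : S.D ≤ (𝒢.go L S).D := by
  induction L generalizing S with
  | nil => exact le_rfl
  | cons e L ih => exact (𝒢.D_le_tr e S).trans (ih (𝒢.tr e S))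

theorem D_nonneg (w : Pl) (ξ : Pt 𝒢) : 0 ≤ (Pt.S w ξ).D :=
  𝒢.D_le_go (ξ.pl⁻¹ * w).val (Geo.ini (𝒜.cls ξ.pl) ξ.pos)

/-- value at the gate -/
theorem ev_gate (S : St 𝒜) : 𝒢.ev S S.g ≤ S.D + S.h := by
  rcases h : 𝒢.κ S.c with _ | b
  · rw [𝒢.ev_none h]
    have h1 : N1 S.g S.g = 0 := by simp [N1]
    rw [h1]; linarith [S.hh]
  · rw [𝒢.ev_some h, sub_self, sub_self, abs_zero, add_zero, max_eq_right S.hh]

theorem ev_gate_none {S : St 𝒜} (h : 𝒢.κ S.c = none) : 𝒢.ev S S.g = S.D := by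
  rw [𝒢.ev_none h]
  have h1 : N1 S.g S.g = 0 := by simp [N1]
  rw [h1, add_zero]

end Geo

/-! ### Far points -/

theorem far_none {S : St 𝒜} (h : 𝒢.κ S.c = none) (b : Bool) {s₁ s₂ L : ℝ}
    (h₁ : s₁ = 1 ∨ s₁ = -1) (h₂ : s₂ = 1 ∨ s₂ = -1) (hL : |alc b S.g| ≤ L ∧ |pec b S.g| ≤ L) :
    𝒢.ev S (mkp b (s₁ * L) (s₂ * L)) = S.D - s₁ * alc b S.g - s₂ * pec b S.g + 2 * L := by
  rw [𝒢.ev_none h, N1_eq b, alc_mkp, pec_mkp, far_abs h₁ hL.1, far_abs h₂ hL.2]; ring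

theorem far_U {S : St 𝒜} {b : Bool} (h : 𝒢.κ S.c = some b) {s L : ℝ}
    (hs : s = 1 ∨ s = -1) (hL : |sm S.g| + S.h + |pec b S.g| ≤ L) :
    𝒢.ev S (mkp b (s * L) 0) = S.D + L - s * sm S.g := by
  rw [𝒢.ev_eq2 h]
  unfold cz
  rw [sm_mkp, pec_mkp, add_zero]
  exact ev2_farU ⟨S.D, S.h, (sm S.g, pec b S.g), S.hh⟩ hs hL

theorem far_Y {S : St 𝒜} {b : Bool} (h : 𝒢.κ S.c = some b) {s L : ℝ}
    (hs : s = 1 ∨ s = -1) (hL : |sm S.g| + S.h + |pec b S.g| ≤ L) :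
    𝒢.ev S (mkp b (-(s * L)) (s * L)) = S.D + S.h + L - s * pec b S.g := by
  rw [𝒢.ev_eq2 h]
  unfold cz
  rw [sm_mkp, pec_mkp, neg_add_cancel]
  exact ev2_farY ⟨S.D, S.h, (sm S.g, pec b S.g), S.hh⟩ hs hL

section mix

variable {𝒢} {Y : Type u} [MetricSpace Y] (R : Rz 𝒢 Y)

theorem mixN {θ : ℝ} {a b m : VPt 𝒢} (h : Mix θ (R.ι a) (R.ι b) (R.ι m)) {w : VP}
    (hk : 𝒢.κ (𝒜.cls w) = none) (c : Bool) {s₁ s₂ : ℝ} (h₁ : s₁ = 1 ∨ s₁ = -1)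
    (h₂ : s₂ = 1 ∨ s₂ = -1) :
    (Pt.S w.1 m.1).D - s₁ * alc c (Pt.S w.1 m.1).g - s₂ * pec c (Pt.S w.1 m.1).g ≤
      (1 - θ) * ((Pt.S w.1 a.1).D - s₁ * alc c (Pt.S w.1 a.1).g - s₂ * pec c (Pt.S w.1 a.1).g) +
      θ * ((Pt.S w.1 b.1).D - s₁ * alc c (Pt.S w.1 b.1).g - s₂ * pec c (Pt.S w.1 b.1).g) := by
  set Sm := Pt.S w.1 m.1 with hSm
  set Sa := Pt.S w.1 a.1 with hSa
  set Sb := Pt.S w.1 b.1 with hSb
  set L := |alc c Sm.g| + |pec c Sm.g| + |alc c Sa.g| + |pec c Sa.g| + |alc c Sb.g| +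
    |pec c Sb.g| with hL
  have a1 := abs_nonneg (alc c Sm.g)
  have a2 := abs_nonneg (pec c Sm.g)
  have a3 := abs_nonneg (alc c Sa.g)
  have a4 := abs_nonneg (pec c Sa.g)
  have a5 := abs_nonneg (alc c Sb.g)
  have a6 := abs_nonneg (pec c Sb.g)
  have h3 := h (R.pt w.1 w.2 (mkp c (s₁ * L) (s₂ * L)))
  rw [R.dist_ι_pt, R.dist_ι_pt, R.dist_ι_pt, Pt.dist_mk, Pt.dist_mk, Pt.dist_mk, ← hSm, ← hSa,
    ← hSb, far_none 𝒢 (by rw [hSm, Pt.S_c]; exact hk) c h₁ h₂ ⟨by linarith, by linarith⟩,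
    far_none 𝒢 (by rw [hSa, Pt.S_c]; exact hk) c h₁ h₂ ⟨by linarith, by linarith⟩,
    far_none 𝒢 (by rw [hSb, Pt.S_c]; exact hk) c h₁ h₂ ⟨by linarith, by linarith⟩] at h3
  linarith

theorem mixU {θ : ℝ} {a b m : VPt 𝒢} (h : Mix θ (R.ι a) (R.ι b) (R.ι m)) {w : VP} {c : Bool}
    (hk : 𝒢.κ (𝒜.cls w) = some c) {s : ℝ} (hs : s = 1 ∨ s = -1) :
    (Pt.S w.1 m.1).D - s * sm (Pt.S w.1 m.1).g ≤
      (1 - θ) * ((Pt.S w.1 a.1).D - s * sm (Pt.S w.1 a.1).g) +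
      θ * ((Pt.S w.1 b.1).D - s * sm (Pt.S w.1 b.1).g) := by
  set Sm := Pt.S w.1 m.1 with hSm
  set Sa := Pt.S w.1 a.1 with hSa
  set Sb := Pt.S w.1 b.1 with hSb
  set L := (|sm Sm.g| + Sm.h + |pec c Sm.g|) + (|sm Sa.g| + Sa.h + |pec c Sa.g|) +
    (|sm Sb.g| + Sb.h + |pec c Sb.g|) with hL
  have a1 := abs_nonneg (sm Sm.g)
  have a2 := abs_nonneg (pec c Sm.g)
  have a3 := abs_nonneg (sm Sa.g)
  have a4 := abs_nonneg (pec c Sa.g)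
  have a5 := abs_nonneg (sm Sb.g)
  have a6 := abs_nonneg (pec c Sb.g)
  have a7 := Sm.hh
  have a8 := Sa.hh
  have a9 := Sb.hh
  have h3 := h (R.pt w.1 w.2 (mkp c (s * L) 0))
  rw [R.dist_ι_pt, R.dist_ι_pt, R.dist_ι_pt, Pt.dist_mk, Pt.dist_mk, Pt.dist_mk, ← hSm, ← hSa,
    ← hSb, far_U 𝒢 (by rw [hSm, Pt.S_c]; exact hk) hs (by linarith),
    far_U 𝒢 (by rw [hSa, Pt.S_c]; exact hk) hs (by linarith),
    far_U 𝒢 (by rw [hSb, Pt.S_c]; exact hk) hs (by linarith)] at h3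
  linarith

theorem mixY {θ : ℝ} {a b m : VPt 𝒢} (h : Mix θ (R.ι a) (R.ι b) (R.ι m)) {w : VP} {c : Bool}
    (hk : 𝒢.κ (𝒜.cls w) = some c) {s : ℝ} (hs : s = 1 ∨ s = -1) :
    (Pt.S w.1 m.1).D + (Pt.S w.1 m.1).h - s * pec c (Pt.S w.1 m.1).g ≤
      (1 - θ) * ((Pt.S w.1 a.1).D + (Pt.S w.1 a.1).h - s * pec c (Pt.S w.1 a.1).g) +
      θ * ((Pt.S w.1 b.1).D + (Pt.S w.1 b.1).h - s * pec c (Pt.S w.1 b.1).g) := by
  set Sm := Pt.S w.1 m.1 with hSm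
  set Sa := Pt.S w.1 a.1 with hSa
  set Sb := Pt.S w.1 b.1 with hSb
  set L := (|sm Sm.g| + Sm.h + |pec c Sm.g|) + (|sm Sa.g| + Sa.h + |pec c Sa.g|) +
    (|sm Sb.g| + Sb.h + |pec c Sb.g|) with hL
  have a1 := abs_nonneg (sm Sm.g)
  have a2 := abs_nonneg (pec c Sm.g)
  have a3 := abs_nonneg (sm Sa.g)
  have a4 := abs_nonneg (pec c Sa.g)
  have a5 := abs_nonneg (sm Sb.g)
  have a6 := abs_nonneg (pec c Sb.g)
  have a7 := Sm.hh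
  have a8 := Sa.hh
  have a9 := Sb.hh
  have h3 := h (R.pt w.1 w.2 (mkp c (-(s * L)) (s * L)))
  rw [R.dist_ι_pt, R.dist_ι_pt, R.dist_ι_pt, Pt.dist_mk, Pt.dist_mk, Pt.dist_mk, ← hSm, ← hSa,
    ← hSb, far_Y 𝒢 (by rw [hSm, Pt.S_c]; exact hk) hs (by linarith),
    far_Y 𝒢 (by rw [hSa, Pt.S_c]; exact hk) hs (by linarith),
    far_Y 𝒢 (by rw [hSb, Pt.S_c]; exact hk) hs (by linarith)] at h3
  linarith

/-- inequality adapted to a diagonal line -/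
theorem mixD {θ : ℝ} {a b m : VPt 𝒢} (h : Mix θ (R.ι a) (R.ι b) (R.ι m)) {w : VP} {e : Letter}
    (hk : 𝒢.κ (𝒜.cls w) ≠ some e.1) (ha : (Pt.S w.1 a.1).h = 0) (hb : (Pt.S w.1 b.1).h = 0)
    {s₁ s₂ : ℝ} (h₁ : s₁ = 1 ∨ s₁ = -1) (h₂ : s₂ = 1 ∨ s₂ = -1) :
    (Pt.S w.1 m.1).D - s₁ * 𝒢.te (𝒜.cls w) e (Pt.S w.1 m.1).g -
        s₂ * 𝒢.ve (𝒜.cls w) e (Pt.S w.1 m.1).g ≤
      (1 - θ) * ((Pt.S w.1 a.1).D - s₁ * 𝒢.te (𝒜.cls w) e (Pt.S w.1 a.1).g -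
        s₂ * 𝒢.ve (𝒜.cls w) e (Pt.S w.1 a.1).g) +
      θ * ((Pt.S w.1 b.1).D - s₁ * 𝒢.te (𝒜.cls w) e (Pt.S w.1 b.1).g -
        s₂ * 𝒢.ve (𝒜.cls w) e (Pt.S w.1 b.1).g) := by
  rcases 𝒢.cases3 (𝒜.cls w) e.1 with h' | h' | h'
  · simp only [Geo.te_none h', Geo.ve_none h']
    have := mixN R h h' e.1 h₁ h₂
    linarith
  · exact absurd h' hk
  · simp only [Geo.te_diag h', Geo.ve_diag h']
    have hU := fun s hs => mixU R (s := s) h h' hs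
    have hY := fun s hs => mixY R (s := s) h h' hs
    rw [ha, hb] at hY
    simp only [pec_not, add_zero] at hY
    simp only [sm_eq e.1] at hU
    have hh := (Pt.S w.1 m.1).hh
    rcases h₁ with rfl | rfl <;> rcases h₂ with rfl | rfl
    · have := hU 1 (Or.inl rfl)
      linarith
    · have := hY 1 (Or.inl rfl)
      linarith
    · have := hY (-1) (Or.inr rfl)
      linarith
    · have := hU (-1) (Or.inr rfl)
      linarith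

/-- inequality adapted to an axis line, along the line -/
theorem mixT {θ : ℝ} {a b m : VPt 𝒢} (h : Mix θ (R.ι a) (R.ι b) (R.ι m)) {w : VP} {e : Letter}
    (hk : 𝒢.κ (𝒜.cls w) = some e.1) {s : ℝ} (hs : s = 1 ∨ s = -1) :
    (Pt.S w.1 m.1).D - s * 𝒢.te (𝒜.cls w) e (Pt.S w.1 m.1).g ≤
      (1 - θ) * ((Pt.S w.1 a.1).D - s * 𝒢.te (𝒜.cls w) e (Pt.S w.1 a.1).g) +
      θ * ((Pt.S w.1 b.1).D - s * 𝒢.te (𝒜.cls w) e (Pt.S w.1 b.1).g) := by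
  simp only [Geo.te_axis hk]
  have := mixU R h hk hs
  linarith

/-- inequality adapted to an axis line, across the line -/
theorem mixV {θ : ℝ} {a b m : VPt 𝒢} (h : Mix θ (R.ι a) (R.ι b) (R.ι m)) {w : VP} {e : Letter}
    (hk : 𝒢.κ (𝒜.cls w) = some e.1) {s : ℝ} (hs : s = 1 ∨ s = -1) :
    (Pt.S w.1 m.1).D + (Pt.S w.1 m.1).h - s * 𝒢.ve (𝒜.cls w) e (Pt.S w.1 m.1).g ≤
      (1 - θ) * ((Pt.S w.1 a.1).D + (Pt.S w.1 a.1).h - s * 𝒢.ve (𝒜.cls w) e (Pt.S w.1 a.1).g) +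
      θ * ((Pt.S w.1 b.1).D + (Pt.S w.1 b.1).h - s * 𝒢.ve (𝒜.cls w) e (Pt.S w.1 b.1).g) := by
  simp only [Geo.ve_axis hk]
  have := mixY R h hk hs
  linarith

end mix

end Run7.h484.K
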