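import Pool.Agent.Run7.h484.K.LUF

/-! Local uniqueness of straight curves: the vertices. -/

namespace Run7.h484.K

universe u

open Set Filter Topology

variable {𝒜 : Auto} {𝒢 : Geo 𝒜}

section

variable {Y : Type u} [MetricSpace Y] (R : Rz 𝒢 Y)

theorem V_none (w : VP) (hk : 𝒢.κ (𝒜.cls w.1) = none) (b : Bool) (k l : ℤ)
    (h₁ : w.1 * W.of (b, k) ∈ VP)
    (h₂ : w.1 * W.of (!b, l) ∈ VP) (za zb z₀ : ℝ × ℝ) (hk0 : z₀ ∈ line (b, k))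
    (hl0 : z₀ ∈ line (!b, l)) (hm : Mix (1 / 2) (R.pt _ h₁ za) (R.pt _ h₂ zb)
      (R.pt w.1 w.2 z₀)) (hza : za ∉ line (b, k)) (hzb : zb ∉ line (!b, l))
    (β : ℝ → Y) (hβ : Straight β)
    (hb0 : β 0 = R.pt _ h₁ za) (hb1 : β 1 = R.pt _ h₂ zb) : β (1 / 2) = R.pt w.1 w.2 z₀ := by
  have hne : ((b, k) : Letter) ≠ (!b, l) := by
    intro h
    have := congrArg Prod.fst h
    revert this
    cases b <;> simp
  have hpk : pec b z₀ = k := hk0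
  have hpl : alc b z₀ = l := by
    have : pec (!b) z₀ = l := hl0
    rwa [pec_not] at this
  have hcls₁ : 𝒜.cls (w.1 * W.of (b, k)) = 𝒜.nx b (𝒜.cls w.1) := 𝒜.cls_mul_of w.1 (b, k)
  have hcls₂ : 𝒜.cls (w.1 * W.of (!b, l)) = 𝒜.nx (!b) (𝒜.cls w.1) :=
    𝒜.cls_mul_of w.1 (!b, l)
  have hd₁ : 𝒢.κ (𝒜.cls w.1) ≠ some (b, k).1 := by rw [hk]; simp
  have hd₂ : 𝒢.κ (𝒜.cls w.1) ≠ some (!b, l).1 := by rw [hk]; simp
  have hd₁' : 𝒢.κ (𝒜.nx b (𝒜.cls w.1)) ≠ some (b, k).1 := fun h => hd₁ ((𝒢.comp_iff _ _).1 h)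
  have hd₂' : 𝒢.κ (𝒜.nx (!b) (𝒜.cls w.1)) ≠ some (!b, l).1 :=
    fun h => hd₂ ((𝒢.comp_iff _ _).1 h)
  obtain ⟨zc, zd, θ, θ', t, hzc, hzd, hθ, hθ', ht, hbt, m1, m2⟩ :=
    two_cross R w hne h₁ h₂ hza hzb hβ hb0 hb1
  obtain ⟨x1, x2⟩ := X_gen R w (b, k) h₁ hzc m1
  obtain ⟨y1, y2⟩ := X_gen R w (!b, l) h₂ hzd m2
  have hzc' : pec b zc = k := hzc
  have hzd' : alc b zd = l := by
    have : pec (!b) zd = l := hzd
    rwa [pec_not] at this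
  -- inequalities at the vertex
  have ha : (Pt.S w.1 (⟨w.1 * W.of (b, k), za⟩ : Pt 𝒢)).h = 0 := by
    rw [S_adj]; exact 𝒢.tr_h (by rw [hcls₁]; exact hd₁')
  have hb : (Pt.S w.1 (⟨w.1 * W.of (!b, l), zb⟩ : Pt 𝒢)).h = 0 := by
    rw [S_adj]; exact 𝒢.tr_h (by rw [hcls₂]; exact hd₂')
  have i1 := fun (s₁ s₂ : ℝ) (hs₁ : s₁ = 1 ∨ s₁ = -1) (hs₂ : s₂ = 1 ∨ s₂ = -1) =>
    mixD R (a := ⟨⟨w.1 * W.of (b, k), za⟩, h₁⟩) (b := ⟨⟨w.1 * W.of (!b, l), zb⟩, h₂⟩)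
      (m := ⟨⟨w.1, z₀⟩, w.2⟩) hm (e := (b, k)) hd₁ ha hb hs₁ hs₂
  simp only [Pt.S_pt, S_adj, hcls₁, hcls₂, Geo.tr_ini_diag (e := (b, k)) hd₁',
    Geo.tr_ini_diag (e := (!b, l)) hd₂', 𝒜.inv] at i1
  have f1 : ∀ t : ℝ, mkp (b, k).1 t ((b, k) : Letter).2 ∈ line (b, k) :=
    fun t => Geo.mem_mkp (b, k) t
  simp only [Geo.ini, Geo.te_none hk, Geo.ve_none hk, pec_not, alc_not, alc_mkp,
    pec_mkp] at i1 x1 x2 y1 y2
  have e1 : ∀ t : ℝ, alc b (mkp (!b) t l) = l := by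
    intro t
    rw [← pec_not, pec_mkp]
  have e2 : ∀ t : ℝ, pec b (mkp (!b) t l) = t := by
    intro t
    rw [← alc_not, alc_mkp]
  simp only [e1, e2, hpk, hpl, hzc', hzd', sub_self, mul_zero, sub_zero] at i1 x1 x2 y1 y2
  set α := |𝒢.ve (𝒜.nx b (𝒜.cls w.1)) (b, k) za| with hαd
  set β' := |𝒢.ve (𝒜.nx (!b) (𝒜.cls w.1)) (!b, l) zb| with hβd
  set ta := 𝒢.te (𝒜.nx b (𝒜.cls w.1)) (b, k) za with hta
  set tb := 𝒢.te (𝒜.nx (!b) (𝒜.cls w.1)) (!b, l) zb with htb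
  -- distances
  have d1 := hm.half_eq
  rw [R.glue w.1 w.2 _ h₁ hk0, R.dist_same, ← R.glue w.1 w.2 _ h₁ hk0,
    R.glue w.1 w.2 _ h₂ hl0, R.dist_same, hcls₁, hcls₂,
    Geo.N_tv_diag (e := (b, k)) hd₁', Geo.N_tv_diag (e := (!b, l)) hd₂',
    Geo.te_line _ hk0, Geo.te_line _ hl0, Geo.ve_line _ hk0, Geo.ve_line _ hl0, zero_sub, zero_sub,
    abs_neg, abs_neg] at d1
  simp only [alc_not] at d1
  rw [hpk, hpl, ← hαd, ← hβd, ← hta, ← htb, abs_sub_comm (l:ℝ), abs_sub_comm (k:ℝ)] at d1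
  obtain ⟨sA, hsA, eA⟩ := exists_sgn (ta - l)
  obtain ⟨sB, hsB, eB⟩ := exists_sgn (tb - k)
  have d3 := i1 sA sB hsA hsB
  rw [mul_sub] at eA eB
  have hα : 0 < α := by
    rw [hαd, abs_pos]
    intro h
    exact hza ((Geo.ve_eq_zero _ _ _).1 h)
  have hβ' : 0 < β' := by
    rw [hβd, abs_pos]
    intro h
    exact hzb ((Geo.ve_eq_zero _ _ _).1 h)
  have hA : |ta - l| ≤ β' := by linarith
  have hB : |tb - k| ≤ α := by linarith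
  have ex : |alc b zc - l| = (1 - θ) * |ta - l| := by
    rw [x2, show (1 - θ) * ta + θ * (l:ℝ) - l = (1 - θ) * (ta - l) by ring, abs_mul,
      abs_of_nonneg (by linarith [hθ.2])]
  have ey : |pec b zd - k| = (1 - θ') * |tb - k| := by
    rw [y2, show (1 - θ') * tb + θ' * (k:ℝ) - k = (1 - θ') * (tb - k) by ring, abs_mul,
      abs_of_nonneg (by linarith [hθ'.2])]
  rw [ey] at x1
  rw [ex] at y1
  have hone := v1_arith hθ.1 hθ.2 hθ'.1 hθ'.2 hα hβ' hA hB x1 y1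
  have hzz : zc = z₀ := by
    rw [hone] at x2
    apply alpe_ext (b := b)
    · rw [hpl]; linarith
    · rw [hpk, hzc']
  rw [hzz] at hbt
  exact mid_time hm hβ hb0 hb1 ht hbt

theorem V_some (w : VP) (b : Bool) (hk : 𝒢.κ (𝒜.cls w.1) = some b) (k l : ℤ)
    (h₁ : w.1 * W.of (b, k) ∈ VP)
    (h₂ : w.1 * W.of (!b, l) ∈ VP) (za zb z₀ : ℝ × ℝ) (hk0 : z₀ ∈ line (b, k))
    (hl0 : z₀ ∈ line (!b, l)) (hm : Mix (1 / 2) (R.pt _ h₁ za) (R.pt _ h₂ zb)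
      (R.pt w.1 w.2 z₀)) (hza : za ∉ line (b, k)) (hzb : zb ∉ line (!b, l))
    (β : ℝ → Y) (hβ : Straight β)
    (hb0 : β 0 = R.pt _ h₁ za) (hb1 : β 1 = R.pt _ h₂ zb) : β (1 / 2) = R.pt w.1 w.2 z₀ := by
  have hne : ((b, k) : Letter) ≠ (!b, l) := by
    intro h
    have := congrArg Prod.fst h
    revert this
    cases b <;> simp
  have hpk : pec b z₀ = k := hk0
  have hpl : alc b z₀ = l := by
    have : pec (!b) z₀ = l := hl0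
    rwa [pec_not] at this
  have hcls₁ : 𝒜.cls (w.1 * W.of (b, k)) = 𝒜.nx b (𝒜.cls w.1) := 𝒜.cls_mul_of w.1 (b, k)
  have hcls₂ : 𝒜.cls (w.1 * W.of (!b, l)) = 𝒜.nx (!b) (𝒜.cls w.1) :=
    𝒜.cls_mul_of w.1 (!b, l)
  have hx₁ : 𝒢.κ (𝒜.cls w.1) = some (b, k).1 := hk
  have hx₁' : 𝒢.κ (𝒜.nx b (𝒜.cls w.1)) = some (b, k).1 := 𝒢.comp _ _ hk
  have hd₂ : 𝒢.κ (𝒜.cls w.1) ≠ some (!b, l).1 := by rw [hk]; cases b <;> simp
  have hk2 : 𝒢.κ (𝒜.cls w.1) = some (!(!b, l).1) := by rw [hk]; simp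
  have hd₂' : 𝒢.κ (𝒜.nx (!b) (𝒜.cls w.1)) ≠ some (!b, l).1 :=
    fun h => hd₂ ((𝒢.comp_iff _ _).1 h)
  obtain ⟨zc, zd, θ, θ', t, hzc, hzd, hθ, hθ', ht, hbt, m1, m2⟩ :=
    two_cross R w hne h₁ h₂ hza hzb hβ hb0 hb1
  obtain ⟨x1, x2⟩ := X_gen R w (b, k) h₁ hzc m1
  obtain ⟨y1, y2⟩ := X_gen R w (!b, l) h₂ hzd m2
  have hzc' : pec b zc = k := hzc
  have hzd' : alc b zd = l := by
    have : pec (!b) zd = l := hzd
    rwa [pec_not] at this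
  set w₂ : VP := ⟨w.1 * W.of (!b, l), h₂⟩ with hw₂
  have hdw₂ : 𝒢.κ (𝒜.cls w₂.1) ≠ some (!b, l).1 := by rw [hw₂, hcls₂]; exact hd₂'
  have e1 : ∀ t : ℝ, alc b (mkp (!b) t l) = l := by
    intro t
    rw [← pec_not, pec_mkp]
  have e2 : ∀ t : ℝ, pec b (mkp (!b) t l) = t := by
    intro t
    rw [← alc_not, alc_mkp]
  set ta := 𝒢.te (𝒜.nx b (𝒜.cls w.1)) (b, k) za with hta
  set tb := 𝒢.te (𝒜.nx (!b) (𝒜.cls w.1)) (!b, l) zb with htb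
  set α := |𝒢.ve (𝒜.nx b (𝒜.cls w.1)) (b, k) za| with hαd
  set P := 𝒢.ve (𝒜.nx (!b) (𝒜.cls w.1)) (!b, l) zb with hP
  set A := ta - l with hA
  set B := tb - k with hB
  have hα : 0 < α := by
    rw [hαd, abs_pos]
    intro h
    exact hza ((Geo.ve_eq_zero _ _ _).1 h)
  have hβ' : 0 < |P| := by
    rw [hP, abs_pos]
    intro h
    exact hzb ((Geo.ve_eq_zero _ _ _).1 h)
  -- vertex inequalities
  have v1 : max |A| α = |P| + |B| := by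
    have d1 := hm.half_eq
    rw [R.glue w.1 w.2 _ h₁ hk0, R.dist_same, ← R.glue w.1 w.2 _ h₁ hk0,
      R.glue w.1 w.2 _ h₂ hl0, R.dist_same, hcls₁, hcls₂,
      Geo.N_tv_axis (e := (b, k)) hx₁', Geo.N_tv_diag (e := (!b, l)) hd₂',
      Geo.te_line _ hk0, Geo.te_line _ hl0, Geo.ve_line _ hk0, Geo.ve_line _ hl0, zero_sub,
      zero_sub, abs_neg, abs_neg] at d1
    simp only [alc_not] at d1
    rw [hpk, hpl, ← hta, ← htb, ← hP, ← hαd, abs_sub_comm (l:ℝ), abs_sub_comm (k:ℝ)] at d1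
    rw [d1]; ring
  have v2 : |A + B| ≤ |P| := by
    have t1 := fun (s : ℝ) (hs : s = 1 ∨ s = -1) =>
      mixT R (a := ⟨⟨w.1 * W.of (b, k), za⟩, h₁⟩) (b := ⟨⟨w.1 * W.of (!b, l), zb⟩, h₂⟩)
        (m := ⟨⟨w.1, z₀⟩, w.2⟩) hm (e := (b, k)) hx₁ hs
    simp only [Pt.S_pt, S_adj, hcls₁, hcls₂, Geo.tr_ini_axis (e := (b, k)) hx₁',
      Geo.tr_ini_diag (e := (!b, l)) hd₂', 𝒜.inv] at t1
    simp only [Geo.ini, Geo.te_axis hx₁, sm_mkp] at t1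
    rw [sm_eq b z₀, hpk, hpl] at t1
    have a1 := t1 1 (Or.inl rfl)
    have a2 := t1 (-1) (Or.inr rfl)
    rw [abs_le, hA, hB]
    constructor <;> linarith
  have v3 : |B| ≤ α + |P| := by
    have y1 := fun (s : ℝ) (hs : s = 1 ∨ s = -1) =>
      mixV R (a := ⟨⟨w.1 * W.of (b, k), za⟩, h₁⟩) (b := ⟨⟨w.1 * W.of (!b, l), zb⟩, h₂⟩)
        (m := ⟨⟨w.1, z₀⟩, w.2⟩) hm (e := (b, k)) hx₁ hs
    simp only [Pt.S_pt, S_adj, hcls₁, hcls₂, Geo.tr_ini_axis (e := (b, k)) hx₁',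
      Geo.tr_ini_diag (e := (!b, l)) hd₂', 𝒜.inv] at y1
    simp only [Geo.ini, Geo.ve_axis hx₁, pec_mkp, e2] at y1
    rw [hpk] at y1
    have a1 := y1 1 (Or.inl rfl)
    have a2 := y1 (-1) (Or.inr rfl)
    rw [abs_le, hB]
    constructor <;> linarith
  have v4 : |(A - cl A α) / 2 + B| + |P| ≤ α + |A - cl A α| / 2 := by
    have hT : Pt.S (w.1 * W.of (!b, l)) (⟨w.1 * W.of (b, k), za⟩ : Pt 𝒢) =
        ⟨𝒜.nx (!b) (𝒜.cls w.1), α + |A - cl A α| / 2, 0,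
          mkp (!b) (k + (A - cl A α) / 2) l, le_refl 0⟩ := by
      rw [S_far w.1 hne, hcls₁, Geo.tr_ini_axis (e := (b, k)) hx₁', 𝒜.inv, 𝒢.tr_diag hk2]
      simp only [zero_add, pec_not, alc_mkp, alc_not, pec_mkp]
      rfl
    have i1 := fun (s₁ s₂ : ℝ) (hs₁ : s₁ = 1 ∨ s₁ = -1) (hs₂ : s₂ = 1 ∨ s₂ = -1) =>
      mixD R (a := ⟨⟨w.1 * W.of (b, k), za⟩, h₁⟩) (b := ⟨⟨w.1 * W.of (!b, l), zb⟩, h₂⟩)
        (m := ⟨⟨w.1, z₀⟩, w.2⟩) hm (w := w₂) (e := (!b, l)) hdw₂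
        (by show (Pt.S (w.1 * W.of (!b, l)) _).h = 0; rw [hT])
        (by show (Pt.S (w.1 * W.of (!b, l)) _).h = 0; rw [Pt.S_pt]; rfl) hs₁ hs₂
    simp only [hw₂, Pt.S_pt, S_adj', hT, hcls₂, Geo.tr_ini_diag (e := (!b, l)) hd₂] at i1
    simp only [Geo.ini] at i1
    have g1 := fun t : ℝ => Geo.te_mkp (𝒢 := 𝒢) (𝒜.nx (!b) (𝒜.cls w.1)) (!b, l) t
    have g2 := fun t : ℝ => Geo.ve_mkp (𝒢 := 𝒢) (𝒜.nx (!b) (𝒜.cls w.1)) (!b, l) t
    simp only at g1 g2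
    simp only [g1, g2, Geo.te_line _ hl0, Geo.ve_line _ hl0, alc_not, hpk, abs_zero, mul_zero,
      sub_zero] at i1
    rw [← htb, ← hP] at i1
    obtain ⟨sA, hsA, eA⟩ := exists_sgn ((A - cl A α) / 2 + B)
    obtain ⟨sB, hsB, eB⟩ := exists_sgn P
    have d3 := i1 sA sB hsA hsB
    rw [← eA, ← eB, hB]
    linarith
  -- the crossing relations
  set x := alc b zc - l with hx
  set y := pec b zd - k with hy
  have E1 : x = (1 - θ) * A + θ * y := by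
    simp only [Geo.te_axis hx₁, sm_eq b, hzd'] at x2
    rw [hx, hA, hy, x2]; ring
  have E2 : (1 - θ) * α = θ * |y| := by
    simp only [Geo.ve_axis hx₁] at x1
    exact x1
  have E3 : y = (1 - θ') * B + θ' * x / 2 := by
    simp only [Geo.te_diag hk2, pec_not, alc_not, hzc'] at y2
    rw [hx, hB, hy, y2]; ring
  have E4 : (1 - θ') * |P| = θ' * |x| / 2 := by
    simp only [Geo.ve_diag hk2, pec_not] at y1
    rw [abs_div, abs_of_pos (by norm_num : (0:ℝ) < 2)] at y1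
    rw [hP, y1, hx]; ring
  have hx0 : x = 0 := by
    by_contra hxne
    have hyne : y ≠ 0 := by
      intro hy0
      rw [hy0, abs_zero, mul_zero] at E2
      have h3 : 1 - θ = 0 := by
        rcases mul_eq_zero.1 E2 with h | h
        · exact h
        · exact absurd h hα.ne'
      rw [h3, hy0, zero_mul, mul_zero, add_zero] at E1
      exact hxne E1
    apply v2_arith hα hβ' hxne hyne v1 v2 (by linarith) v4
    · linear_combination (α + |y|) * E1 + (A - y) * E2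
    · linear_combination (2 * |P| + |x|) * E3 + (2 * B - x) * E4
  have hzz : zc = z₀ := by
    apply alpe_ext (b := b)
    · rw [hpl]; linarith
    · rw [hpk, hzc']
  rw [hzz] at hbt
  exact mid_time hm hβ hb0 hb1 ht hbt

theorem V_gen (w : VP) (b : Bool) (hk : 𝒢.κ (𝒜.cls w.1) = none ∨ 𝒢.κ (𝒜.cls w.1) = some b)
    (k l : ℤ) (h₁ : w.1 * W.of (b, k) ∈ VP)
    (h₂ : w.1 * W.of (!b, l) ∈ VP) (za zb z₀ : ℝ × ℝ) (hk0 : z₀ ∈ line (b, k))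
    (hl0 : z₀ ∈ line (!b, l)) (hm : Mix (1 / 2) (R.pt _ h₁ za) (R.pt _ h₂ zb)
      (R.pt w.1 w.2 z₀))
    (β : ℝ → Y) (hβ : Straight β)
    (hb0 : β 0 = R.pt _ h₁ za) (hb1 : β 1 = R.pt _ h₂ zb) : β (1 / 2) = R.pt w.1 w.2 z₀ := by
  by_cases hza : za ∈ line (b, k)
  · have hβmix : Mix (1 / 2) (R.pt _ h₁ za) (R.pt _ h₂ zb) (β (1 / 2)) := by
      have := hβ.mix (s := 0) (t := 1 / 2) (u := 1) le_rfl (by norm_num) (by norm_num) le_rfl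
        (by norm_num)
      rw [hb0, hb1, sub_zero, sub_zero, div_one] at this
      exact this
    obtain ⟨ξ, hξ⟩ := R.exists_pt (β (1 / 2))
    have e1 : R.pt _ h₁ za = R.pt w.1 w.2 za := (R.glue w.1 w.2 _ h₁ hza).symm
    rw [e1] at hm hβmix
    rw [hξ] at hβmix ⊢
    exact F_gen R w (!b, l) h₂ za zb z₀ hl0 hm ξ hβmix
  by_cases hzb : zb ∈ line (!b, l)
  · have hβmix : Mix (1 / 2) (R.pt _ h₁ za) (R.pt _ h₂ zb) (β (1 / 2)) := by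
      have := hβ.mix (s := 0) (t := 1 / 2) (u := 1) le_rfl (by norm_num) (by norm_num) le_rfl
        (by norm_num)
      rw [hb0, hb1, sub_zero, sub_zero, div_one] at this
      exact this
    obtain ⟨ξ, hξ⟩ := R.exists_pt (β (1 / 2))
    have e1 : R.pt _ h₂ zb = R.pt w.1 w.2 zb := (R.glue w.1 w.2 _ h₂ hzb).symm
    rw [e1] at hm hβmix
    have hm' := hm.swap
    have hβm' := hβmix.swap
    rw [show (1:ℝ) - 1 / 2 = 1 / 2 by norm_num] at hm' hβm'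
    rw [hξ] at hβm' ⊢
    exact F_gen R w (b, k) h₁ zb za z₀ hk0 hm' ξ hβm'
  rcases hk with hk | hk
  · exact V_none R w hk b k l h₁ h₂ za zb z₀ hk0 hl0 hm hza hzb β hβ hb0 hb1
  · exact V_some R w b hk k l h₁ h₂ za zb z₀ hk0 hl0 hm hza hzb β hβ hb0 hb1

theorem luFacts : LUFacts R where
  P w za zb m m' h h' := by
    obtain ⟨ξ, rfl⟩ := R.exists_pt m
    obtain ⟨ξ', rfl⟩ := R.exists_pt m'
    rw [P_gen R w za zb ξ h, P_gen R w za zb ξ' h']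
  F w e hV za zb z₀ hz h0 m hm := by
    obtain ⟨ξ, rfl⟩ := R.exists_pt m
    exact F_gen R w e hV za zb z₀ hz h0 ξ hm
  V w k l h₁ h₂ za zb z₀ hk hl hm β hβ h0 h1 := by
    rcases 𝒢.cases3 (𝒜.cls w.1) false with hc | hc | hc
    · exact V_gen R w false (Or.inl hc) k l h₁ h₂ za zb z₀ hk hl hm β hβ h0 h1
    · exact V_gen R w false (Or.inr hc) k l h₁ h₂ za zb z₀ hk hl hm β hβ h0 h1
    · have h2 := hm.swap
      rw [show (1:ℝ) - 1 / 2 = 1 / 2 by norm_num] at h2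
      have h3 := V_gen R w true (Or.inr hc) l k h₂ h₁ zb za z₀ hl hk h2 _ hβ.rev (by simp [h1])
        (by simp [h0])
      rw [show (1:ℝ) - 1 / 2 = 1 / 2 by norm_num] at h3
      exact h3

include R in
theorem Rz.locUniq : LocUniq Y := (luFacts R).locUniq

end

end Run7.h484.K
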