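import Pool.Agent.Run7.h484.K.Inj
import Pool.Agent.Run7.h484.K.Act
import Pool.Agent.Run7.h484.K.LUV

/-! Admissibility, geometric action, existence and uniqueness of the convex bicombing. -/

namespace Run7.h484.K

universe u v

open Set Filter Topology

section

variable {X : Type u} [MetricSpace X] {σ τ : X → X → ℝ → X}

theorem isConvexBicombing_of (h : IsBicombing σ) : IsConvexBicombing σ where
  continuous := by
    rintro ⟨x, y, t⟩ ht
    have ht' : t ∈ Icc (0:ℝ) 1 := ht
    show Tendsto _ _ _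
    rw [tendsto_iff_dist_tendsto_zero]
    have hc : Tendsto (fun q : X × X × ℝ => dist q.1 x + dist q.2.1 y + |t - q.2.2| * dist x y)
        (𝓝[{q | q.2.2 ∈ Set.Icc (0 : ℝ) 1}] (x, y, t)) (𝓝 0) := by
      have h1 : Continuous fun q : X × X × ℝ =>
          dist q.1 x + dist q.2.1 y + |t - q.2.2| * dist x y := by fun_prop
      have h2 := h1.continuousAt (x := (x, y, t))
      have h3 : Tendsto (fun q : X × X × ℝ => dist q.1 x + dist q.2.1 y + |t - q.2.2| * dist x y)
          (𝓝 (x, y, t)) (𝓝 0) := by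
        have := h2.tendsto
        simpa using this
      exact h3.mono_left nhdsWithin_le_nhds
    refine squeeze_zero' (Eventually.of_forall fun q => dist_nonneg) ?_ hc
    filter_upwards [self_mem_nhdsWithin] with q hq
    have hq' : q.2.2 ∈ Icc (0:ℝ) 1 := hq
    have h1 := h.conical q.1 q.2.1 x y hq'
    have h2 := h.geodesic x y q.2.2 hq' t ht'
    have h3 := dist_triangle (σ q.1 q.2.1 q.2.2) (σ x y q.2.2) (σ x y t)
    have h4 : (1 - q.2.2) * dist q.1 x ≤ 1 * dist q.1 x :=
      mul_le_mul_of_nonneg_right (by linarith [hq'.1]) dist_nonneg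
    have h5 : q.2.2 * dist q.2.1 y ≤ 1 * dist q.2.1 y :=
      mul_le_mul_of_nonneg_right hq'.2 dist_nonneg
    rw [abs_sub_comm] at h2
    show dist (σ q.1 q.2.1 q.2.2) (σ x y t) ≤ _
    linarith
  zero := h.zero
  one := h.one
  geodesic := h.geodesic
  convex := h.convex

theorem IsConvexBicombing.straight (h : IsConvexBicombing σ) (x y : X) : Straight (σ x y) := by
  refine ⟨?_, ?_⟩
  · intro s hs t ht
    rw [h.geodesic x y s hs t ht, h.zero, h.one]
  · intro z
    have h1 := h.convex x y z z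
    apply h1.congr
    intro t ht
    simp only
    have h2 := h.geodesic z z 0 (left_mem_Icc.2 zero_le_one) t ht
    rw [h.zero, dist_self, mul_zero] at h2
    rw [← dist_eq_zero.1 h2]

theorem IsBicombing.preBic (h : IsBicombing σ) : PreBic σ where
  zero := h.zero
  one := h.one
  geodesic := h.geodesic
  reversible := h.reversible
  convex := h.convex

/-- uniqueness of the convex bicombing -/
theorem IsConvexBicombing.eq (hL : LocUniq X) (hτ : IsBicombing τ) (h : IsConvexBicombing σ)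
    (x y : X) {t : ℝ} (ht : t ∈ Icc (0:ℝ) 1) : σ x y t = τ x y t := by
  have hp : PreBic τ := IsBicombing.preBic hτ
  exact Straight.unique hL hp (h.straight x y) (hp.straight x y) (by rw [h.zero, hτ.zero])
    (by rw [h.one, hτ.one]) ht

theorem comb_mem {s t l : ℝ} (hs : s ∈ Icc (0:ℝ) 1) (ht : t ∈ Icc (0:ℝ) 1)
    (hl : l ∈ Icc (0:ℝ) 1) : (1 - l) * s + l * t ∈ Icc (0:ℝ) 1 := by
  have h1 := mul_nonneg (by linarith [hl.2] : 0 ≤ 1 - l) hs.1
  have h2 := mul_nonneg hl.1 ht.1
  have h3 := mul_le_mul_of_nonneg_left hs.2 (by linarith [hl.2] : 0 ≤ 1 - l)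
  have h4 := mul_le_mul_of_nonneg_left ht.2 hl.1
  exact ⟨by linarith, by linarith⟩

theorem IsConvexBicombing.isBicombing (hL : LocUniq X) (hτ : IsBicombing τ)
    (h : IsConvexBicombing σ) : IsBicombing σ where
  zero := h.zero
  one := h.one
  geodesic := h.geodesic
  reversible x y t ht := by
    rw [h.eq hL hτ y x ht, h.eq hL hτ x y (t := 1 - t) ⟨by linarith [ht.2], by linarith [ht.1]⟩]
    exact hτ.reversible x y t ht
  convex := h.convex
  consistent x y s hs t ht hst l hl := by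
    rw [h.eq hL hτ x y hs, h.eq hL hτ x y ht, h.eq hL hτ _ _ hl, h.eq hL hτ x y (comb_mem hs ht hl)]
    exact hτ.consistent x y s hs t ht hst l hl

end

section

variable {𝒜 : Auto} (𝒢 : Geo 𝒜)

instance : ProperSpace (XX 𝒢) := (rzX 𝒢).proper

theorem locUniqX : LocUniq (XX 𝒢) := (rzX 𝒢).locUniq

theorem exists_bic : ∃ σ : XX 𝒢 → XX 𝒢 → ℝ → XX 𝒢, IsBicombing σ := by
  obtain ⟨m, hm⟩ := (rzX 𝒢).hyp.conMid
  exact exists_bicombing hm (locUniqX 𝒢)

theorem IsConvexBicombing.isBicombingX {𝒢 : Geo 𝒜} {σ : XX 𝒢 → XX 𝒢 → ℝ → XX 𝒢}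
    (h : IsConvexBicombing σ) : IsBicombing σ := by
  obtain ⟨τ, hτ⟩ := exists_bic 𝒢
  exact h.isBicombing (locUniqX 𝒢) hτ

theorem admissible : Admissible (XX 𝒢) where
  proper := inferInstance
  injective := (rzX 𝒢).hyp.injective
  finiteDim := ⟨2, (rzX 𝒢).hyp.combDim (by
    have := (rzX 𝒢).dimH_le
    exact_mod_cast this)⟩

theorem geometric [Finite 𝒜.C] : IsGeometric (GC 𝒜) (XX 𝒢) where
  isometric := dist_smulX
  proper := by
    intro K hK
    set o := (rzX 𝒢).pt 1 one_mem_VP (0, 0) with ho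
    obtain ⟨r, hr⟩ := hK.isBounded.subset_closedBall o
    apply (finite_move (𝒢 := 𝒢) (r + r)).subset
    rintro g ⟨_, ⟨x, hx, rfl⟩, hgx⟩
    have h1 := hr hx
    have h2 := hr hgx
    rw [Metric.mem_closedBall] at h1 h2
    have h3 := dist_triangle o (g • x) (g • o)
    rw [dist_smulX] at h3
    show dist o (g • o) ≤ r + r
    have h4 : dist (g • x) o ≤ r := h2
    rw [dist_comm] at h4
    linarith
  cocompact := by
    obtain ⟨K, hK, h⟩ := cocompact_aux (𝒢 := 𝒢)
    refine ⟨K, hK, fun x => ?_⟩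
    obtain ⟨g, k, hk, h⟩ := h x
    exact ⟨g, k, hk, h.symm⟩

end

end Run7.h484.K
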