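import Pool.Agent.Run7.h484.K.Adm
import Pool.Agent.Run7.h484.X1b
import Pool.Agent.Run7.h484.X1c

section

/-! Boundaries of trees of planes with several kinds of planes: the circles of the planes. -/

namespace Run7.h484.K

universe u

open Set Filter Topology

variable {𝒜 : Auto} (𝒢 : Geo 𝒜)

namespace Geo

/-- unit vectors of a plane of class `c` -/
def U1 (c : 𝒜.C) (v : ℝ × ℝ) : Prop := 𝒢.N c v (0, 0) = 1

variable {𝒢}

theorem pec_rho (b : Bool) (z v : ℝ × ℝ) (t : ℝ) : pec b (rho z v t) = pec b z + t * pec b v := by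
  cases b <;> rfl

theorem alc_rho (b : Bool) (z v : ℝ × ℝ) (t : ℝ) : alc b (rho z v t) = alc b z + t * alc b v := by
  cases b <;> rfl

theorem sm_rho (z v : ℝ × ℝ) (t : ℝ) : sm (rho z v t) = sm z + t * sm v := by
  unfold sm rho; simp only; ring

theorem N_rho (c : 𝒜.C) (z v v' : ℝ × ℝ) (a b : ℝ) :
    𝒢.N c (rho z v a) (rho z v b) = |a - b| * 𝒢.N c v (0, 0) := by
  have h0 : ∀ b, pec b ((0:ℝ), (0:ℝ)) = 0 := fun b => by cases b <;> rfl
  have hs : sm ((0:ℝ), (0:ℝ)) = 0 := by unfold sm; simp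
  rcases h : 𝒢.κ c with _ | b'
  · rw [N_none 𝒢 h, N_none 𝒢 h, N1_eq false, N1_eq false]
    simp only [pec_rho, alc_rho]
    have h1 : alc false ((0:ℝ), (0:ℝ)) = 0 := rfl
    rw [h0, h1, sub_zero, sub_zero, mul_add, ← abs_mul, ← abs_mul]
    congr 2 <;> ring
  · rw [N_some 𝒢 h, N_some 𝒢 h, sm_rho, sm_rho, pec_rho, pec_rho, h0, hs, sub_zero, sub_zero,
      mul_max_of_nonneg _ _ (abs_nonneg _), ← abs_mul, ← abs_mul]
    congr 2 <;> ring

theorem N_rho_same {c : 𝒜.C} {v : ℝ × ℝ} (hv : 𝒢.U1 c v) (z : ℝ × ℝ) (a b : ℝ) :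
    𝒢.N c (rho z v a) (rho z v b) = |a - b| := by
  rw [N_rho c z v v, show 𝒢.N c v (0, 0) = 1 from hv, mul_one]

theorem N_rho_base (c : 𝒜.C) (z z' v : ℝ × ℝ) (t : ℝ) :
    𝒢.N c (rho z v t) (rho z' v t) = 𝒢.N c z z' := by
  have : ∀ z : ℝ × ℝ, rho z v t = z + (t * v.1, t * v.2) := fun z => rfl
  rw [this, this, 𝒢.N_add]

theorem N_rho_dir (c : 𝒜.C) (z v v' : ℝ × ℝ) (t : ℝ) :
    𝒢.N c (rho z v t) (rho z v' t) = |t| * 𝒢.N c v v' := by
  rcases h : 𝒢.κ c with _ | b'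
  · rw [N_none 𝒢 h, N_none 𝒢 h, N1_eq false, N1_eq false]
    simp only [pec_rho, alc_rho]
    rw [mul_add, ← abs_mul, ← abs_mul]
    congr 2 <;> ring
  · rw [N_some 𝒢 h, N_some 𝒢 h, sm_rho, sm_rho, pec_rho, pec_rho,
      mul_max_of_nonneg _ _ (abs_nonneg _), ← abs_mul, ← abs_mul]
    congr 2 <;> ring

variable (𝒢)

/-- the norm of the direction of angle `θ` -/
noncomputable def nrm (c : 𝒜.C) (θ : ℝ) : ℝ := 𝒢.N c (Real.cos θ, Real.sin θ) (0, 0)

theorem nrm_pos (c : 𝒜.C) (θ : ℝ) : 0 < 𝒢.nrm c θ := by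
  unfold nrm
  have h0 := 𝒢.N_nonneg c (Real.cos θ, Real.sin θ) (0, 0)
  rcases eq_or_lt_of_le h0 with h1 | h1
  · exfalso
    have h2 := 𝒢.N_eq_zero h1.symm.le
    rw [Prod.mk.injEq] at h2
    have h3 := Real.sin_sq_add_cos_sq θ
    rw [h2.1, h2.2] at h3
    norm_num at h3
  · exact h1

theorem N_lip (c : 𝒜.C) : Continuous fun v : ℝ × ℝ => 𝒢.N c v (0, 0) := by
  rcases h : 𝒢.κ c with _ | b
  · simp only [N_none 𝒢 h]
    unfold N1
    fun_prop
  · simp only [N_some 𝒢 h]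
    cases b
    · simp only [sm, pec, Bool.false_eq_true, if_false]
      fun_prop
    · simp only [sm, pec, if_true]
      fun_prop

/-- the unit vector of angle `θ` -/
noncomputable def dir (c : 𝒜.C) (θ : ℝ) : ℝ × ℝ :=
  (Real.cos θ / 𝒢.nrm c θ, Real.sin θ / 𝒢.nrm c θ)

theorem N_smul (c : 𝒜.C) (v : ℝ × ℝ) (t : ℝ) :
    𝒢.N c (t * v.1, t * v.2) (0, 0) = |t| * 𝒢.N c v (0, 0) := by
  have h1 := N_rho (𝒢 := 𝒢) c (0, 0) v v t 0
  have e1 : rho (0, 0) v t = (t * v.1, t * v.2) := by unfold rho; simp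
  have e2 : rho (0, 0) v 0 = (0, 0) := by unfold rho; simp
  rwa [e1, e2, sub_zero] at h1

theorem dir_unit (c : 𝒜.C) (θ : ℝ) : 𝒢.U1 c (𝒢.dir c θ) := by
  have hp := 𝒢.nrm_pos c θ
  have h1 := 𝒢.N_smul c (Real.cos θ, Real.sin θ) (𝒢.nrm c θ)⁻¹
  show 𝒢.N c (𝒢.dir c θ) (0, 0) = 1
  have e1 : 𝒢.dir c θ = ((𝒢.nrm c θ)⁻¹ * (Real.cos θ), (𝒢.nrm c θ)⁻¹ * (Real.sin θ)) := by
    unfold dir
    rw [div_eq_inv_mul, div_eq_inv_mul]
  rw [e1, h1, abs_of_pos (inv_pos.2 hp)]
  exact inv_mul_cancel₀ hp.ne'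

theorem dir_continuous (c : 𝒜.C) : Continuous (𝒢.dir c) := by
  have h1 : Continuous (𝒢.nrm c) :=
    (𝒢.N_lip c).comp (Real.continuous_cos.prodMk Real.continuous_sin)
  exact (Real.continuous_cos.div h1 fun θ => (𝒢.nrm_pos c θ).ne').prodMk
    (Real.continuous_sin.div h1 fun θ => (𝒢.nrm_pos c θ).ne')

theorem dir_eq_iff (c : 𝒜.C) (θ θ' : ℝ) :
    𝒢.dir c θ = 𝒢.dir c θ' ↔ ∃ k : ℤ, θ' = θ + k • (2 * Real.pi) := by
  constructor
  · intro he
    unfold dir at he
    rw [Prod.mk.injEq] at he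
    obtain ⟨e1, e2⟩ := he
    have p1 := 𝒢.nrm_pos c θ
    have p2 := 𝒢.nrm_pos c θ'
    rw [div_eq_div_iff p1.ne' p2.ne'] at e1 e2
    have h1 := Real.sin_sq_add_cos_sq θ
    have h2 := Real.sin_sq_add_cos_sq θ'
    have h3 : 𝒢.nrm c θ' ^ 2 = 𝒢.nrm c θ ^ 2 := by
      have e3 : (Real.sin θ * 𝒢.nrm c θ') ^ 2 + (Real.cos θ * 𝒢.nrm c θ') ^ 2 =
          (Real.sin θ' * 𝒢.nrm c θ) ^ 2 + (Real.cos θ' * 𝒢.nrm c θ) ^ 2 := by rw [e1, e2]
      have e4 : (Real.sin θ * 𝒢.nrm c θ') ^ 2 + (Real.cos θ * 𝒢.nrm c θ') ^ 2 =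
          (Real.sin θ ^ 2 + Real.cos θ ^ 2) * 𝒢.nrm c θ' ^ 2 := by ring
      have e5 : (Real.sin θ' * 𝒢.nrm c θ) ^ 2 + (Real.cos θ' * 𝒢.nrm c θ) ^ 2 =
          (Real.sin θ' ^ 2 + Real.cos θ' ^ 2) * 𝒢.nrm c θ ^ 2 := by ring
      rw [e4, e5, h1, h2, one_mul, one_mul] at e3
      exact e3
    have h4 : 𝒢.nrm c θ' = 𝒢.nrm c θ := (sq_eq_sq₀ p2.le p1.le).1 h3
    rw [h4] at e1 e2
    have e1' : Real.cos θ = Real.cos θ' := mul_right_cancel₀ p1.ne' e1
    have e2' : Real.sin θ = Real.sin θ' := mul_right_cancel₀ p1.ne' e2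
    have e3 : (θ : Real.Angle) = θ' := Real.Angle.cos_sin_inj e1' e2'
    obtain ⟨k, hk⟩ := Real.Angle.angle_eq_iff_two_pi_dvd_sub.1 e3
    refine ⟨-k, ?_⟩
    rw [zsmul_eq_mul]
    push_cast
    linarith
  · rintro ⟨k, rfl⟩
    unfold dir nrm
    rw [zsmul_eq_mul, Real.cos_add_int_mul_two_pi, Real.sin_add_int_mul_two_pi]

theorem exists_dir {c : 𝒜.C} {v : ℝ × ℝ} (hv : 𝒢.U1 c v) : ∃ θ, 𝒢.dir c θ = v := by
  set z : ℂ := ⟨v.1, v.2⟩ with hz
  have hz0 : z ≠ 0 := by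
    intro h0
    have h1 : v.1 = 0 := by
      have := congrArg Complex.re h0
      exact this
    have h2 : v.2 = 0 := by
      have := congrArg Complex.im h0
      exact this
    have h3 : v = (0, 0) := by ext <;> assumption
    unfold U1 at hv
    rw [h3, 𝒢.N_self] at hv
    norm_num at hv
  have hn : 0 < ‖z‖ := norm_pos_iff.2 hz0
  have e1 : ‖z‖ * Real.cos z.arg = v.1 := by rw [Complex.norm_mul_cos_arg]
  have e2 : ‖z‖ * Real.sin z.arg = v.2 := by rw [Complex.norm_mul_sin_arg]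
  refine ⟨z.arg, ?_⟩
  have e3 : ‖z‖ * 𝒢.nrm c z.arg = 1 := by
    have h1 := 𝒢.N_smul c (Real.cos z.arg, Real.sin z.arg) ‖z‖
    simp only [e1, e2] at h1
    rw [abs_of_pos hn] at h1
    unfold nrm
    rw [← h1]
    exact hv
  have hp := 𝒢.nrm_pos c z.arg
  unfold dir
  have e4 : v.1 * 𝒢.nrm c z.arg = Real.cos z.arg := by
    rw [← e1]
    calc ‖z‖ * Real.cos z.arg * 𝒢.nrm c z.arg = (‖z‖ * 𝒢.nrm c z.arg) * Real.cos z.arg := by ring
      _ = Real.cos z.arg := by rw [e3, one_mul]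
  have e5 : v.2 * 𝒢.nrm c z.arg = Real.sin z.arg := by
    rw [← e2]
    calc ‖z‖ * Real.sin z.arg * 𝒢.nrm c z.arg = (‖z‖ * 𝒢.nrm c z.arg) * Real.sin z.arg := by ring
      _ = Real.sin z.arg := by rw [e3, one_mul]
  ext
  · simp only
    rw [div_eq_iff hp.ne']; exact e4.symm
  · simp only
    rw [div_eq_iff hp.ne']; exact e5.symm

end Geo

/-- direction of the lines of type `b` -/
def pd (b : Bool) (s : ℝ) : ℝ × ℝ := mkp b s 0

theorem pd_unit {𝒢 : Geo 𝒜} (c : 𝒜.C) (b : Bool) {s : ℝ} (hs : s = 1 ∨ s = -1) :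
    𝒢.U1 c (pd b s) := by
  have h1 : |s| = 1 := by
    rcases hs with rfl | rfl
    · exact abs_one
    · rw [abs_neg, abs_one]
  show 𝒢.N c (pd b s) (0, 0) = 1
  have hl1 : pd b s ∈ line (b, 0) := by
    show pec b (mkp b s 0) = ((0:ℤ):ℝ)
    rw [pec_mkp]; simp
  have hl2 : ((0:ℝ), (0:ℝ)) ∈ line (b, 0) := by
    show pec b ((0:ℝ), (0:ℝ)) = ((0:ℤ):ℝ)
    cases b <;> simp [pec]
  rw [𝒢.N_line c hl1 hl2]
  have : alc b ((0:ℝ), (0:ℝ)) = 0 := by cases b <;> rfl
  simp only [pd, alc_mkp]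
  rw [this, sub_zero, h1]

theorem rho_line {e : Letter} {z : ℝ × ℝ} (hz : z ∈ line e) (s t : ℝ) :
    rho z (pd e.1 s) t ∈ line e := by
  show pec e.1 _ = _
  rw [Geo.pec_rho]
  unfold pd
  rw [pec_mkp, mul_zero, add_zero]
  exact hz

theorem pd_inj {b : Bool} {s s' : ℝ} (he : pd b s = pd b s') : s = s' := by
  have := congrArg (alc b) he
  unfold pd at this
  rwa [alc_mkp, alc_mkp] at this

theorem pd_ne (b : Bool) {s s' : ℝ} (hs : s ≠ 0) : pd b s ≠ pd (!b) s' := by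
  intro he
  have := congrArg (alc b) he
  unfold pd at this
  rw [alc_mkp, ← pec_not, pec_mkp] at this
  exact hs this

theorem dir_of_bdd {𝒢 : Geo 𝒜} {c : 𝒜.C} {e : Letter} {v : ℝ × ℝ} (hv : 𝒢.U1 c v) {C : ℝ}
    (hC : ∀ t, 0 ≤ t → ∃ q ∈ line e, 𝒢.N c (rho (0, 0) v t) q ≤ C) :
    ∃ s : ℝ, (s = 1 ∨ s = -1) ∧ v = pd e.1 s := by
  have key : pec e.1 v = 0 := by
    by_contra hne
    have hp : 0 < |pec e.1 v| := abs_pos.2 hne
    have h00 : pec e.1 ((0:ℝ), (0:ℝ)) = 0 := by cases e.1 <;> rfl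
    have ha : ∀ t, 0 ≤ t → |t * pec e.1 v - e.2| ≤ 2 * C := by
      intro t ht
      obtain ⟨q, hq, hd⟩ := hC t ht
      have h1 := 𝒢.lo c e.1 (rho (0, 0) v t) q
      rw [Geo.pec_rho, h00, zero_add, show pec e.1 q = e.2 from hq] at h1
      linarith
    have h0 := ha 0 le_rfl
    rw [zero_mul, zero_sub, abs_neg] at h0
    have hC0 : 0 ≤ C := by linarith [abs_nonneg (e.2:ℝ)]
    have h1 := ha ((4 * C + 1) / |pec e.1 v|) (by positivity)
    have h2 : |(4 * C + 1) / |pec e.1 v| * pec e.1 v| = 4 * C + 1 := by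
      rw [abs_mul, abs_div, abs_abs, div_mul_cancel₀ _ hp.ne', abs_of_pos (by linarith)]
    have h3 := abs_sub_abs_le_abs_sub ((4 * C + 1) / |pec e.1 v| * pec e.1 v) e.2
    linarith
  have hveq : v = mkp e.1 (alc e.1 v) 0 := by
    rw [← key, mkp_eta]
  have hl1 : v ∈ line (e.1, 0) := by
    show pec e.1 v = ((0:ℤ):ℝ)
    rw [key]; simp
  have hl2 : ((0:ℝ), (0:ℝ)) ∈ line (e.1, 0) := by
    show pec e.1 ((0:ℝ), (0:ℝ)) = ((0:ℤ):ℝ)
    cases e.1 <;> simp [pec]
  have hv' : 𝒢.N c v (0, 0) = 1 := hv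
  rw [𝒢.N_line c hl1 hl2] at hv'
  have h00 : alc e.1 ((0:ℝ), (0:ℝ)) = 0 := by cases e.1 <;> rfl
  simp only at hv'
  rw [h00, sub_zero] at hv'
  rcases abs_eq (zero_le_one) |>.1 hv' with h | h
  · exact ⟨1, Or.inl rfl, by rw [hveq, h]; rfl⟩
  · exact ⟨-1, Or.inr rfl, by rw [hveq, h]; rfl⟩

section bdry

variable {𝒢} {Y : Type u} [MetricSpace Y] (R : Rz 𝒢 Y) {σ : Y → Y → ℝ → Y} (h : IsBicombing σ)

include h in
/-- planes are straight for every bicombing -/
theorem seg_plane (w : VP) (z z' : ℝ × ℝ) {t : ℝ} (ht : t ∈ Icc (0:ℝ) 1) :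
    σ (R.pt w.1 w.2 z) (R.pt w.1 w.2 z') t = R.pt w.1 w.2 (mix z z' t) := by
  obtain ⟨ξ, hξ⟩ := R.exists_pt (σ (R.pt w.1 w.2 z) (R.pt w.1 w.2 z') t)
  have hm : Mix t (R.pt w.1 w.2 z) (R.pt w.1 w.2 z') (R.ι ξ) := by
    intro x
    rw [← hξ]
    exact h.dist_pt _ _ _ ht
  rw [hξ, P_gen R w z z' ξ hm]
  rfl

include h in
theorem seg_rho (w : VP) (z v : ℝ × ℝ) (a b : ℝ) {t : ℝ} (ht : t ∈ Icc (0:ℝ) 1) :
    σ (R.pt w.1 w.2 (rho z v a)) (R.pt w.1 w.2 (rho z v b)) t =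
      R.pt w.1 w.2 (rho z v ((1 - t) * a + t * b)) := by
  rw [seg_plane R h w _ _ ht]
  congr 1
  unfold mix rho
  ext <;> simp only <;> ring

include h in
theorem plane_ray (w : VP) (z : ℝ × ℝ) {v : ℝ × ℝ} (hv : 𝒢.U1 (𝒜.cls w.1) v) :
    RRay σ (R.pt w.1 w.2 z) (fun t => R.pt w.1 w.2 (rho z v t)) where
  zero := by simp [rho]
  iso a b _ _ := by rw [R.dist_same, Geo.N_rho_same hv]
  seg T l _ hl := by
    have := seg_rho R h w z v 0 T hl
    rw [mul_zero, zero_add] at this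
    have e : rho z v 0 = z := by simp [rho]
    rw [e] at this
    exact this.symm

/-- the ray `x` is asymptotic to the direction `v` of the plane `w` -/
def Asym {p : Y} (w : VP) (v : ℝ × ℝ) (x : Bdry σ p) : Prop :=
  ∃ C, ∀ t, 0 ≤ t → dist (x.c t) (R.pt w.1 w.2 (rho (0, 0) v t)) ≤ C

include h in
theorem Asym.unique {p : Y} {w : VP} {v : ℝ × ℝ} {x y : Bdry σ p} (hx : Asym R w v x)
    (hy : Asym R w v y) : x = y := by
  obtain ⟨C, hC⟩ := hx
  obtain ⟨C', hC'⟩ := hy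
  apply Bdry.eq_of_bdd h _ _ (C := C + C')
  intro t ht
  have h1 := hC t ht
  have h2 := hC' t ht
  have h3 := dist_triangle_right (x.c t) (y.c t) (R.pt w.1 w.2 (rho (0, 0) v t))
  linarith

theorem Asym.dir_eq {p : Y} {w : VP} {v v' : ℝ × ℝ} {x : Bdry σ p} (hx : Asym R w v x)
    (hy : Asym R w v' x) : v = v' := by
  obtain ⟨C, hC⟩ := hx
  obtain ⟨C', hC'⟩ := hy
  by_contra hne
  have hpos : 0 < 𝒢.N (𝒜.cls w.1) v v' := by
    by_contra hcon
    push Not at hcon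
    exact hne (𝒢.N_eq_zero hcon)
  have key : ∀ t, 0 ≤ t → t * 𝒢.N (𝒜.cls w.1) v v' ≤ C + C' := by
    intro t ht
    have h1 := hC t ht
    have h2 := hC' t ht
    have h3 := dist_triangle_left (R.pt w.1 w.2 (rho (0, 0) v t)) (R.pt w.1 w.2 (rho (0, 0) v' t))
      (x.c t)
    rw [R.dist_same, Geo.N_rho_dir, abs_of_nonneg ht] at h3
    linarith
  have h0 := key 0 le_rfl
  rw [zero_mul] at h0
  have := key ((C + C' + 1) / 𝒢.N (𝒜.cls w.1) v v') (by positivity)
  rw [div_mul_cancel₀ _ hpos.ne'] at this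
  linarith

/-- shifting the base point of the linear ray, large times only -/
theorem Asym.of_large {p : Y} {w : VP} {v : ℝ × ℝ} {x : Bdry σ p} (z : ℝ × ℝ) {C b : ℝ}
    (hx : ∀ t, b ≤ t → 0 ≤ t → dist (x.c t) (R.pt w.1 w.2 (rho z v t)) ≤ C)
    (hv : 𝒢.U1 (𝒜.cls w.1) v) : Asym R w v x := by
  have large : ∀ t, b ≤ t → 0 ≤ t →
      dist (x.c t) (R.pt w.1 w.2 (rho (0, 0) v t)) ≤ C + 𝒢.N (𝒜.cls w.1) z (0, 0) := by
    intro t hb h0
    have h1 := hx t hb h0
    have h2 := dist_triangle (x.c t) (R.pt w.1 w.2 (rho z v t)) (R.pt w.1 w.2 (rho (0, 0) v t))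
    rw [R.dist_same, Geo.N_rho_base] at h2
    linarith
  set B := max b 0
  refine ⟨C + 𝒢.N (𝒜.cls w.1) z (0, 0) + 2 * B, fun t ht => ?_⟩
  have hB : 0 ≤ B := le_max_right _ _
  rcases le_total B t with h1 | h1
  · have := large t ((le_max_left _ _).trans h1) ht
    linarith
  · have h2 := large B (le_max_left _ _) hB
    have h3 := dist_triangle4 (x.c t) (x.c B) (R.pt w.1 w.2 (rho (0, 0) v B))
      (R.pt w.1 w.2 (rho (0, 0) v t))
    rw [x.rray.iso t B ht hB, R.dist_same, Geo.N_rho_same hv,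
      abs_of_nonpos (by linarith : t - B ≤ 0), abs_of_nonneg (by linarith : 0 ≤ B - t)] at h3
    linarith

variable [CompleteSpace Y]

/-- moving the base point -/
theorem Asym.move {p : Y} (q : Y) {w : VP} {v : ℝ × ℝ} {x : Bdry σ p} (hx : Asym R w v x) :
    Asym R w v (moveC h q x) := by
  obtain ⟨C, hC⟩ := hx
  refine ⟨dist p q + C, fun t ht => ?_⟩
  have h1 := moveC_dist h q x ht
  have h2 := dist_triangle ((moveC h q x).c t) (x.c t) (R.pt w.1 w.2 (rho (0, 0) v t))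
  linarith [hC t ht]

/-- the boundary point of the plane `w` in direction `v` -/
noncomputable def bp (p : Y) (w : VP) (v : ℝ × ℝ) (hv : 𝒢.U1 (𝒜.cls w.1) v) : Bdry σ p :=
  moveC h p (plane_ray R h w (0, 0) hv).toBdry

theorem bp_asym (p : Y) (w : VP) (v : ℝ × ℝ) (hv : 𝒢.U1 (𝒜.cls w.1) v) :
    Asym R w v (bp R h p w v hv) := by
  refine ⟨dist (R.pt w.1 w.2 (0, 0)) p, fun t ht => ?_⟩
  have := moveC_dist h p (plane_ray R h w (0, 0) hv).toBdry ht
  rw [RRay.toBdry_c _ ht] at this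
  exact this

theorem bp_of_asym {p : Y} {w : VP} {v : ℝ × ℝ} {hv : 𝒢.U1 (𝒜.cls w.1) v} {x : Bdry σ p}
    (hx : Asym R w v x) : x = bp R h p w v hv :=
  Asym.unique R h hx (bp_asym R h p w v hv)

theorem bp_inj {p : Y} {w : VP} {v v' : ℝ × ℝ} {hv : 𝒢.U1 (𝒜.cls w.1) v}
    {hv' : 𝒢.U1 (𝒜.cls w.1) v'}
    (he : bp R h p w v hv = bp R h p w v' hv') : v = v' := by
  have h1 := bp_asym R h p w v hv
  rw [he] at h1
  exact Asym.dir_eq R h1 (bp_asym R h p w v' hv')

theorem move_bp (p q : Y) (w : VP) (v : ℝ × ℝ) (hv : 𝒢.U1 (𝒜.cls w.1) v) :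
    moveHomeo h p q (bp R h p w v hv) = bp R h q w v hv :=
  bp_of_asym R h (Asym.move R h q (bp_asym R h p w v hv))

/-- parametrised boundary circle of the plane `w` -/
noncomputable def circ (p : Y) (w : VP) (θ : ℝ) : Bdry σ p :=
  bp R h p w (𝒢.dir (𝒜.cls w.1) θ) (𝒢.dir_unit (𝒜.cls w.1) θ)

theorem circ_continuous (p : Y) (w : VP) : Continuous (circ R h p w) := by
  have h1 : Continuous (fun θ => (plane_ray R h w (0, 0) (𝒢.dir_unit (𝒜.cls w.1) θ)).toBdry) := by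
    rw [continuous_iff_continuousAt]
    intro θ V hV
    obtain ⟨T, hT, ε, hε, hy⟩ := (Bdry.mem_nhds_iff h _ _).1 hV
    show _ ∈ 𝓝 θ
    have h2 : Tendsto (fun θ' => T * N1 (𝒢.dir (𝒜.cls w.1) θ') (𝒢.dir (𝒜.cls w.1) θ)) (𝓝 θ)
        (𝓝 (T * N1 (𝒢.dir (𝒜.cls w.1) θ) (𝒢.dir (𝒜.cls w.1) θ))) := by
      have hc : Continuous fun θ' => T * N1 (𝒢.dir (𝒜.cls w.1) θ') (𝒢.dir (𝒜.cls w.1) θ) := by
        unfold N1
        have h3 := (𝒢.dir_continuous (𝒜.cls w.1)).fst
        have h4 := (𝒢.dir_continuous (𝒜.cls w.1)).snd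
        exact continuous_const.mul (((h3.sub continuous_const).abs).add
          ((h4.sub continuous_const).abs))
      exact hc.tendsto θ
    have h5 : T * N1 (𝒢.dir (𝒜.cls w.1) θ) (𝒢.dir (𝒜.cls w.1) θ) = 0 := by simp [N1]
    rw [h5] at h2
    filter_upwards [h2.eventually (gt_mem_nhds hε)] with θ' hθ'
    apply hy
    rw [RRay.toBdry_c _ hT.le, RRay.toBdry_c _ hT.le, R.dist_same, Geo.N_rho_dir, abs_of_pos hT]
    exact (mul_le_mul_of_nonneg_left (𝒢.hi _ _ _) hT.le).trans_lt hθ'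
  exact (moveC_continuous h _ _).comp h1

theorem circ_eq_iff (p : Y) (w : VP) (θ θ' : ℝ) :
    circ R h p w θ = circ R h p w θ' ↔ ∃ k : ℤ, θ' = θ + k • (2 * Real.pi) := by
  rw [← 𝒢.dir_eq_iff (𝒜.cls w.1)]
  constructor
  · intro he
    exact bp_inj R h he
  · intro he
    unfold circ
    congr 1

theorem bp_mem_circ (p : Y) (w : VP) (v : ℝ × ℝ) (hv : 𝒢.U1 (𝒜.cls w.1) v) :
    bp R h p w v hv ∈ range (circ R h p w) := by
  obtain ⟨θ, hθ⟩ := 𝒢.exists_dir hv
  subst hθ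
  exact ⟨θ, rfl⟩

end bdry

end Run7.h484.K

end

section

/-! Boundaries of trees of planes with several kinds of planes: poles, five-cut pairs. -/

namespace Run7.h484.K

universe u

open Set Filter Topology

variable {𝒜 : Auto} {𝒢 : Geo 𝒜} {Y : Type u} [MetricSpace Y] (R : Rz 𝒢 Y) {σ : Y → Y → ℝ → Y}
  (h : IsBicombing σ)

/-- reversing the word between two planes -/
theorem word_rev (w w' : Pl) : (w'⁻¹ * w).val = ((w⁻¹ * w').val).reverse := by
  rw [← W.inv_val]; congr 1; group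

/-- a point of a plane beyond an edge -/
theorem pt_B_of {w w' : VP} {e : Letter} {L : List Letter} (hL : ((w:Pl)⁻¹ * w').val = e :: L)
    (z : ℝ × ℝ) : R.pt w'.1 w'.2 z ∈ R.B w.1 e := by
  apply R.pt_mem_B
  obtain ⟨y, hy, hye⟩ := W.eq_of_mul hL
  have e1 : (w'.1)⁻¹ * w.1 = y⁻¹ * W.of e := by
    have : (w'.1)⁻¹ * w.1 = ((w.1)⁻¹ * w'.1)⁻¹ := by group
    rw [this, hye, mul_inv_rev, W.of_inv]
  have e2 : (w'.1)⁻¹ * w.1 * W.of e = y⁻¹ := by rw [e1, W.mul_of_mul_of]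
  rw [e2, word_rev, hL, W.inv_val, hy]
  simp

include h in
/-- two planes share at most the two ends of a family of parallel lines -/
theorem Asym.meet {p : Y} {w w' : VP} {e : Letter} {L : List Letter}
    (hL : ((w:Pl)⁻¹ * w').val = e :: L) {v v' : ℝ × ℝ} (hv : 𝒢.U1 (𝒜.cls w.1) v)
    {x : Bdry σ p} (hx : Asym R w v x) (hx' : Asym R w' v' x) :
    ∃ s : ℝ, (s = 1 ∨ s = -1) ∧ v = pd e.1 s := by
  obtain ⟨C, hC⟩ := hx
  obtain ⟨C', hC'⟩ := hx'
  apply dir_of_bdd (C := C + C') hv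
  intro t ht
  have h1 := hC t ht
  have h2 := hC' t ht
  have h3 := dist_triangle_left (R.pt w.1 w.2 (rho (0, 0) v t)) (R.pt w'.1 w'.2 (rho (0, 0) v' t))
      (x.c t)
  obtain ⟨q, hq, hd⟩ := R.cross_AB w.2 (R.pt_self_mem_A w.2 (rho (0, 0) v t))
    (pt_B_of R hL (rho (0, 0) v' t))
  refine ⟨q, hq, ?_⟩
  rw [R.dist_same] at hd
  have := dist_nonneg (x := R.pt w.1 w.2 q) (y := R.pt w'.1 w'.2 (rho (0, 0) v' t))
  linarith

theorem line_pt (e : Letter) : mkp e.1 0 e.2 ∈ line e := Geo.mem_mkp e 0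

/-- adjacent planes share the ends of the gluing line -/
theorem Asym.next {p : Y} {w w' : VP} {e : Letter} (hw : w'.1 = w.1 * W.of e) {s : ℝ}
    (hs : s = 1 ∨ s = -1)
    {x : Bdry σ p} (hx : Asym R w (pd e.1 s) x) : Asym R w' (pd e.1 s) x := by
  obtain ⟨C, hC⟩ := hx
  obtain ⟨w', hw'⟩ := w'
  simp only at hw
  subst hw
  apply Asym.of_large R (mkp e.1 0 e.2) (C := C + 𝒢.N (𝒜.cls w.1) (0, 0) (mkp e.1 0 e.2)) (b := 0)
  · intro t _ ht
    have h1 := hC t ht
    rw [← R.glue w.1 w.2 e hw' (rho_line (line_pt e) s t)]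
    have h2 := dist_triangle (x.c t) (R.pt w.1 w.2 (rho (0, 0) (pd e.1 s) t))
      (R.pt w.1 w.2 (rho (mkp e.1 0 e.2) (pd e.1 s) t))
    rw [R.dist_same, Geo.N_rho_base] at h2
    linarith
  · exact pd_unit _ _ hs

variable [CompleteSpace Y]

theorem bp_next (p : Y) {w w' : VP} {e : Letter} (hw : w'.1 = w.1 * W.of e) {s : ℝ}
    (hs : s = 1 ∨ s = -1) :
    bp R h p w (pd e.1 s) (pd_unit _ _ hs) = bp R h p w' (pd e.1 s) (pd_unit _ _ hs) :=
  bp_of_asym R h (Asym.next R hw hs (bp_asym R h p w _ _))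

/-- the two points are the ends of a line in some plane -/
def PolePair (p : Y) (x y : Bdry σ p) : Prop :=
  ∃ (w : VP) (b : Bool) (s : ℝ) (hs : s = 1 ∨ s = -1) (hs' : -s = 1 ∨ -s = -1),
    x = bp R h p w (pd b s) (pd_unit _ b hs) ∧ y = bp R h p w (pd b (-s)) (pd_unit _ b hs')

theorem neg_sgn {s : ℝ} (hs : s = 1 ∨ s = -1) : -s = 1 ∨ -s = -1 := by
  rcases hs with rfl | rfl
  · right; rfl
  · left; norm_num

theorem circ_asym {p : Y} {w : VP} {x : Bdry σ p} (hx : x ∈ range (circ R h p w)) :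
    ∃ v, 𝒢.U1 (𝒜.cls w.1) v ∧ Asym R w v x := by
  obtain ⟨θ, rfl⟩ := hx
  exact ⟨_, 𝒢.dir_unit (𝒜.cls w.1) θ, bp_asym R h p w _ _⟩

/-- points common to two circles are poles of the first plane -/
theorem meet_pole' {p : Y} {w w' : VP} {e : Letter} {L : List Letter}
    (hL : ((w:Pl)⁻¹ * w').val = e :: L) {x y : Bdry σ p} (hxy : x ≠ y)
    (hx : x ∈ range (circ R h p w)) (hy : y ∈ range (circ R h p w))
    (hx' : x ∈ range (circ R h p w')) (hy' : y ∈ range (circ R h p w')) :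
    ∃ (s : ℝ) (hs : s = 1 ∨ s = -1) (hs' : -s = 1 ∨ -s = -1),
    x = bp R h p w (pd e.1 s) (pd_unit _ e.1 hs) ∧
      y = bp R h p w (pd e.1 (-s)) (pd_unit _ e.1 hs') := by
  obtain ⟨v, hv, hxv⟩ := circ_asym R h hx
  obtain ⟨u, hu, hyu⟩ := circ_asym R h hy
  obtain ⟨v', _, hxv'⟩ := circ_asym R h hx'
  obtain ⟨u', _, hyu'⟩ := circ_asym R h hy'
  obtain ⟨s, hs, rfl⟩ := Asym.meet R h hL hv hxv hxv'
  obtain ⟨s', hs', rfl⟩ := Asym.meet R h hL hu hyu hyu'
  have hne' : s ≠ s' := by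
    rintro rfl
    exact hxy (Asym.unique R h hxv hyu)
  have : s' = -s := by
    rcases hs with rfl | rfl <;> rcases hs' with rfl | rfl
    · exact absurd rfl hne'
    · rfl
    · norm_num
    · exact absurd rfl hne'
  subst this
  exact ⟨s, hs, hs', bp_of_asym R h hxv, bp_of_asym R h hyu⟩

/-- points common to two circles -/
theorem meet_pole {p : Y} {w w' : VP} (hne : w ≠ w') {x y : Bdry σ p} (hxy : x ≠ y)
    (hx : x ∈ range (circ R h p w)) (hy : y ∈ range (circ R h p w))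
    (hx' : x ∈ range (circ R h p w')) (hy' : y ∈ range (circ R h p w')) :
    PolePair R h p x y := by
  rcases hL : ((w:Pl)⁻¹ * w').val with _ | ⟨e, L⟩
  · exfalso
    have : (w:Pl)⁻¹ * w' = 1 := W.ext hL
    exact hne (Subtype.ext (inv_mul_eq_one.1 this))
  · obtain ⟨s, hs, hs', h1, h2⟩ := meet_pole' R h hL hxy hx hy hx' hy'
    exact ⟨w, e.1, s, hs, hs', h1, h2⟩

/-- some pole of a given type avoids `{x, y}` -/
theorem exists_pole {p : Y} {x y : Bdry σ p} (hnp : ¬ PolePair R h p x y) (w : VP) (b : Bool) :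
    ∃ (s : ℝ) (hs : s = 1 ∨ s = -1),
      bp R h p w (pd b s) (pd_unit _ b hs) ∈ ({x, y} : Set _)ᶜ := by
  by_contra hcon
  push Not at hcon
  have hs1 : (1:ℝ) = 1 ∨ (1:ℝ) = -1 := Or.inl rfl
  have hs2 : (-1:ℝ) = 1 ∨ (-1:ℝ) = -1 := Or.inr rfl
  have h1 := hcon 1 hs1
  have h2 := hcon (-1) hs2
  rw [mem_compl_iff, not_not, mem_insert_iff, mem_singleton_iff] at h1 h2
  have hne : bp R h p w (pd b 1) (pd_unit _ b hs1) ≠ bp R h p w (pd b (-1)) (pd_unit _ b hs2) := by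
    intro he
    have := pd_inj (bp_inj R h he)
    norm_num at this
  have e1 : -(-1:ℝ) = 1 := by norm_num
  rcases h1 with h1 | h1 <;> rcases h2 with h2 | h2
  · exact hne (h1.trans h2.symm)
  · exact hnp ⟨w, b, 1, hs1, hs2, h1.symm, h2.symm⟩
  · refine hnp ⟨w, b, -1, hs2, neg_sgn hs2, h2.symm, ?_⟩
    rw [← h1]
    congr 1
    rw [e1]
  · exact hne (h1.trans h2.symm)

/-- removing a pair of points which is not a pole pair from another circle -/
theorem circ_diff_pre {p : Y} {w : VP} {x y : Bdry σ p}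
    (hn : ¬ (x ∈ range (circ R h p w) ∧ y ∈ range (circ R h p w))) :
    IsPreconnected (range (circ R h p w) \ {x, y}) := by
  rcases not_and_or.1 hn with h1 | h1
  · have : range (circ R h p w) \ {x, y} = range (circ R h p w) \ {y} := by
      ext z
      simp only [mem_diff, mem_insert_iff, mem_singleton_iff, not_or]
      exact ⟨fun h2 => ⟨h2.1, h2.2.2⟩, fun h2 => ⟨h2.1, fun h3 => h1 (h3 ▸ h2.1), h2.2⟩⟩
    rw [this]
    exact circle_minus_one (circ_continuous R h p w) (circ_eq_iff R h p w) y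
  · have : range (circ R h p w) \ {x, y} = range (circ R h p w) \ {x} := by
      ext z
      simp only [mem_diff, mem_insert_iff, mem_singleton_iff, not_or]
      exact ⟨fun h2 => ⟨h2.1, h2.2.1⟩, fun h2 => ⟨h2.1, h2.2, fun h3 => h1 (h3 ▸ h2.1)⟩⟩
    rw [this]
    exact circle_minus_one (circ_continuous R h p w) (circ_eq_iff R h p w) x

/-- the main connectivity statement -/
theorem four_pieces {p : Y} {x y : Bdry σ p} (hxy : x ≠ y) (hnp : ¬ PolePair R h p x y) :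
    ∃ P : Fin 4 → Set (Bdry σ p), (∀ k, IsPreconnected (P k)) ∧
      (∀ k, P k ⊆ ({x, y} : Set _)ᶜ) ∧
      ∀ (w : VP), range (circ R h p w) \ {x, y} ⊆ ⋃ k, P k := by
  classical
  obtain ⟨w₁, hw₁⟩ : ∃ w₁ : VP, ∀ w : VP, w ≠ w₁ →
      ¬ (x ∈ range (circ R h p w) ∧ y ∈ range (circ R h p w)) := by
    by_cases hex : ∃ w : VP, x ∈ range (circ R h p w) ∧ y ∈ range (circ R h p w)
    · obtain ⟨w₁, h1, h2⟩ := hex
      refine ⟨w₁, fun w hne hcon => hnp ?_⟩
      exact meet_pole R h hne hxy hcon.1 hcon.2 h1 h2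
    · exact ⟨⟨1, one_mem_VP⟩, fun w _ hcon => hex ⟨w, hcon⟩⟩
  have hpre : ∀ w : VP, w ≠ w₁ → IsPreconnected (range (circ R h p w) \ {x, y}) :=
    fun w hne => circ_diff_pre R h (hw₁ w hne)
  choose s hs hpole using fun b => exists_pole R h hnp w₁ b
  set uu : Bool → Bdry σ p := fun b => bp R h p w₁ (pd b (s b)) (pd_unit _ b (hs b)) with huu
  set K : Bool → Set (Bdry σ p) := fun b => connectedComponentIn ({x, y} : Set _)ᶜ (uu b)
    with hK
  have claim : ∀ (L : List Letter) (e : Letter) (w : VP), ((w₁:Pl)⁻¹ * w).val = e :: L →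
      range (circ R h p w) \ {x, y} ⊆ K e.1 := by
    intro L
    induction L using List.reverseRecOn with
    | nil =>
      intro e w hL
      have h1 : (w₁:Pl)⁻¹ * w = W.of e := W.ext hL
      have h2 : (w:Pl) = w₁ * W.of e := by rw [← h1]; group
      have hne : w ≠ w₁ := by
        rintro rfl
        rw [inv_mul_cancel] at hL
        cases hL
      apply (hpre w hne).subset_connectedComponentIn
      · refine ⟨?_, hpole e.1⟩
        rw [huu]
        simp only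
        rw [bp_next R h p h2 (hs e.1)]
        exact bp_mem_circ R h _ _ _ _
      · exact fun z hz => hz.2
    | append_singleton L e' ih =>
      intro e w hL
      have hL' : ((w₁:Pl)⁻¹ * w).val = (e :: L) ++ [e'] := by rw [hL]; rfl
      obtain ⟨u, hu, hue⟩ := W.eq_mul_of hL'
      have hrev : ((w:Pl)⁻¹ * w₁).val = e' :: (e :: L).reverse := by
        rw [word_rev, hL']
        simp
      have hV : (w:Pl) * W.of e' ∈ VP := VP_convex w.2 w₁.2 hrev
      set w' : VP := ⟨(w:Pl) * W.of e', hV⟩ with hw'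
      have hw'u : ((w₁:Pl)⁻¹ * w').val = e :: L := by
        show ((w₁:Pl)⁻¹ * ((w:Pl) * W.of e')).val = e :: L
        rw [← mul_assoc, hue, W.mul_of_mul_of]
        exact hu
      have hww' : (w:Pl) = w' * W.of e' := (W.mul_of_mul_of _ _).symm
      have hne : w ≠ w₁ := by
        rintro rfl
        rw [inv_mul_cancel] at hL
        cases hL
      obtain ⟨s', hs', hp'⟩ := exists_pole R h hnp w' e'.1
      have h1 := ih e w' hw'u ⟨bp_mem_circ R h _ _ _ _, hp'⟩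
      have h2 : K e.1 = connectedComponentIn ({x, y} : Set _)ᶜ
          (bp R h p w' (pd e'.1 s') (pd_unit _ e'.1 hs')) := connectedComponentIn_eq h1
      rw [h2]
      apply (hpre w hne).subset_connectedComponentIn
      · refine ⟨?_, hp'⟩
        rw [bp_next R h p hww' hs']
        exact bp_mem_circ R h _ _ _ _
      · exact fun z hz => hz.2
  obtain ⟨I, J, hI, hJ, hIJ⟩ :=
    circle_minus_two (circ_continuous R h p w₁) (circ_eq_iff R h p w₁) x y
  refine ⟨![I, J, K false, K true], ?_, ?_, ?_⟩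
  · intro k
    fin_cases k
    · exact hI
    · exact hJ
    · exact isPreconnected_connectedComponentIn
    · exact isPreconnected_connectedComponentIn
  · intro k
    fin_cases k
    · intro z hz
      have : z ∈ range (circ R h p w₁) \ {x, y} := by rw [hIJ]; exact Or.inl hz
      exact this.2
    · intro z hz
      have : z ∈ range (circ R h p w₁) \ {x, y} := by rw [hIJ]; exact Or.inr hz
      exact this.2
    · exact connectedComponentIn_subset _ _
    · exact connectedComponentIn_subset _ _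
  · intro w z hz
    rcases hL : ((w₁:Pl)⁻¹ * w).val with _ | ⟨e, L⟩
    · have h1 : (w₁:Pl)⁻¹ * w = 1 := W.ext hL
      have h2 : w₁ = w := Subtype.ext (inv_mul_eq_one.1 h1)
      subst h2
      rw [hIJ] at hz
      rcases hz with hz | hz
      · exact mem_iUnion.2 ⟨0, hz⟩
      · exact mem_iUnion.2 ⟨1, hz⟩
    · have h1 := claim L e w hL hz
      cases he : e.1
      · rw [he] at h1
        exact mem_iUnion.2 ⟨2, h1⟩
      · rw [he] at h1
        exact mem_iUnion.2 ⟨3, h1⟩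

/-! ### Density -/

omit [CompleteSpace Y] in
/-- a ray spends some time interval in a plane -/
theorem exists_interval {p : Y} {c : ℝ → Y} (hc : RRay σ p c) {T : ℝ} (hT : 0 ≤ T) :
    ∃ (w : VP) (a b : ℝ), T < a ∧ a < b ∧ ∀ t ∈ Icc a b, c t ∈ flatM R w := by
  have hcont : Continuous fun t : ℝ => c (T + |t|) := by
    apply LipschitzWith.continuous (K := 1)
    apply LipschitzWith.of_dist_le_mul
    intro x y
    have hx := abs_nonneg x
    have hy := abs_nonneg y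
    rw [hc.iso _ _ (by linarith) (by linarith), NNReal.coe_one, one_mul, Real.dist_eq,
      add_sub_add_left_eq_sub]
    exact abs_abs_sub_abs_le_abs_sub x y
  have hcl : ∀ w : VP, IsClosed ((fun t : ℝ => c (T + |t|)) ⁻¹' flatM R w) :=
    fun w => (flatM_closed R w).preimage hcont
  have hun : ⋃ w : VP, (fun t : ℝ => c (T + |t|)) ⁻¹' flatM R w = univ := by
    apply eq_univ_of_forall
    intro t
    obtain ⟨w, hw⟩ := mem_some_flatM R (c (T + |t|))
    exact mem_iUnion.2 ⟨w, hw⟩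
  have : Nonempty VP := ⟨⟨1, one_mem_VP⟩⟩
  obtain ⟨w, t₀, ht₀⟩ := nonempty_interior_of_iUnion_of_closed hcl hun
  obtain ⟨δ, hδ, hball⟩ := Metric.isOpen_iff.1 isOpen_interior t₀ ht₀
  have hin : ∀ t : ℝ, |t - t₀| < δ → c (T + |t|) ∈ flatM R w := by
    intro t ht
    have hb : t ∈ Metric.ball t₀ δ := by rw [Metric.mem_ball, Real.dist_eq]; exact ht
    have h2 : t ∈ (fun t : ℝ => c (T + |t|)) ⁻¹' flatM R w := interior_subset (hball hb)
    exact h2
  refine ⟨w, T + |t₀| + δ / 4, T + |t₀| + δ / 2, by linarith [abs_nonneg t₀], by linarith, ?_⟩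
  intro t ht
  have h0 := abs_nonneg t₀
  set u := t - T with hu
  have hu1 : |t₀| + δ / 4 ≤ u := by linarith [ht.1]
  have hu2 : u ≤ |t₀| + δ / 2 := by linarith [ht.2]
  rcases le_total 0 t₀ with h1 | h1
  · have := hin u (by
      rw [abs_of_nonneg h1] at hu1 hu2
      rw [abs_of_nonneg (by linarith)]; linarith)
    rw [abs_of_nonneg (by linarith : 0 ≤ u)] at this
    rwa [show T + u = t by rw [hu]; ring] at this
  · have := hin (-u) (by
      rw [abs_of_nonpos h1] at hu1 hu2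
      rw [abs_of_nonpos (by linarith)]; linarith)
    rw [abs_neg, abs_of_nonneg (by linarith : 0 ≤ u)] at this
    rwa [show T + u = t by rw [hu]; ring] at this

/-- the union of the boundary circles is dense -/
theorem circ_dense {p : Y} {U : Set (Bdry σ p)} (hU : IsOpen U) (hne : U.Nonempty) :
    ∃ w : VP, (range (circ R h p w) ∩ U).Nonempty := by
  obtain ⟨r, hr⟩ := hne
  obtain ⟨T, hT, ε, hε, hy⟩ := (Bdry.mem_nhds_iff h r U).1 (hU.mem_nhds hr)
  obtain ⟨w, a, b, hTa, hab, hflat⟩ := exists_interval R r.rray hT.le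
  obtain ⟨za, hza⟩ := hflat a ⟨le_rfl, hab.le⟩
  obtain ⟨zb, hzb⟩ := hflat b ⟨hab.le, le_rfl⟩
  simp only at hza hzb
  have hba : 0 < b - a := by linarith
  set v : ℝ × ℝ := ((zb.1 - za.1) / (b - a), (zb.2 - za.2) / (b - a)) with hv
  have hd : 𝒢.N (𝒜.cls w.1) za zb = b - a := by
    rw [← R.dist_same w.1 w.2, hza, hzb, r.rray.iso a b (by linarith) (by linarith),
      abs_of_nonpos (by linarith)]
    ring
  have hrb : rho za v (b - a) = zb := by
    unfold rho
    rw [hv]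
    ext <;> simp only <;> field_simp <;> ring
  have hunit : 𝒢.U1 (𝒜.cls w.1) v := by
    show 𝒢.N (𝒜.cls w.1) v (0, 0) = 1
    have h1 := Geo.N_rho (𝒢 := 𝒢) (𝒜.cls w.1) za v v (b - a) 0
    have h2 : rho za v 0 = za := by unfold rho; simp
    rw [hrb, h2, 𝒢.N_comm, hd, sub_zero, abs_of_pos hba] at h1
    exact (mul_left_cancel₀ hba.ne' (by rw [mul_one]; exact h1.symm))
  have hrho : ∀ t ∈ Icc a b, r.c t = R.pt w.1 w.2 (rho za v (t - a)) := by
    intro t ht
    rw [r.rray.seg' h (by linarith) ht.1 ht.2, ← hza, ← hzb, seg_plane R h w _ _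
      (div_mem_Icc (by linarith [ht.1]) (by linarith [ht.2]))]
    congr 1
    unfold mix rho
    rw [hv]
    ext <;> simp only <;> field_simp <;> ring
  set c' : ℝ → Y := fun t => if t ≤ b then r.c t else R.pt w.1 w.2 (rho za v (t - a)) with hc'
  have hle : ∀ t, t ≤ b → c' t = r.c t := fun t ht => by rw [hc']; exact if_pos ht
  have hge : ∀ t, a ≤ t → c' t = R.pt w.1 w.2 (rho za v (t - a)) := by
    intro t ht
    rcases le_or_gt t b with h1 | h1
    · rw [hle t h1]; exact hrho t ⟨ht, h1⟩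
    · rw [hc']; exact if_neg (not_le.2 h1)
  have hray : RRay σ p c' := by
    apply r.rray.extend h (by linarith : 0 < a) hab
    · intro t _ ht
      exact hle t ht
    · intro T' hT' t ht
      rw [hge t ht.1, hge a le_rfl, hge T' (by linarith), seg_rho R h w za v _ _
        (div_mem_Icc (by linarith [ht.1]) (by linarith [ht.2]))]
      congr 2
      rw [sub_self, mul_zero, zero_add, div_mul_cancel₀ _ (by linarith)]
  have has : Asym R w v hray.toBdry := by
    apply Asym.of_large R (rho za v (-a)) (C := 0) (b := a)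
    · intro t hta ht
      rw [hray.toBdry_c ht, hge t hta]
      have : rho za v (t - a) = rho (rho za v (-a)) v t := by
        unfold rho
        ext <;> simp only <;> ring
      rw [this, dist_self]
    · exact hunit
  refine ⟨w, hray.toBdry, ?_, ?_⟩
  · rw [bp_of_asym R h (hv := hunit) has]
    exact bp_mem_circ R h _ _ _ _
  · apply hy
    rw [hray.toBdry_c hT.le, hle T (by linarith), dist_self]
    exact hε

/-- five-cut pairs are ends of lines -/
theorem five_cut_pole {p : Y} {x y : Bdry σ p} (hc : FiveCut x y) : PolePair R h p x y := by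
  by_contra hnp
  obtain ⟨hxy, U, h1, h2, h3, h4, h5⟩ := hc
  obtain ⟨P, hP1, hP2, hP3⟩ := four_pieces R h hxy hnp
  have key : ∀ i, ∃ k, P k ⊆ U i ∧ (P k ∩ U i).Nonempty := by
    intro i
    obtain ⟨w, z, hzw, hzU⟩ := circ_dense R h (h2 i) (h1 i)
    have hz : z ∈ range (circ R h p w) \ {x, y} := by
      refine ⟨hzw, ?_⟩
      rintro (hz | hz)
      · exact (h4 i).1 (hz ▸ hzU)
      · exact (h4 i).2 ((mem_singleton_iff.1 hz) ▸ hzU)
    obtain ⟨k, hk⟩ := mem_iUnion.1 (hP3 w hz)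
    refine ⟨k, ?_, z, hk, hzU⟩
    apply (hP1 k).subset_left_of_subset_union (h2 i) (h3 i).isOpen_compl
    · rw [Set.disjoint_left]
      intro t ht ht'
      exact ht' (Or.inl ht)
    · intro t ht
      by_cases htU : t ∈ U i
      · exact Or.inl htU
      · right
        rintro (h6 | h6)
        · exact htU h6
        · exact hP2 k ht h6
    · exact ⟨z, hk, hzU⟩
  choose k hk1 hk2 using key
  have hninj : ¬ Function.Injective k := by
    intro hinj
    have := Fintype.card_le_of_injective k hinj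
    simp at this
  apply hninj
  intro i j hij
  by_contra hne
  obtain ⟨z, hz, _⟩ := hk2 i
  have hz1 := hk1 i hz
  rw [hij] at hz
  have hz2 := hk1 j hz
  exact Set.disjoint_left.1 (h5 i j hne) hz1 hz2

end Run7.h484.K

end

section

/-! Boundaries of trees of planes with several kinds of planes: poles are five-cut pairs. -/

namespace Run7.h484.K

universe u

open Set Filter Topology

/-- available lines of a given type -/
theorem avail (w : VP) (b : Bool) : ∃ k₀ : ℤ, |(k₀:ℝ)| ≤ 1 ∧ ∀ i : ℤ,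
    w.1 * W.of (b, k₀ + 2 * i) ∈ VP := by
  have two_cast : ∀ n : ℤ, ((2 * n : ℤ) : ZMod 2) = 0 := by
    intro n
    push_cast
    have : (2 : ZMod 2) = 0 := rfl
    rw [this, zero_mul]
  obtain ⟨a, ha, h1, h2⟩ := exists_parity 0 (par (!b) w.1.val)
  have h3 : (-2:ℝ) < a := by linarith
  have h4 : (a:ℝ) ≤ 0 := by linarith
  have h5 : -2 < a := by exact_mod_cast h3
  have h6 : a ≤ 0 := by exact_mod_cast h4
  have h7 : (-1:ℝ) ≤ a := by exact_mod_cast (by omega : -1 ≤ a)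
  refine ⟨a, by rw [abs_le]; constructor <;> linarith, fun i => ?_⟩
  rw [mem_VP_mul_of w.2]
  have h8 := two_cast i
  have h9 : ((a + 2 * i : ℤ) : ZMod 2) = par (!b) w.1.val := by
    rw [Int.cast_add, h8, add_zero, ha]
  unfold Av
  cases b
  · exact h9
  · exact h9

variable {𝒜 : Auto} {𝒢 : Geo 𝒜} {Y : Type u} [MetricSpace Y] (R : Rz 𝒢 Y) {σ : Y → Y → ℝ → Y}
  (h : IsBicombing σ)

/-- the points of the line `e` of the plane `w` -/
def lin (w : VP) (e : Letter) (t : ℝ) : Y := R.pt w.1 w.2 (mkp e.1 t e.2)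

include h in
theorem lin_sep (w : VP) (e : Letter) (hV : w.1 * W.of e ∈ VP) :
    LineSep σ (lin R w e) (R.A w.1 e) (R.B w.1 e) := by
  apply LineSep.mk'
  · intro s t
    show dist (R.pt w.1 w.2 _) (R.pt w.1 w.2 _) = _
    rw [R.dist_same, 𝒢.N_line _ (Geo.mem_mkp e s) (Geo.mem_mkp e t), alc_mkp, alc_mkp]
  · intro a b t ht
    show σ (R.pt w.1 w.2 _) (R.pt w.1 w.2 _) t = R.pt w.1 w.2 _
    rw [seg_plane R h w _ _ ht]
    congr 1
    unfold mix mkp
    cases e.1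
    · simp only [Bool.false_eq_true, if_false]
      ext
      · rfl
      · simp only; ring
    · simp only [if_true]
      ext
      · simp only; ring
      · rfl
  · exact R.union_AB _ _
  · rintro _ ⟨t, rfl⟩
    exact R.pt_self_mem_A _ _
  · rintro _ ⟨t, rfl⟩
    unfold lin
    rw [R.glue w.1 w.2 e hV (Geo.mem_mkp e t)]
    exact R.pt_next_mem_B _ _
  · intro x hx y hy
    obtain ⟨q, hq, hd⟩ := R.cross_AB w.2 hx hy
    refine ⟨alc e.1 q, ?_⟩
    have e1 : lin R w e (alc e.1 q) = R.pt w.1 w.2 q := by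
      unfold lin
      congr 1
      have hq' : pec e.1 q = e.2 := hq
      rw [← hq', mkp_eta]
    rw [e1]
    exact hd

variable [CompleteSpace Y]

theorem five_cut_base (w : VP) (b : Bool) :
    FiveCut (bp R h (R.pt w.1 w.2 (0, 0)) w (pd b 1) (pd_unit _ b (Or.inl rfl)))
      (bp R h (R.pt w.1 w.2 (0, 0)) w (pd b (-1)) (pd_unit _ b (Or.inr rfl))) := by
  set p := R.pt w.1 w.2 (0, 0) with hp
  have hs1 : (1:ℝ) = 1 ∨ (1:ℝ) = -1 := Or.inl rfl
  have hs2 : (-1:ℝ) = 1 ∨ (-1:ℝ) = -1 := Or.inr rfl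
  set x := bp R h p w (pd b 1) (pd_unit _ b hs1) with hx
  set y := bp R h p w (pd b (-1)) (pd_unit _ b hs2) with hy
  obtain ⟨k₀, hk₀, hav⟩ := avail w b
  have hxc : ∀ t, 0 ≤ t → x.c t = R.pt w.1 w.2 (rho (0, 0) (pd b 1) t) := by
    intro t ht
    have h1 := plane_ray R h w (0, 0) (pd_unit (𝒢 := 𝒢) (𝒜.cls w.1) b hs1)
    have h2 : x = h1.toBdry := by
      symm
      apply bp_of_asym R h
      refine ⟨0, fun t ht => ?_⟩
      rw [h1.toBdry_c ht, dist_self]
    rw [h2, h1.toBdry_c ht]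
  have hyc : ∀ t, 0 ≤ t → y.c t = R.pt w.1 w.2 (rho (0, 0) (pd b (-1)) t) := by
    intro t ht
    have h1 := plane_ray R h w (0, 0) (pd_unit (𝒢 := 𝒢) (𝒜.cls w.1) b hs2)
    have h2 : y = h1.toBdry := by
      symm
      apply bp_of_asym R h
      refine ⟨0, fun t ht => ?_⟩
      rw [h1.toBdry_c ht, dist_self]
    rw [h2, h1.toBdry_c ht]
  set el : Fin 5 → Letter := fun i => (b, k₀ + 2 * ((i : ℕ) : ℤ)) with hel
  have helinj : ∀ i j, el i = el j → i = j := by
    intro i j hij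
    have := congrArg Prod.snd hij
    simp only [hel] at this
    apply Fin.ext
    omega
  have hcf : ∀ i s t, 𝒢.N (𝒜.cls w.1) (rho (0, 0) (pd b s) t) (mkp b (s * t) (el i).2) ≤
      9 := by
    intro i s t
    refine (𝒢.hi _ _ _).trans ?_
    have e1 : rho (0, 0) (pd b s) t = mkp b (s * t) 0 := by
      unfold rho pd mkp
      cases b
      · simp only [Bool.false_eq_true, if_false]
        ext <;> simp only <;> ring
      · simp only [if_true]
        ext <;> simp only <;> ring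
    rw [e1, N1_eq b, alc_mkp, alc_mkp, pec_mkp, pec_mkp, sub_self, abs_zero, zero_add, zero_sub,
      abs_neg]
    simp only [hel]
    push_cast
    have h1 : ((i : ℕ) : ℝ) ≤ 4 := by
      have := i.2
      have : (i : ℕ) ≤ 4 := by omega
      exact_mod_cast this
    have h2 : (0:ℝ) ≤ ((i : ℕ) : ℝ) := Nat.cast_nonneg _
    rw [abs_le] at hk₀ ⊢
    constructor <;> linarith [hk₀.1, hk₀.2]
  have hmain := fun i => (lin_sep R h w (el i) (hav _)).main h (p := p)
    (R.pt_self_mem_A w.2 (0, 0)) (K := 9) x y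
    (fun t ht => by
      rw [hxc t ht]
      show dist (R.pt w.1 w.2 _) (R.pt w.1 w.2 _) ≤ 9
      rw [R.dist_same]
      have := hcf i 1 t
      rwa [one_mul] at this)
    (fun t ht => by
      rw [hyc t ht]
      show dist (R.pt w.1 w.2 _) (R.pt w.1 w.2 _) ≤ 9
      rw [R.dist_same]
      have := hcf i (-1) t
      rwa [neg_one_mul] at this)
  refine ⟨?_, fun i => {r | ∃ t, 0 ≤ t ∧ r.c t ∉ R.A w.1 (el i)}, ?_, fun i => (hmain i).1,
    fun i => (hmain i).2.1, fun i => (hmain i).2.2, ?_⟩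
  · intro he
    have := pd_inj (bp_inj R h he)
    norm_num at this
  · intro i
    set w' : VP := ⟨w.1 * W.of (el i), hav _⟩ with hw'
    have hunit : 𝒢.U1 (𝒜.cls w'.1) (pd (!b) 1) := pd_unit _ _ hs1
    have hr := plane_ray R h w' (mkp b 0 (el i).2) hunit
    set K := dist (R.pt w'.1 w'.2 (mkp b 0 (el i).2)) p with hK
    have hK0 : 0 ≤ K := dist_nonneg
    refine ⟨moveC h p hr.toBdry, 2 * K + 1, by linarith, fun hcon => ?_⟩
    have h1 := moveC_dist h p hr.toBdry (t := 2 * K + 1) (by linarith)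
    rw [hr.toBdry_c (by linarith : 0 ≤ 2 * K + 1)] at h1
    obtain ⟨q, hq, hd⟩ := R.cross_AB w.2 hcon (R.pt_next_mem_B w'.2
      (rho (mkp b 0 (el i).2) (pd (!b) 1) (2 * K + 1)))
    have hq' : pec b q = (el i).2 := hq
    have h2 := R.lo_pt b w.1 w'.1 w.2 w'.2 q (rho (mkp b 0 (el i).2) (pd (!b) 1) (2 * K + 1))
    have h3 : dist ((moveC h p hr.toBdry).c (2 * K + 1)) (R.pt w'.1 w'.2
      (rho (mkp b 0 (el i).2) (pd (!b) 1) (2 * K + 1))) ≤ K := h1
    rw [hd] at h3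
    have h4 := dist_nonneg (x := (moveC h p hr.toBdry).c (2 * K + 1)) (y := R.pt w.1 w.2 q)
    have h5 : pec b (pd (!b) 1) = 1 := by
      unfold pd
      rw [← alc_not, alc_mkp]
    rw [Geo.pec_rho, pec_mkp, h5, hq', mul_one, abs_sub_comm, add_sub_cancel_left,
      abs_of_nonneg (by linarith)] at h2
    have h6 : dist (R.pt w.1 w.2 q) (R.pt w'.1 w'.2
      (rho (mkp b 0 (el i).2) (pd (!b) 1) (2 * K + 1))) ≤ K := by
      have : dist (R.pt w.1 w.2 q) (R.pt (w.1 * W.of (el i)) w'.2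
        (rho (mkp b 0 (el i).2) (pd (!b) 1) (2 * K + 1))) ≤ K := by linarith
      exact this
    linarith
  · intro i j hij
    rw [Set.disjoint_left]
    rintro r ⟨t, ht, hr⟩ ⟨t', ht', hr'⟩
    obtain ⟨s, _, _, _, hB⟩ := (lin_sep R h w (el i) (hav _)).enter h
      (R.pt_self_mem_A w.2 (0, 0)) r.rray ht hr
    obtain ⟨s', _, _, _, hB'⟩ := (lin_sep R h w (el j) (hav _)).enter h
      (R.pt_self_mem_A w.2 (0, 0)) r.rray ht' hr'
    have h1 := hB (max s s') (le_max_left _ _)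
    have h2 := hB' (max s s') (le_max_right _ _)
    set z := r.c (max s s')
    have key : ∀ i j : Fin 5, i ≠ j → z ∈ R.B w.1 (el i) → z ∈ R.A w.1 (el j) := by
      rintro i j hij ⟨ξ, hξ, hb⟩
      refine ⟨ξ, hξ, ?_⟩
      rcases Pt.before_or_beyond w.1 (el j) ξ.1 with hc | hc
      · exact hc
      · exfalso
        unfold Pt.Beyond at hb hc
        rw [hb] at hc
        have := List.append_inj_right' hc rfl
        rw [List.cons.injEq] at this
        exact hij (helinj i j this.1)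
    have h3 : z ∈ range (lin R w (el i)) := by
      rw [← (lin_sep R h w (el i) (hav _)).inter]
      exact ⟨key j i hij.symm h2, h1⟩
    have h4 : z ∈ range (lin R w (el j)) := by
      rw [← (lin_sep R h w (el j) (hav _)).inter]
      exact ⟨key i j hij h1, h2⟩
    obtain ⟨a, ha⟩ := h3
    obtain ⟨c, hc⟩ := h4
    have h5 : R.pt w.1 w.2 (mkp b a (el i).2) = R.pt w.1 w.2 (mkp b c (el j).2) :=
      ha.trans hc.symm
    have h6 := congrArg (pec b) (R.pt_inj h5)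
    rw [pec_mkp, pec_mkp] at h6
    apply hij
    apply helinj
    have h7 : (el i).2 = (el j).2 := by exact_mod_cast h6
    exact Prod.ext rfl h7

theorem FiveCut.symm {Z : Type u} [TopologicalSpace Z] {x y : Z} (hc : FiveCut x y) :
    FiveCut y x := by
  obtain ⟨hne, U, h1, h2, h3, h4, h5⟩ := hc
  refine ⟨hne.symm, U, h1, h2, fun i => ?_, fun i => ⟨(h4 i).2, (h4 i).1⟩, h5⟩
  rw [pair_comm]; exact h3 i

/-- poles are five-cut pairs -/
theorem five_cut_bp (p : Y) (w : VP) (b : Bool) {s : ℝ} (hs : s = 1 ∨ s = -1)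
    (hs' : -s = 1 ∨ -s = -1) :
    FiveCut (bp R h p w (pd b s) (pd_unit _ b hs)) (bp R h p w (pd b (-s)) (pd_unit _ b hs')) := by
  have h1 := (five_cut_base R h w b).map (moveHomeo h (R.pt w.1 w.2 (0, 0)) p)
  rw [move_bp, move_bp] at h1
  rcases hs with rfl | rfl
  · exact h1
  · have := FiveCut.symm h1
    convert this using 2
    norm_num

end Run7.h484.K

end
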