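import Pool.Agent.Run7.h484.Bdry

/-! Topological invariants defined by cut pairs. -/

namespace Run7.h484.K

universe u

open Set Filter Topology

section

variable {Z : Type u} [TopologicalSpace Z] {Z' : Type u} [TopologicalSpace Z']

/-- the pair `{d, d'}` separates `{x, y}` from `{x', y'}` -/
def Betw (d d' x y x' y' : Z) : Prop :=
  FiveCut d d' ∧ ∃ U V : Set Z, IsOpen U ∧ IsOpen V ∧ Disjoint U V ∧ U ∪ V = {d, d'}ᶜ ∧
    x ∈ U ∧ y ∈ U ∧ x' ∈ V ∧ y' ∈ V

/-- two different five-cut pairs which are not separated by a five-cut pair -/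
def Linked (x y x' y' : Z) : Prop :=
  FiveCut x y ∧ FiveCut x' y' ∧ ({x, y} : Set Z) ≠ {x', y'} ∧ ∀ d d', ¬ Betw d d' x y x' y'

/-- the pairs linked to a given pair do not accumulate off the diagonal -/
def Nul (x y : Z) : Prop :=
  ∀ a b : Z, a ≠ b → ∃ A ∈ 𝓝 a, ∃ B ∈ 𝓝 b,
    {q : Z × Z | q.1 ∈ A ∧ q.2 ∈ B ∧ Linked x y q.1 q.2}.Finite

/-- five-cut pairs at link distance at most `m` from a pair without the null property -/
def Dm : ℕ → Z → Z → Prop
  | 0 => fun x y => FiveCut x y ∧ ¬ Nul x y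
  | m + 1 => fun x y => Dm m x y ∨ ∃ x' y', Linked x y x' y' ∧ Dm m x' y'

/-- the invariant -/
def Inv (r : ℕ) (Z : Type u) [TopologicalSpace Z] : Prop :=
  ∀ x y : Z, FiveCut x y → Dm r x y

theorem Betw.map (e : Z ≃ₜ Z') {d d' x y x' y' : Z} (hb : Betw d d' x y x' y') :
    Betw (e d) (e d') (e x) (e y) (e x') (e y') := by
  obtain ⟨h1, U, V, hU, hV, hUV, hun, hx, hy, hx', hy'⟩ := hb
  refine ⟨h1.map e, e '' U, e '' V, e.isOpen_image.2 hU, e.isOpen_image.2 hV,
    (disjoint_image_iff e.injective).2 hUV, ?_, mem_image_of_mem _ hx, mem_image_of_mem _ hy,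
    mem_image_of_mem _ hx', mem_image_of_mem _ hy'⟩
  rw [← image_union, hun, image_compl_eq e.bijective, image_pair]

theorem Linked.map (e : Z ≃ₜ Z') {x y x' y' : Z} (hl : Linked x y x' y') :
    Linked (e x) (e y) (e x') (e y') := by
  obtain ⟨h1, h2, h3, h4⟩ := hl
  refine ⟨h1.map e, h2.map e, ?_, ?_⟩
  · rw [← image_pair, ← image_pair]
    intro he
    exact h3 (e.injective.image_injective he)
  · intro d d' hb
    have := hb.map e.symm
    simp only [Homeomorph.symm_apply_apply] at this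
    exact h4 _ _ this

theorem Linked.map_iff (e : Z ≃ₜ Z') {x y x' y' : Z} :
    Linked (e x) (e y) (e x') (e y') ↔ Linked x y x' y' := by
  constructor
  · intro hl
    have := hl.map e.symm
    simpa only [Homeomorph.symm_apply_apply] using this
  · exact fun hl => hl.map e

theorem Nul.map (e : Z ≃ₜ Z') {x y : Z} (hn : Nul x y) : Nul (e x) (e y) := by
  intro a b hab
  obtain ⟨A, hA, B, hB, hf⟩ := hn (e.symm a) (e.symm b) fun h => hab (e.symm.injective h)
  refine ⟨e.symm ⁻¹' A, e.symm.continuous.continuousAt.preimage_mem_nhds hA, e.symm ⁻¹' B,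
    e.symm.continuous.continuousAt.preimage_mem_nhds hB, ?_⟩
  apply (hf.image (Prod.map e e)).subset
  rintro ⟨u, v⟩ ⟨h1, h2, h3⟩
  refine ⟨(e.symm u, e.symm v), ⟨h1, h2, ?_⟩, ?_⟩
  · have := h3.map e.symm
    simpa only [Homeomorph.symm_apply_apply] using this
  · simp

theorem Nul.map_iff (e : Z ≃ₜ Z') {x y : Z} : Nul (e x) (e y) ↔ Nul x y := by
  constructor
  · intro hl
    have := hl.map e.symm
    simpa only [Homeomorph.symm_apply_apply] using this
  · exact fun hl => hl.map e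

theorem FiveCut.map_iff (e : Z ≃ₜ Z') {x y : Z} : FiveCut (e x) (e y) ↔ FiveCut x y := by
  constructor
  · intro hl
    have := hl.map e.symm
    simpa only [Homeomorph.symm_apply_apply] using this
  · exact fun hl => hl.map e

theorem Dm.map (e : Z ≃ₜ Z') (m : ℕ) : ∀ {x y : Z}, Dm m x y → Dm m (e x) (e y) := by
  induction m with
  | zero =>
    rintro x y ⟨h1, h2⟩
    exact ⟨(FiveCut.map_iff e).2 h1, fun h3 => h2 ((Nul.map_iff e).1 h3)⟩
  | succ m ih =>
    rintro x y (h1 | ⟨x', y', h1, h2⟩)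
    · exact Or.inl (ih h1)
    · exact Or.inr ⟨e x', e y', h1.map e, ih h2⟩

theorem Inv.map (e : Z ≃ₜ Z') {r : ℕ} (hI : Inv r Z) : Inv r Z' := by
  intro x y hxy
  have h1 := hxy.map e.symm
  have h2 := (hI _ _ h1).map e
  simpa only [Homeomorph.apply_symm_apply] using h2

end

end Run7.h484.K
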