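import Pool.Agent.Run7.h484.K.BA
import Pool.Agent.Run7.h484.K.Top

section

/-! Linked pairs of poles. -/

namespace Run7.h484.K

universe u

open Set Filter Topology

/-! ### Blocks -/

theorem mem_step {a e : Letter} {l : List Letter} (h : a ∈ step e l) : a = e ∨ a ∈ l := by
  cases l with
  | nil => exact Or.inl (List.mem_singleton.1 h)
  | cons c l =>
    by_cases he : e = c
    · simp only [step, he, if_true] at h
      exact Or.inr (List.mem_cons_of_mem _ h)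
    · simp only [step, he, if_false] at h
      exact List.mem_cons.1 h

theorem mem_wmul {a : Letter} {u v : List Letter} (h : a ∈ wmul u v) : a ∈ u ∨ a ∈ v := by
  induction u with
  | nil => exact Or.inr h
  | cons e u ih =>
    rw [wmul_cons] at h
    rcases mem_step h with h | h
    · exact Or.inl (by rw [h]; exact List.mem_cons_self ..)
    · rcases ih h with h | h
      · exact Or.inl (List.mem_cons_of_mem _ h)
      · exact Or.inr h

/-- two planes of the same block of type `b` -/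
def Blk (b : Bool) (w w' : VP) : Prop := ∀ e ∈ ((w:Pl)⁻¹ * w').val, e.1 = b

theorem Blk.refl (b : Bool) (w : VP) : Blk b w w := by
  intro e he
  rw [inv_mul_cancel] at he
  exact absurd he (List.not_mem_nil)

theorem Blk.trans {b : Bool} {w w' w'' : VP} (h : Blk b w w') (h' : Blk b w' w'') :
    Blk b w w'' := by
  intro e he
  have h1 : (w:Pl)⁻¹ * w'' = (w:Pl)⁻¹ * w' * ((w':Pl)⁻¹ * w'') := by group
  rw [h1, W.mul_val] at he
  rcases mem_wmul he with h2 | h2
  · exact h e h2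
  · exact h' e h2

theorem Blk.symm {b : Bool} {w w' : VP} (h : Blk b w w') : Blk b w' w := by
  intro e he
  rw [word_rev, List.mem_reverse] at he
  exact h e he

theorem Blk.step (w : VP) {e : Letter} (hV : w.1 * W.of e ∈ VP) :
    Blk e.1 w ⟨w.1 * W.of e, hV⟩ := by
  intro a ha
  simp only at ha
  rw [inv_mul_cancel_left] at ha
  rw [List.mem_singleton.1 ha]

/-- one step towards another plane -/
theorem word_step {w w' : VP} {e : Letter} {L : List Letter}
    (hL : ((w:Pl)⁻¹ * w').val = e :: L) :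
    ∃ hV : (w:Pl) * W.of e ∈ VP, (((w:Pl) * W.of e)⁻¹ * w').val = L := by
  refine ⟨VP_convex w.2 w'.2 hL, ?_⟩
  obtain ⟨y, hy, hye⟩ := W.eq_of_mul hL
  have : ((w:Pl) * W.of e)⁻¹ * w' = y := by
    rw [mul_inv_rev, W.of_inv, mul_assoc, hye, ← mul_assoc, W.of_mul_of, one_mul]
  rw [this, hy]

/-- one step backwards -/
theorem word_step' {w w' : VP} {f : Letter} {L : List Letter}
    (hL : ((w:Pl)⁻¹ * w').val = L ++ [f]) :
    ∃ hV : (w':Pl) * W.of f ∈ VP, ((w:Pl)⁻¹ * ((w':Pl) * W.of f)).val = L := by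
  have h1 : ((w':Pl)⁻¹ * w).val = f :: L.reverse := by rw [word_rev, hL]; simp
  obtain ⟨hV, h2⟩ := word_step h1
  refine ⟨hV, ?_⟩
  rw [word_rev, h2, List.reverse_reverse]

theorem act_blk (𝒜 : Auto) {b : Bool} {L : List Letter} (hL : ∀ e ∈ L, e.1 = b) (c : 𝒜.C) :
    𝒜.act c L = c ∨ 𝒜.act c L = 𝒜.nx b c := by
  induction L generalizing c with
  | nil => exact Or.inl rfl
  | cons e L ih =>
    have he : e.1 = b := hL e (List.mem_cons_self ..)
    rw [Auto.act_cons, he]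
    rcases ih (fun a ha => hL a (List.mem_cons_of_mem _ ha)) (𝒜.nx b c) with h | h
    · exact Or.inr h
    · left; rw [h, 𝒜.inv]

theorem Blk.cls (𝒜 : Auto) {b : Bool} {w w' : VP} (h : Blk b w w') :
    𝒜.cls w' = 𝒜.cls w ∨ 𝒜.cls w' = 𝒜.nx b (𝒜.cls w) := by
  rw [← 𝒜.act_rel w.1 w'.1]
  exact act_blk 𝒜 h _

theorem strip (b b' : Bool) : ∀ (n : ℕ) (w w' : VP), ((w:Pl)⁻¹ * w').val.length ≤ n →
    ∃ w₁ w₂ : VP, Blk b w w₁ ∧ Blk b' w' w₂ ∧ (w₁ = w₂ ∨ ∃ e L f L',
      ((w₁:Pl)⁻¹ * w₂).val = e :: L ∧ ((w₁:Pl)⁻¹ * w₂).val = L' ++ [f] ∧ e.1 ≠ b ∧ f.1 ≠ b') := by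
  intro n
  induction n with
  | zero =>
    intro w w' hn
    refine ⟨w, w', Blk.refl _ _, Blk.refl _ _, Or.inl ?_⟩
    have h1 := List.length_eq_zero_iff.1 (Nat.le_zero.1 hn)
    have : (w:Pl)⁻¹ * w' = 1 := W.ext h1
    exact Subtype.ext (inv_mul_eq_one.1 this)
  | succ n ih =>
    intro w w' hn
    rcases hL : ((w:Pl)⁻¹ * w').val with _ | ⟨e, L⟩
    · refine ⟨w, w', Blk.refl _ _, Blk.refl _ _, Or.inl ?_⟩
      have : (w:Pl)⁻¹ * w' = 1 := W.ext hL
      exact Subtype.ext (inv_mul_eq_one.1 this)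
    · by_cases he : e.1 = b
      · obtain ⟨hV, hstep⟩ := word_step hL
        obtain ⟨w₁, w₂, h1, h2, h3⟩ := ih ⟨_, hV⟩ w' (by
          rw [hL, List.length_cons] at hn
          show (((w:Pl) * W.of e)⁻¹ * w').val.length ≤ n
          rw [hstep]; omega)
        refine ⟨w₁, w₂, ?_, h2, h3⟩
        have := Blk.step w hV
        rw [he] at this
        exact this.trans h1
      · obtain ⟨L', f, hf⟩ : ∃ L' f, e :: L = L' ++ [f] :=
          ⟨(e :: L).dropLast, (e :: L).getLast (by simp), (List.dropLast_append_getLast _).symm⟩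
        by_cases hfb : f.1 = b'
        · obtain ⟨hV, hstep⟩ := word_step' (hL.trans hf)
          obtain ⟨w₁, w₂, h1, h2, h3⟩ := ih w ⟨_, hV⟩ (by
            have h4 := congrArg List.length (hL.trans hf)
            rw [List.length_append, List.length_singleton] at h4
            show ((w:Pl)⁻¹ * ((w':Pl) * W.of f)).val.length ≤ n
            rw [hstep]; omega)
          refine ⟨w₁, w₂, h1, ?_, h3⟩
          have := Blk.step w' hV
          rw [hfb] at this
          exact this.trans h2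
        · exact ⟨w, w', Blk.refl _ _, Blk.refl _ _, Or.inr ⟨e, L, f, L', hL, hL.trans hf, he, hfb⟩⟩

/-! ### Poles -/

section

variable {𝒜 : Auto} {𝒢 : Geo 𝒜} {Y : Type u} [MetricSpace Y] (R : Rz 𝒢 Y) {σ : Y → Y → ℝ → Y}
  (h : IsBicombing σ)

/-- `x`, `y` are the two ends of the lines of type `b` of the plane `w` -/
def IsPoles {p : Y} (w : VP) (b : Bool) (x y : Bdry σ p) : Prop :=
  ∃ s : ℝ, (s = 1 ∨ s = -1) ∧ Asym R w (pd b s) x ∧ Asym R w (pd b (-s)) y

theorem IsPoles.ne {p : Y} {w : VP} {b : Bool} {x y : Bdry σ p} (hp : IsPoles R w b x y) :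
    x ≠ y := by
  obtain ⟨s, hs, hx, hy⟩ := hp
  rintro rfl
  have := pd_inj (Asym.dir_eq R hx hy)
  rcases hs with rfl | rfl <;> norm_num at this

theorem IsPoles.symm {p : Y} {w : VP} {b : Bool} {x y : Bdry σ p} (hp : IsPoles R w b x y) :
    IsPoles R w b y x := by
  obtain ⟨s, hs, hx, hy⟩ := hp
  exact ⟨-s, neg_sgn hs, hy, by rw [neg_neg]; exact hx⟩

theorem IsPoles.step {p : Y} {w w' : VP} {e : Letter} (hw : w'.1 = w.1 * W.of e)
    {x y : Bdry σ p} (hp : IsPoles R w e.1 x y) : IsPoles R w' e.1 x y := by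
  obtain ⟨s, hs, hx, hy⟩ := hp
  exact ⟨s, hs, hx.next R hw hs, hy.next R hw (neg_sgn hs)⟩

theorem IsPoles.blk {p : Y} {w w' : VP} {b : Bool} (hw : Blk b w w')
    {x y : Bdry σ p} (hp : IsPoles R w b x y) : IsPoles R w' b x y := by
  obtain ⟨L, hL⟩ : ∃ L, ((w:Pl)⁻¹ * w').val = L := ⟨_, rfl⟩
  induction L generalizing w with
  | nil =>
    have : (w:Pl)⁻¹ * w' = 1 := W.ext hL
    rw [← Subtype.ext (inv_mul_eq_one.1 this)]
    exact hp
  | cons e L ih =>
    have he : e.1 = b := hw e (by rw [hL]; exact List.mem_cons_self ..)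
    obtain ⟨hV, hstep⟩ := word_step hL
    subst he
    apply ih (w := ⟨_, hV⟩) _ _ hstep
    · exact (Blk.step w hV).symm.trans hw
    · exact hp.step R rfl

theorem IsPoles.asym_of_mem {p : Y} {w : VP} {b : Bool} {x y z : Bdry σ p}
    (hp : IsPoles R w b x y) (hz : z ∈ ({x, y} : Set (Bdry σ p))) :
    ∃ s : ℝ, (s = 1 ∨ s = -1) ∧ Asym R w (pd b s) z := by
  obtain ⟨s, hs, hx, hy⟩ := hp
  rcases hz with rfl | hz
  · exact ⟨s, hs, hx⟩
  · rw [mem_singleton_iff.1 hz]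
    exact ⟨-s, neg_sgn hs, hy⟩

include h in
theorem IsPoles.mem_of_asym {p : Y} {w : VP} {b : Bool} {x y z : Bdry σ p}
    (hp : IsPoles R w b x y) {s' : ℝ} (hs' : s' = 1 ∨ s' = -1) (hz : Asym R w (pd b s') z) :
    z ∈ ({x, y} : Set (Bdry σ p)) := by
  obtain ⟨s, hs, hx, hy⟩ := hp
  by_cases he : s' = s
  · left
    rw [he] at hz
    exact Asym.unique R h hz hx
  · right
    have : s' = -s := by
      rcases hs with rfl | rfl <;> rcases hs' with rfl | rfl
      · exact absurd rfl he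
      · rfl
      · norm_num
      · exact absurd rfl he
    rw [this] at hz
    exact Asym.unique R h hz hy

include h in
theorem IsPoles.set_eq {p : Y} {w : VP} {b : Bool} {x y x' y' : Bdry σ p}
    (hp : IsPoles R w b x y) (hp' : IsPoles R w b x' y') :
    ({x, y} : Set (Bdry σ p)) = {x', y'} := by
  apply Subset.antisymm
  · intro z hz
    obtain ⟨s, hs, hz'⟩ := hp.asym_of_mem R hz
    exact hp'.mem_of_asym R h hs hz'
  · intro z hz
    obtain ⟨s, hs, hz'⟩ := hp'.asym_of_mem R hz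
    exact hp.mem_of_asym R h hs hz'

/-- poles of different types of the same plane are different -/
theorem IsPoles.not_mem {p : Y} {w : VP} {b : Bool} {x y : Bdry σ p}
    (hp : IsPoles R w b x y) {z : Bdry σ p} {s' : ℝ} (hs' : s' = 1 ∨ s' = -1)
    (hz : Asym R w (pd (!b) s') z) : z ∉ ({x, y} : Set (Bdry σ p)) := by
  intro hm
  obtain ⟨s, hs, hz'⟩ := hp.asym_of_mem R hm
  have := Asym.dir_eq R hz' hz
  exact pd_ne b (by rcases hs with rfl | rfl <;> norm_num) this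

variable [CompleteSpace Y]

include h in
theorem exists_poles (p : Y) (w : VP) (b : Bool) : ∃ x y : Bdry σ p, IsPoles R w b x y :=
  ⟨_, _, 1, Or.inl rfl, bp_asym R h p w (pd b 1) (pd_unit _ b (Or.inl rfl)),
    bp_asym R h p w (pd b (-1)) (pd_unit _ b (Or.inr rfl))⟩

include h in
theorem IsPoles.fiveCut {p : Y} {w : VP} {b : Bool} {x y : Bdry σ p}
    (hp : IsPoles R w b x y) : FiveCut x y := by
  obtain ⟨s, hs, hx, hy⟩ := hp
  have hs' := neg_sgn hs
  rw [bp_of_asym R h (hv := pd_unit _ b hs) hx, bp_of_asym R h (hv := pd_unit _ b hs') hy]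
  exact five_cut_bp R h p w b hs hs'

include h in
theorem fiveCut_poles {p : Y} {x y : Bdry σ p} (hc : FiveCut x y) :
    ∃ (w : VP) (b : Bool), IsPoles R w b x y := by
  obtain ⟨w, b, s, hs, hs', rfl, rfl⟩ := five_cut_pole R h hc
  exact ⟨w, b, s, hs, bp_asym R h p w _ _, bp_asym R h p w _ _⟩

include h in
theorem IsPoles.move {p : Y} (q : Y) {w : VP} {b : Bool} {x y : Bdry σ p}
    (hp : IsPoles R w b x y) :
    IsPoles R w b (moveHomeo h p q x) (moveHomeo h p q y) := by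
  obtain ⟨s, hs, hx, hy⟩ := hp
  exact ⟨s, hs, hx.move R h q, hy.move R h q⟩

theorem IsPoles.mem_circ {p : Y} {w : VP} {b : Bool} {x y z : Bdry σ p}
    (hp : IsPoles R w b x y) (hz : z ∈ ({x, y} : Set (Bdry σ p))) :
    z ∈ range (circ R h p w) := by
  obtain ⟨s, hs, hz⟩ := hp.asym_of_mem R hz
  rw [bp_of_asym R h (hv := pd_unit _ b hs) hz]
  exact bp_mem_circ R h _ _ _ _

/-- a five-cut pair lying on the circle of a plane consists of poles of this plane -/
theorem poles_of_circ {p : Y} {w : VP} {d d' : Bdry σ p} (hc : FiveCut d d')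
    (hd : d ∈ range (circ R h p w)) (hd' : d' ∈ range (circ R h p w)) :
    ∃ b : Bool, IsPoles R w b d d' := by
  obtain ⟨w', b, hp⟩ := fiveCut_poles R h hc
  rcases hL : ((w:Pl)⁻¹ * w').val with _ | ⟨e, L⟩
  · have : (w:Pl)⁻¹ * w' = 1 := W.ext hL
    rw [Subtype.ext (inv_mul_eq_one.1 this)]
    exact ⟨b, hp⟩
  · obtain ⟨s, hs, hs', h1, h2⟩ := meet_pole' R h hL hc.1 hd hd'
      (hp.mem_circ R h (Or.inl rfl)) (hp.mem_circ R h (Or.inr rfl))
    exact ⟨e.1, s, hs, by rw [h1]; exact bp_asym R h _ _ _ _, by rw [h2]; exact bp_asym R h _ _ _ _⟩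

include h in
/-- the poles of the two families of lines of a plane are linked -/
theorem linked_of_poles {p : Y} {w : VP} {b : Bool} {x y x' y' : Bdry σ p}
    (hp : IsPoles R w b x y) (hp' : IsPoles R w (!b) x' y') : Linked x y x' y' := by
  refine ⟨hp.fiveCut R h, hp'.fiveCut R h, ?_, ?_⟩
  · intro he
    obtain ⟨s', hs', hz⟩ := hp'.asym_of_mem R (z := x') (Or.inl rfl)
    apply hp.not_mem R hs' hz
    rw [he]; exact Or.inl rfl
  · rintro d d' ⟨hc, U, V, hU, hV, hUV, hun, hx, hy, hx', hy'⟩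
    have hxn : x ∉ ({d, d'} : Set (Bdry σ p)) := by
      have : x ∈ ({d, d'} : Set (Bdry σ p))ᶜ := by rw [← hun]; exact Or.inl hx
      exact this
    have hxn' : x' ∉ ({d, d'} : Set (Bdry σ p)) := by
      have : x' ∈ ({d, d'} : Set (Bdry σ p))ᶜ := by rw [← hun]; exact Or.inr hx'
      exact this
    by_cases hdd : d ∈ range (circ R h p w) ∧ d' ∈ range (circ R h p w)
    · obtain ⟨b', hd⟩ := poles_of_circ R h hc hdd.1 hdd.2
      by_cases hb : b' = b
      · subst hb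
        apply hxn
        rw [hd.set_eq R h hp]; exact Or.inl rfl
      · have hb' : b' = !b := by revert hb; cases b <;> cases b' <;> simp
        subst hb'
        apply hxn'
        rw [hd.set_eq R h hp']; exact Or.inl rfl
    · have hpre := circ_diff_pre R h hdd
      rw [isPreconnected_iff_subset_of_disjoint] at hpre
      have hsub : range (circ R h p w) \ {d, d'} ⊆ U ∪ V := by
        rw [hun]; exact fun z hz => hz.2
      have hxm : x ∈ range (circ R h p w) \ {d, d'} :=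
        ⟨hp.mem_circ R h (Or.inl rfl), hxn⟩
      have hxm' : x' ∈ range (circ R h p w) \ {d, d'} :=
        ⟨hp'.mem_circ R h (Or.inl rfl), hxn'⟩
      rcases hpre U V hU hV hsub (by
        rw [disjoint_iff_inter_eq_empty.1 hUV, inter_empty]) with h1 | h1
      · exact disjoint_left.1 hUV (h1 hxm') hx'
      · exact disjoint_left.1 hUV hx (h1 hxm)

omit [CompleteSpace Y] in
/-- a boundary point of a plane beyond a line which stays on the near side of the line -/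
theorem far_side {p : Y} {w w' : VP} {e f : Letter} {L L' : List Letter}
    (hL : ((w:Pl)⁻¹ * w').val = e :: L) (hL' : ((w:Pl)⁻¹ * w').val = L' ++ [f]) {v : ℝ × ℝ}
    (hv : 𝒢.U1 (𝒜.cls w'.1) v) {x : Bdry σ p} (hx : Asym R w' v x)
    (hA : ∀ t, 0 ≤ t → x.c t ∈ R.A w.1 e) : ∃ s : ℝ, (s = 1 ∨ s = -1) ∧ v = pd f.1 s := by
  obtain ⟨C, hC⟩ := hx
  apply dir_of_bdd (C := C) hv
  intro t ht
  have h1 := hC t ht
  obtain ⟨q, hq, hd⟩ := R.cross_AB w.2 (hA t ht) (pt_B_of R hL (rho (0, 0) v t))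
  have hrev : ((w':Pl)⁻¹ * w).val = f :: L'.reverse := by rw [word_rev, hL']; simp
  obtain ⟨q', hq', hd'⟩ := R.cross_AB w'.2 (R.pt_self_mem_A w'.2 (rho (0, 0) v t))
    (pt_B_of R hrev q)
  refine ⟨q', hq', ?_⟩
  rw [R.dist_same] at hd'
  rw [dist_comm (R.pt w.1 w.2 q)] at hd
  have := dist_nonneg (x := x.c t) (y := R.pt w.1 w.2 q)
  have := dist_nonneg (x := R.pt w'.1 w'.2 q') (y := R.pt w.1 w.2 q)
  linarith

omit [CompleteSpace Y] in
include h in
/-- the two sides of a line at infinity -/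
theorem main_line {p : Y} (w : VP) (e : Letter) (hV : w.1 * W.of e ∈ VP)
    (hp : p = R.pt w.1 w.2 (0, 0)) {d d' : Bdry σ p} (hd : Asym R w (pd e.1 1) d)
    (hd' : Asym R w (pd e.1 (-1)) d') :
    IsOpen {r : Bdry σ p | ∃ t, 0 ≤ t ∧ r.c t ∉ R.A w.1 e} ∧
      IsClosed ({r : Bdry σ p | ∃ t, 0 ≤ t ∧ r.c t ∉ R.A w.1 e} ∪ {d, d'}) ∧
      (d ∉ {r : Bdry σ p | ∃ t, 0 ≤ t ∧ r.c t ∉ R.A w.1 e} ∧
        d' ∉ {r : Bdry σ p | ∃ t, 0 ≤ t ∧ r.c t ∉ R.A w.1 e}) := by
  subst hp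
  have hs1 : (1:ℝ) = 1 ∨ (1:ℝ) = -1 := Or.inl rfl
  have hs2 : (-1:ℝ) = 1 ∨ (-1:ℝ) = -1 := Or.inr rfl
  have hc : ∀ (s : ℝ) (hs : s = 1 ∨ s = -1) (x : Bdry σ (R.pt w.1 w.2 (0, 0))),
      Asym R w (pd e.1 s) x → ∀ t, 0 ≤ t → x.c t = R.pt w.1 w.2 (rho (0, 0) (pd e.1 s) t) := by
    intro s hs x hx t ht
    have h1 := plane_ray R h w (0, 0) (pd_unit (𝒢 := 𝒢) (𝒜.cls w.1) e.1 hs)
    have h2 : x = h1.toBdry := by
      apply Asym.unique R h hx
      refine ⟨0, fun t ht => ?_⟩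
      rw [h1.toBdry_c ht, dist_self]
    rw [h2, h1.toBdry_c ht]
  have hcf : ∀ s t, 𝒢.N (𝒜.cls w.1) (rho (0, 0) (pd e.1 s) t) (mkp e.1 (s * t) e.2) ≤
      |(e.2:ℝ)| := by
    intro s t
    refine (𝒢.hi _ _ _).trans ?_
    rw [N1_eq e.1, Geo.alc_rho, Geo.pec_rho]
    unfold pd
    rw [alc_mkp, pec_mkp, alc_mkp, pec_mkp]
    have h1 : alc e.1 ((0:ℝ), (0:ℝ)) = 0 := by cases e.1 <;> rfl
    have h2 : pec e.1 ((0:ℝ), (0:ℝ)) = 0 := by cases e.1 <;> rfl
    rw [h1, h2, zero_add, zero_add, mul_zero, zero_sub, abs_neg, mul_comm t s, sub_self, abs_zero,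
      zero_add]
  exact (lin_sep R h w e hV).main h (R.pt_self_mem_A w.2 (0, 0)) (K := |(e.2:ℝ)|) d d'
    (fun t ht => by
      rw [hc 1 hs1 d hd t ht]
      show dist (R.pt w.1 w.2 _) (R.pt w.1 w.2 _) ≤ _
      rw [R.dist_same]
      have := hcf 1 t
      rwa [one_mul] at this)
    (fun t ht => by
      rw [hc (-1) hs2 d' hd' t ht]
      show dist (R.pt w.1 w.2 _) (R.pt w.1 w.2 _) ≤ _
      rw [R.dist_same]
      have := hcf (-1) t
      rwa [neg_one_mul] at this)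

include h in
theorem betw_base {p : Y} {w w' : VP} (hpdef : p = R.pt w.1 w.2 (0, 0)) {b b' : Bool}
    {e f : Letter} {L L' : List Letter}
    (hL : ((w:Pl)⁻¹ * w').val = e :: L) (hL' : ((w:Pl)⁻¹ * w').val = L' ++ [f]) (heb : e.1 ≠ b)
    (hfb : f.1 ≠ b') {x y x' y' : Bdry σ p} (hp : IsPoles R w b x y)
    (hp' : IsPoles R w' b' x' y') : ∃ d d', Betw d d' x y x' y' := by
  have hs1 : (1:ℝ) = 1 ∨ (1:ℝ) = -1 := Or.inl rfl
  have hs2 : (-1:ℝ) = 1 ∨ (-1:ℝ) = -1 := Or.inr rfl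
  obtain ⟨hV, -⟩ := word_step hL
  set d := bp R h p w (pd e.1 1) (pd_unit _ _ hs1) with hd
  set d' := bp R h p w (pd e.1 (-1)) (pd_unit _ _ hs2) with hd'
  have hda := bp_asym R h p w (pd e.1 1) (pd_unit _ _ hs1)
  have hda' := bp_asym R h p w (pd e.1 (-1)) (pd_unit _ _ hs2)
  have hdp : IsPoles R w e.1 d d' := ⟨1, hs1, hda, hda'⟩
  obtain ⟨m1, m2, m3, m4⟩ := main_line R h w e hV hpdef hda hda'
  set V := {r : Bdry σ p | ∃ t, 0 ≤ t ∧ r.c t ∉ R.A w.1 e} with hVdef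
  have hb' : e.1 = !b := by revert heb; cases e.1 <;> cases b <;> simp
  have near : ∀ z ∈ ({x, y} : Set (Bdry σ p)), z ∈ (V ∪ {d, d'})ᶜ := by
    intro z hz
    obtain ⟨s, hs, hza⟩ := hp.asym_of_mem R hz
    rintro (h1 | h1)
    · obtain ⟨t, ht, hzt⟩ := h1
      have h1 := plane_ray R h w (0, 0) (pd_unit (𝒢 := 𝒢) (𝒜.cls w.1) b hs)
      subst hpdef
      have h2 : z = h1.toBdry := by
        apply Asym.unique R h hza
        refine ⟨0, fun t ht => ?_⟩
        rw [h1.toBdry_c ht, dist_self]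
      apply hzt
      rw [h2, h1.toBdry_c ht]
      exact R.pt_self_mem_A w.2 _
    · apply hdp.not_mem R hs (z := z) _ h1
      have : (!e.1) = b := by rw [hb']; simp
      rw [this]; exact hza
  have far : ∀ z ∈ ({x', y'} : Set (Bdry σ p)), z ∈ V := by
    intro z hz
    obtain ⟨s, hs, hza⟩ := hp'.asym_of_mem R hz
    by_contra hcon
    have hA : ∀ t, 0 ≤ t → z.c t ∈ R.A w.1 e := by
      intro t ht
      by_contra hc
      exact hcon ⟨t, ht, hc⟩
    obtain ⟨s', hs', he⟩ := far_side R hL hL' (pd_unit _ _ hs) hza hA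
    have hfb' : f.1 = !b' := by revert hfb; cases f.1 <;> cases b' <;> simp
    rw [hfb'] at he
    exact pd_ne b' (by rcases hs with rfl | rfl <;> norm_num) he
  refine ⟨d, d', hdp.fiveCut R h, (V ∪ {d, d'})ᶜ, V, m2.isOpen_compl, m1, ?_, ?_,
    near x (Or.inl rfl), near y (Or.inr rfl), far x' (Or.inl rfl), far y' (Or.inr rfl)⟩
  · rw [disjoint_left]
    intro z hz hz'
    exact hz (Or.inl hz')
  · ext z
    constructor
    · rintro (hz | hz)
      · exact fun h1 => hz (Or.inr h1)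
      · rintro (h1 | h1)
        · rw [h1] at hz; exact m3 hz
        · rw [mem_singleton_iff.1 h1] at hz; exact m4 hz
    · intro hz
      by_cases hzV : z ∈ V
      · exact Or.inr hzV
      · left
        rintro (h1 | h1)
        · exact hzV h1
        · exact hz h1

include h in
/-- linked pairs of poles come from a common plane -/
theorem poles_of_linked {p : Y} {w w' : VP} {b b' : Bool} {x y x' y' : Bdry σ p}
    (hp : IsPoles R w b x y) (hp' : IsPoles R w' b' x' y') (hl : Linked x y x' y') :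
    ∃ w₁ : VP, Blk b w w₁ ∧ IsPoles R w₁ b x y ∧ IsPoles R w₁ (!b) x' y' := by
  obtain ⟨w₁, w₂, h1, h2, h3⟩ := strip b b' _ w w' le_rfl
  have k1 := hp.blk R h1
  have k2 := hp'.blk R h2
  rcases h3 with rfl | ⟨e, L, f, L', hL, hL', heb, hfb⟩
  · refine ⟨w₁, h1, k1, ?_⟩
    by_cases hb : b' = b
    · exfalso
      subst hb
      exact hl.2.2.1 (k1.set_eq R h k2)
    · have hb' : b' = !b := by revert hb; cases b <;> cases b' <;> simp
      rw [← hb']; exact k2
  · exfalso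
    obtain ⟨d, d', hbt⟩ := betw_base R h rfl hL hL' heb hfb (k1.move R h (R.pt w₁.1 w₁.2 (0, 0)))
      (k2.move R h (R.pt w₁.1 w₁.2 (0, 0)))
    exact (hl.map (moveHomeo h p (R.pt w₁.1 w₁.2 (0, 0)))).2.2.2 d d' hbt

include h in
/-- pairs linked to a pair of poles -/
theorem linked_iff {p : Y} {w : VP} {b : Bool} {x y x' y' : Bdry σ p}
    (hp : IsPoles R w b x y) : Linked x y x' y' ↔
      ∃ w₁ : VP, Blk b w w₁ ∧ IsPoles R w₁ (!b) x' y' := by
  constructor
  · intro hl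
    obtain ⟨w', b', hp'⟩ := fiveCut_poles R h hl.2.1
    obtain ⟨w₁, h1, _, h3⟩ := poles_of_linked R h hp hp' hl
    exact ⟨w₁, h1, h3⟩
  · rintro ⟨w₁, h1, h3⟩
    exact linked_of_poles R h (hp.blk R h1) h3

end

end Run7.h484.K

end

section

/-! The null property for blocks of `ℓ¹` planes. -/

namespace Run7.h484.K

universe u

open Set Filter Topology

section

variable {𝒜 : Auto} {𝒢 : Geo 𝒜} {Y : Type u} [MetricSpace Y] (R : Rz 𝒢 Y) {σ : Y → Y → ℝ → Y}
  (h : IsBicombing σ)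

theorem gate_none (w : VP) (hk : 𝒢.κ (𝒜.cls w.1) = none) (m : Y) :
    ∃ g : ℝ × ℝ, ∀ z, dist m (R.pt w.1 w.2 z) = dist m (R.pt w.1 w.2 g) + N1 g z := by
  obtain ⟨ξ, rfl⟩ := R.exists_pt m
  refine ⟨(Pt.S w.1 ξ.1).g, fun z => ?_⟩
  have hk' : 𝒢.κ (Pt.S w.1 ξ.1).c = none := by rw [Pt.S_c]; exact hk
  rw [R.dist_ι_pt, R.dist_ι_pt, Pt.dist_mk, Pt.dist_mk, 𝒢.ev_gate_none hk', 𝒢.ev_none hk']

include h in
/-- rays towards the poles of an `ℓ¹` plane entered through a line of the other family -/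
theorem pole_far {p : Y} {w : VP} {e : Letter} (hk : 𝒢.κ (𝒜.cls w.1) = none)
    (hpB : p ∈ R.B w.1 e) :
    ∃ (q : ℝ × ℝ), ∀ (s : ℝ), (s = 1 ∨ s = -1) → ∀ x : Bdry σ p, Asym R w (pd (!e.1) s) x →
      x.c (dist p (R.pt w.1 w.2 q)) = R.pt w.1 w.2 q := by
  -- gate of the base point
  obtain ⟨q, hq⟩ := gate_none R w hk p
  set D := dist p (R.pt w.1 w.2 q) with hD
  have hD0 : 0 ≤ D := dist_nonneg
  -- gates of points on the side of the base point are on the line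
  have onLine : ∀ m ∈ R.B w.1 e, ∀ g : ℝ × ℝ, (∀ z, dist m (R.pt w.1 w.2 z) =
      dist m (R.pt w.1 w.2 g) + N1 g z) → g ∈ line e := by
    intro m hm g hg
    obtain ⟨c, hc, hd⟩ := R.cross_AB w.2 (R.pt_self_mem_A w.2 g) hm
    rw [R.dist_same, 𝒢.N_none hk, dist_comm _ m, dist_comm _ m, hg c] at hd
    have h0 : N1 g c ≤ 0 := by linarith [N1_nonneg g c]
    rw [N1_eq_zero h0]
    exact hc
  have hqL : q ∈ line e := onLine _ hpB q hq
  refine ⟨q, fun s hs x hx => ?_⟩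
  -- perpendicular direction: distances add up
  have perp : ∀ g ∈ line e, ∀ n : ℝ, 0 ≤ n → N1 g (rho q (pd (!e.1) s) n) = N1 g q + n := by
    intro g hg n hn
    have hsn : |n * s| = n := by
      rw [abs_mul, abs_of_nonneg hn]
      rcases hs with rfl | rfl
      · rw [abs_one, mul_one]
      · rw [abs_neg, abs_one, mul_one]
    have hg' : pec e.1 g = e.2 := hg
    have hq' : pec e.1 q = e.2 := hqL
    have e1 : alc e.1 (pd (!e.1) s) = 0 := by
      unfold pd; rw [← pec_not, pec_mkp]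
    have e2 : pec e.1 (pd (!e.1) s) = s := by
      unfold pd; rw [← alc_not, alc_mkp]
    rw [N1_eq e.1, N1_eq e.1, Geo.alc_rho, Geo.pec_rho, e1, e2, hg', hq', sub_self, abs_zero,
      mul_zero, add_zero, sub_add_cancel_left, abs_neg, hsn, add_zero]
  -- the segments from the base point to the far points pass through `q`
  have pass : ∀ n : ℝ, 0 < n →
      σ p (R.pt w.1 w.2 (rho q (pd (!e.1) s) n)) (D / (D + n)) = R.pt w.1 w.2 q := by
    intro n hn
    have hm := div_mem_Icc hD0 (by linarith : D ≤ D + n)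
    set m := σ p (R.pt w.1 w.2 (rho q (pd (!e.1) s) n)) (D / (D + n)) with hmdef
    have hdz : dist p (R.pt w.1 w.2 (rho q (pd (!e.1) s) n)) = D + n := by
      rw [hq, perp q hqL n hn.le]
      have : N1 q q = 0 := by simp [N1]
      rw [this, zero_add]
    have h1 := h.dist_left p (R.pt w.1 w.2 (rho q (pd (!e.1) s) n)) hm
    have h2 := h.dist_right p (R.pt w.1 w.2 (rho q (pd (!e.1) s) n)) hm
    rw [← hmdef, hdz, div_mul_cancel₀ _ (by linarith)] at h1
    rw [← hmdef, hdz, sub_mul, div_mul_cancel₀ _ (by linarith)] at h2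
    have hAB : m ∈ R.A w.1 e ∪ R.B w.1 e := by rw [R.union_AB]; exact mem_univ _
    rcases hAB with hm' | hm'
    · obtain ⟨c, hc, hd⟩ := R.cross_AB w.2 hm' hpB
      rw [dist_comm m p, h1, dist_comm _ p, hq c] at hd
      have k1 := dist_nonneg (x := m) (y := R.pt w.1 w.2 c)
      have k2 := N1_nonneg q c
      have e1 : m = R.pt w.1 w.2 c := dist_le_zero.1 (by linarith)
      have e2 : q = c := N1_eq_zero (by linarith)
      rw [e1, e2]
    · obtain ⟨g, hg⟩ := gate_none R w hk m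
      have hgL := onLine m hm' g hg
      rw [hg, perp g hgL n hn.le] at h2
      have k1 := dist_nonneg (x := m) (y := R.pt w.1 w.2 g)
      have k2 := N1_nonneg g q
      have e1 : m = R.pt w.1 w.2 g := dist_le_zero.1 (by linarith)
      have e2 : g = q := N1_eq_zero (by linarith)
      rw [e1, e2]
  -- approximation by segments
  obtain ⟨C, hC⟩ := hx
  have hCn : ∀ n, 0 ≤ n → dist (x.c n) (R.pt w.1 w.2 (rho q (pd (!e.1) s) n)) ≤
      C + N1 (0, 0) q := by
    intro n hn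
    have h1 := hC n hn
    have h2 := dist_triangle (x.c n) (R.pt w.1 w.2 (rho (0, 0) (pd (!e.1) s) n))
      (R.pt w.1 w.2 (rho q (pd (!e.1) s) n))
    rw [R.dist_same, Geo.N_rho_base, 𝒢.N_none hk] at h2
    linarith
  apply dist_le_zero.1
  apply le_of_div (A := D * (C + N1 (0, 0) q) + D * D) (N := D)
  intro n hn hn0
  have hm := div_mem_Icc hD0 hn
  have h0 := x.rray.seg n (D / n) hn0.le hm
  rw [div_mul_cancel₀ _ hn0.ne'] at h0
  have h1 := h.dist_le_left p (x.c n) (R.pt w.1 w.2 (rho q (pd (!e.1) s) n)) hm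
  rw [← h0] at h1
  have h1' : D / n * dist (x.c n) (R.pt w.1 w.2 (rho q (pd (!e.1) s) n)) ≤
      D / n * (C + N1 (0, 0) q) := mul_le_mul_of_nonneg_left (hCn n hn0.le) hm.1
  have hdz : dist p (R.pt w.1 w.2 (rho q (pd (!e.1) s) n)) = D + n := by
    rw [hq, perp q hqL n hn0.le]
    have : N1 q q = 0 := by simp [N1]
    rw [this, zero_add]
  have h2 := h.geodesic p (R.pt w.1 w.2 (rho q (pd (!e.1) s) n)) _ (div_mem_Icc hD0 hn) _
    (div_mem_Icc hD0 (by linarith : D ≤ D + n))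
  rw [pass n hn0, hdz] at h2
  have h3 : |D / n - D / (D + n)| * (D + n) = D * D / n := by
    have : D / n - D / (D + n) = D * D / (n * (D + n)) := by
      field_simp
      ring
    rw [this, abs_of_nonneg (by positivity)]
    field_simp
  rw [h3] at h2
  have h4 := dist_triangle (x.c D)
    (σ p (R.pt w.1 w.2 (rho q (pd (!e.1) s) n)) (D / n)) (R.pt w.1 w.2 q)
  have h5 : 0 + (D * (C + N1 (0, 0) q) + D * D) / n = D / n * (C + N1 (0, 0) q) + D * D / n := by
    ring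
  rw [h5]
  linarith

variable [CompleteSpace Y]

include h in
theorem nul_base {p : Y} {w₀ : VP} (hp : p = R.pt w₀.1 w₀.2 (0, 0)) {b : Bool}
    (hk : 𝒢.κ (𝒜.cls w₀.1) = none) (hk' : 𝒢.κ (𝒜.nx b (𝒜.cls w₀.1)) = none)
    {x y : Bdry σ p} (hxy : IsPoles R w₀ b x y) : Nul x y := by
  intro x₀ y₀ hne
  obtain ⟨T, hT0, hT⟩ : ∃ T, 0 ≤ T ∧ x₀.c T ≠ y₀.c T := by
    by_contra hcon
    push Not at hcon
    exact hne (Bdry.ext_c hcon)
  set ε := dist (x₀.c T) (y₀.c T) / 2 with hε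
  have hε0 : 0 < ε := by
    have := dist_pos.2 hT
    linarith
  have hTpos : 0 < T := by
    rcases eq_or_lt_of_le hT0 with h1 | h1
    · exfalso; apply hT; rw [← h1, x₀.rray.zero, y₀.rray.zero]
    · exact h1
  refine ⟨{x | dist (x.c T) (x₀.c T) < ε}, (Bdry.mem_nhds_iff h _ _).2
    ⟨T, hTpos, ε, hε0, fun _ hx => hx⟩, {y | dist (y.c T) (y₀.c T) < ε},
    (Bdry.mem_nhds_iff h _ _).2 ⟨T, hTpos, ε, hε0, fun _ hx => hx⟩, ?_⟩
  have hfin := fin_near R p T
  have hs1 : (1:ℝ) = 1 ∨ (1:ℝ) = -1 := Or.inl rfl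
  have hs2 : (-1:ℝ) = 1 ∨ (-1:ℝ) = -1 := Or.inr rfl
  set f : VP × Bool → Bdry σ p × Bdry σ p := fun i =>
    if i.2 then (bp R h p i.1 (pd (!b) 1) (pd_unit _ _ hs1), bp R h p i.1 (pd (!b) (-1)) (pd_unit _ _ hs2))
    else (bp R h p i.1 (pd (!b) (-1)) (pd_unit _ _ hs2), bp R h p i.1 (pd (!b) 1) (pd_unit _ _ hs1))
    with hf
  apply ((hfin.prod (Set.finite_univ (α := Bool))).image f).subset
  rintro ⟨u, v⟩ ⟨hu, hv, hl⟩
  simp only [mem_ofPred_eq] at hu hv
  simp only at hl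
  obtain ⟨w₁, hb1, s, hs, hus, hvs⟩ := (linked_iff R h hxy).1 hl
  have hk1 : 𝒢.κ (𝒜.cls w₁.1) = none := by
    rcases hb1.cls 𝒜 with h1 | h1
    · rw [h1]; exact hk
    · rw [h1]; exact hk'
  have hdiff : u.c T ≠ v.c T := by
    intro he
    rw [he] at hu
    have := dist_triangle_left (x₀.c T) (y₀.c T) (v.c T)
    linarith
  have hnear : ∃ z', dist p (R.pt w₁.1 w₁.2 z') ≤ T := by
    rcases hL : ((w₁:Pl)⁻¹ * w₀).val with _ | ⟨e, L⟩
    · have h1 : (w₁:Pl)⁻¹ * w₀ = 1 := W.ext hL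
      have h2 : w₁ = w₀ := Subtype.ext (inv_mul_eq_one.1 h1)
      refine ⟨(0, 0), ?_⟩
      rw [h2, hp, dist_self]
      exact hT0
    · have heb : e.1 = b := by
        apply hb1.symm e
        rw [hL]; exact List.mem_cons_self ..
      subst heb
      have hpB : p ∈ R.B w₁.1 e := by rw [hp]; exact pt_B_of R hL _
      obtain ⟨q, hq⟩ := pole_far R h hk1 hpB
      refine ⟨q, ?_⟩
      by_contra hcon
      push Not at hcon
      apply hdiff
      apply RRay.eq_of_eq h u.rray v.rray hT0 hcon.le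
      rw [hq s hs u hus, hq (-s) (neg_sgn hs) v hvs]
  rcases hs with rfl | rfl
  · refine ⟨(w₁, true), ⟨hnear, mem_univ _⟩, ?_⟩
    rw [hf]
    simp only [if_true]
    rw [← bp_of_asym R h (hv := pd_unit _ _ hs1) hus, ← bp_of_asym R h (hv := pd_unit _ _ hs2) hvs]
  · rw [neg_neg] at hvs
    refine ⟨(w₁, false), ⟨hnear, mem_univ _⟩, ?_⟩
    rw [hf]
    simp only [Bool.false_eq_true, if_false]
    rw [← bp_of_asym R h (hv := pd_unit _ _ hs2) hus, ← bp_of_asym R h (hv := pd_unit _ _ hs1) hvs]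

include h in
theorem nul_of_none {p : Y} {w₀ : VP} {b : Bool}
    (hk : 𝒢.κ (𝒜.cls w₀.1) = none) (hk' : 𝒢.κ (𝒜.nx b (𝒜.cls w₀.1)) = none)
    {x y : Bdry σ p} (hxy : IsPoles R w₀ b x y) : Nul x y := by
  rw [← Nul.map_iff (moveHomeo h p (R.pt w₀.1 w₀.2 (0, 0)))]
  exact nul_base R h rfl hk hk' (hxy.move R h _)

end

end Run7.h484.K

end

section

/-! Folded planes: rays crossing one line, and the failure of the null property. -/

namespace Run7.h484.K

universe u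

open Set Filter Topology

section

variable {𝒜 : Auto} {𝒢 : Geo 𝒜}

theorem te_rho (c : 𝒜.C) (b : Bool) (k : ℤ) (z v : ℝ × ℝ) (t : ℝ) :
    𝒢.te c (b, k) (rho z v t) = 𝒢.te c (b, k) z + t * 𝒢.te c (b, 0) v := by
  rcases 𝒢.cases3 c b with h | h | h
  · rw [Geo.te_none h, Geo.te_none h, Geo.te_none h, Geo.alc_rho]
  · rw [Geo.te_axis (e := (b, k)) h, Geo.te_axis (e := (b, k)) h, Geo.te_axis (e := (b, 0)) h,
      Geo.sm_rho]
    push_cast; ring
  · rw [Geo.te_diag (e := (b, k)) h, Geo.te_diag (e := (b, k)) h, Geo.te_diag (e := (b, 0)) h,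
      Geo.alc_rho, Geo.pec_rho]
    push_cast; ring

theorem ve_rho (c : 𝒜.C) (b : Bool) (k : ℤ) (z v : ℝ × ℝ) (t : ℝ) :
    𝒢.ve c (b, k) (rho z v t) = 𝒢.ve c (b, k) z + t * 𝒢.ve c (b, 0) v := by
  rcases 𝒢.cases3 c b with h | h | h
  · rw [Geo.ve_none h, Geo.ve_none h, Geo.ve_none h, Geo.pec_rho]
    push_cast; ring
  · rw [Geo.ve_axis (e := (b, k)) h, Geo.ve_axis (e := (b, k)) h, Geo.ve_axis (e := (b, 0)) h,
      Geo.pec_rho]
    push_cast; ring
  · rw [Geo.ve_diag (e := (b, k)) h, Geo.ve_diag (e := (b, k)) h, Geo.ve_diag (e := (b, 0)) h,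
      Geo.pec_rho]
    push_cast; ring

theorem alc_zero (b : Bool) : alc b ((0:ℝ), (0:ℝ)) = 0 := by cases b <;> rfl
theorem pec_zero (b : Bool) : pec b ((0:ℝ), (0:ℝ)) = 0 := by cases b <;> rfl
theorem sm_zero : sm ((0:ℝ), (0:ℝ)) = 0 := by unfold sm; simp

theorem te_zero (c : 𝒜.C) (b : Bool) : 𝒢.te c (b, 0) (0, 0) = 0 := by
  rcases 𝒢.cases3 c b with h | h | h
  · rw [Geo.te_none h, alc_zero]
  · rw [Geo.te_axis (e := (b, 0)) h, sm_zero]; simp
  · rw [Geo.te_diag (e := (b, 0)) h, alc_zero, pec_zero]; simp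

theorem ve_zero (c : 𝒜.C) (b : Bool) : 𝒢.ve c (b, 0) (0, 0) = 0 := by
  rcases 𝒢.cases3 c b with h | h | h
  · rw [Geo.ve_none h, pec_zero]; simp
  · rw [Geo.ve_axis (e := (b, 0)) h, pec_zero]; simp
  · rw [Geo.ve_diag (e := (b, 0)) h, pec_zero]; simp

/-- the constant for the direction of the rays -/
theorem exists_kap (𝒢 : Geo 𝒜) (c : 𝒜.C) (b : Bool) : ∃ κ₀ : ℝ, 0 < κ₀ ∧
    (∀ v s : _, (s = 1 ∨ s = -1) → 𝒢.te c (b, 0) v = s * κ₀ → 𝒢.ve c (b, 0) v = κ₀ →
      𝒢.U1 c v) ∧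
    (∀ k : ℤ, 0 < k → ∃ τ : ℝ, (k:ℝ) ≤ τ ∧ 𝒢.ve c (b, k) (0, 0) = -(κ₀ * τ)) ∧
    (𝒢.κ (𝒜.nx b c) ≠ none → ∀ s : ℝ, 𝒢.te (𝒜.nx b c) (b, 0) (pd (!b) s) = s * κ₀ ∧
      𝒢.ve (𝒜.nx b c) (b, 0) (pd (!b) s) = s * κ₀) := by
  have e1 : ∀ s, pec b (pd (!b) s) = s := by
    intro s; unfold pd; rw [← alc_not, alc_mkp]
  have e2 : ∀ s, alc b (pd (!b) s) = 0 := by
    intro s; unfold pd; rw [← pec_not, pec_mkp]
  have e3 : ∀ s, sm (pd (!b) s) = s := by
    intro s; rw [sm_eq b, e1, e2, zero_add]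
  have hab : ∀ s : ℝ, (s = 1 ∨ s = -1) → |s| = 1 := by
    rintro s (rfl | rfl)
    · exact abs_one
    · rw [abs_neg, abs_one]
  by_cases hk : 𝒢.κ c = some b
  · have hk' : 𝒢.κ (𝒜.nx b c) = some b := 𝒢.comp _ _ hk
    refine ⟨1, one_pos, ?_, ?_, ?_⟩
    · intro v s hs h1 h2
      show 𝒢.N c v (0, 0) = 1
      rw [Geo.N_tv_axis (e := (b, 0)) hk, h1, h2, te_zero, ve_zero, mul_one, sub_zero, sub_zero,
        hab s hs, abs_one, max_self]
    · intro k hk0
      refine ⟨k, le_rfl, ?_⟩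
      rw [Geo.ve_axis (e := (b, k)) hk, pec_zero]
      ring
    · intro _ s
      rw [Geo.te_axis (e := (b, 0)) hk', Geo.ve_axis (e := (b, 0)) hk', e3, e1]
      push_cast
      constructor <;> ring
  · have hk' : 𝒢.κ (𝒜.nx b c) ≠ some b := fun h => hk ((𝒢.comp_iff _ _).1 h)
    refine ⟨1 / 2, by norm_num, ?_, ?_, ?_⟩
    · intro v s hs h1 h2
      show 𝒢.N c v (0, 0) = 1
      rw [Geo.N_tv_diag (e := (b, 0)) hk, h1, h2, te_zero, ve_zero, sub_zero, sub_zero,
        abs_mul, hab s hs, abs_of_pos (by norm_num : (0:ℝ) < 1 / 2)]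
      norm_num
    · intro k hk0
      have hk0' : (0:ℝ) < k := by exact_mod_cast hk0
      rcases 𝒢.cases3 c b with h | h | h
      · refine ⟨2 * k, by linarith, ?_⟩
        rw [Geo.ve_none h, pec_zero]
        ring
      · exact absurd h hk
      · refine ⟨k, le_rfl, ?_⟩
        rw [Geo.ve_diag (e := (b, k)) h, pec_zero]
        ring
    · intro hn s
      rcases 𝒢.cases3 (𝒜.nx b c) b with h | h | h
      · exact absurd h hn
      · exact absurd h hk'
      · rw [Geo.te_diag (e := (b, 0)) h, Geo.ve_diag (e := (b, 0)) h, e2, e1]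
        push_cast
        constructor <;> ring

end

section

variable {𝒜 : Auto} {𝒢 : Geo 𝒜} {Y : Type u} [MetricSpace Y] (R : Rz 𝒢 Y) {σ : Y → Y → ℝ → Y}
  (h : IsBicombing σ)

/-- the path crossing the line `e` at time `τ` -/
noncomputable def fr (w : VP) (e : Letter) (hV : w.1 * W.of e ∈ VP) (v v' : ℝ × ℝ) (τ : ℝ)
    (t : ℝ) : Y :=
  if t ≤ τ then R.pt w.1 w.2 (rho (0, 0) v t)
  else R.pt (w.1 * W.of e) hV (rho (rho (0, 0) v τ) v' (t - τ))

theorem fr_le {w : VP} {e : Letter} {hV : w.1 * W.of e ∈ VP} {v v' : ℝ × ℝ} {τ : ℝ}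
    {t : ℝ} (ht : t ≤ τ) : fr R w e hV v v' τ t = R.pt w.1 w.2 (rho (0, 0) v t) := if_pos ht

theorem fr_ge {w : VP} {e : Letter} {hV : w.1 * W.of e ∈ VP} {v v' : ℝ × ℝ} {τ : ℝ}
    (hq : rho (0, 0) v τ ∈ line e) {t : ℝ} (ht : τ ≤ t) : fr R w e hV v v' τ t =
      R.pt (w.1 * W.of e) hV (rho (rho (0, 0) v τ) v' (t - τ)) := by
  rcases eq_or_lt_of_le ht with h1 | h1
  · rw [fr_le R h1.symm.le, ← h1, sub_self]
    have : rho (rho (0, 0) v τ) v' 0 = rho (0, 0) v τ := by unfold rho; simp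
    rw [this, R.glue w.1 w.2 e hV hq]
  · exact if_neg (not_le.2 h1)

include h in
theorem fr_ray {w : VP} {b : Bool} {k : ℤ} {hV : w.1 * W.of (b, k) ∈ VP} {v v' : ℝ × ℝ}
    {τ κ₀ s : ℝ} (hκ : 0 < κ₀) (hτ : 0 < τ) (hv : 𝒢.U1 (𝒜.cls w.1) v)
    (h1 : 𝒢.te (𝒜.cls w.1) (b, 0) v = s * κ₀) (h2 : 𝒢.ve (𝒜.cls w.1) (b, 0) v = κ₀)
    (h3 : 𝒢.te (𝒜.nx b (𝒜.cls w.1)) (b, 0) v' = s * κ₀)
    (h4 : 𝒢.ve (𝒜.nx b (𝒜.cls w.1)) (b, 0) v' = s * κ₀) (hs : s = 1 ∨ s = -1)
    (h5 : 𝒢.ve (𝒜.cls w.1) (b, k) (0, 0) = -(κ₀ * τ)) :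
    rho (0, 0) v τ ∈ line (b, k) ∧
      RRay σ (R.pt w.1 w.2 (0, 0)) (fr R w (b, k) hV v v' τ) := by
  set q := rho (0, 0) v τ with hqdef
  have hab : |s| = 1 := by
    rcases hs with rfl | rfl
    · exact abs_one
    · rw [abs_neg, abs_one]
  have hq : q ∈ line (b, k) := by
    rw [← Geo.ve_eq_zero (𝒢 := 𝒢) (𝒜.cls w.1), hqdef, ve_rho, h5, h2]; ring
  have hteq : alc b q = 𝒢.te (𝒜.cls w.1) (b, k) (0, 0) + τ * (s * κ₀) := by
    rw [← Geo.te_line (𝒢 := 𝒢) (𝒜.cls w.1) hq, hqdef, te_rho, h1]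
  refine ⟨hq, ?_⟩
  have hpq : fr R w (b, k) hV v v' τ 0 = R.pt w.1 w.2 (0, 0) := by
    rw [fr_le R hτ.le]
    congr 1
    unfold rho; simp
  -- the segments to the far points cross the line at `q`
  have cross : ∀ T, τ < T →
      σ (R.pt w.1 w.2 (0, 0)) (fr R w (b, k) hV v v' τ T) (τ / T) = R.pt w.1 w.2 q := by
    intro T hT
    have hT0 : 0 < T := hτ.trans hT
    set zb := rho q v' (T - τ) with hzb
    have hfT : fr R w (b, k) hV v v' τ T = R.pt (w.1 * W.of (b, k)) hV zb := fr_ge R hq hT.le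
    rw [hfT]
    set γ : ℝ → Y := fun t => σ (R.pt w.1 w.2 (0, 0)) (R.pt (w.1 * W.of (b, k)) hV zb) t with hγ
    have hγc : ContinuousOn γ (Icc 0 1) := by
      apply LipschitzOnWith.continuousOn
        (K := (dist (R.pt w.1 w.2 (0, 0)) (R.pt (w.1 * W.of (b, k)) hV zb)).toNNReal)
      apply LipschitzOnWith.of_dist_le_mul
      intro x hx y hy
      rw [hγ]
      simp only
      rw [h.geodesic _ _ x hx y hy, Real.coe_toNNReal _ dist_nonneg, Real.dist_eq, mul_comm]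
    obtain ⟨u, hu, zc, hzc, hzcu⟩ := cross_line R hV hγc (left_mem_Icc.2 zero_le_one)
      (right_mem_Icc.2 zero_le_one)
      (by rw [hγ]; simp only; rw [h.zero]; exact R.pt_self_mem_A w.2 _)
      (by rw [hγ]; simp only; rw [h.one]; exact R.pt_next_mem_B hV zb)
    simp only at hzcu
    have hmix : Mix (1 - u) (R.pt (w.1 * W.of (b, k)) hV zb) (R.pt w.1 w.2 (0, 0))
        (R.pt w.1 w.2 zc) := by
      apply Mix.swap
      intro z
      rw [hzcu]
      exact h.dist_pt _ _ _ hu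
    obtain ⟨x1, x2⟩ := X_gen R w (b, k) hV hzc hmix
    have e1 : 𝒢.ve (𝒜.nx b (𝒜.cls w.1)) (b, k) zb = (T - τ) * (s * κ₀) := by
      rw [hzb, ve_rho, Geo.ve_line _ hq, h4, zero_add]
    have e2 : 𝒢.te (𝒜.nx b (𝒜.cls w.1)) (b, k) zb = alc b q + (T - τ) * (s * κ₀) := by
      rw [hzb, te_rho, Geo.te_line _ hq, h3]
    simp only at x1 x2
    rw [e1, h5, abs_mul, abs_mul, hab, one_mul, abs_of_pos hκ, abs_of_pos (by linarith : 0 < T - τ),
      abs_neg, abs_of_pos (mul_pos hκ hτ)] at x1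
    have e3 : u * T = τ := by
      have : κ₀ * (u * T) = κ₀ * τ := by linarith
      exact mul_left_cancel₀ hκ.ne' this
    have e4 : u = τ / T := by rw [eq_div_iff hT0.ne']; exact e3
    rw [e2] at x2
    have e5 : alc b zc = alc b q := by
      rw [x2]
      have e6 : 𝒢.te (𝒜.cls w.1) (b, k) (0, 0) = alc b q - τ * (s * κ₀) := by rw [hteq]; ring
      rw [e6]
      have e7 : (1 - (1 - u)) * (alc b q + (T - τ) * (s * κ₀)) +
        (1 - u) * (alc b q - τ * (s * κ₀)) = alc b q + (u * T - τ) * (s * κ₀) := by ring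
      rw [e7, e3]; ring
    have e8 : zc = q := by
      apply alpe_ext e5
      have a1 : pec b zc = k := hzc
      have a2 : pec b q = k := hq
      rw [a1, a2]
    rw [← e4, ← e8]
    exact hzcu.symm
  -- the path is straight
  have key : ∀ T, τ < T → ∀ t, 0 ≤ t → t ≤ T → fr R w (b, k) hV v v' τ t =
      σ (R.pt w.1 w.2 (0, 0)) (fr R w (b, k) hV v v' τ T) (t / T) := by
    intro T hT t ht0 htT
    have hT0 : 0 < T := hτ.trans hT
    have hc := cross T hT
    rcases le_total t τ with h6 | h6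
    · have e1 := h.initial (R.pt w.1 w.2 (0, 0)) (fr R w (b, k) hV v v' τ T)
        (div_mem_Icc hτ.le hT.le) (div_mem_Icc ht0 h6)
      rw [hc] at e1
      have e2 : t / τ * (τ / T) = t / T := by field_simp
      rw [← e2, ← e1, fr_le R h6]
      have e3 := seg_rho R h w (0, 0) v 0 τ (div_mem_Icc ht0 h6)
      have e4 : rho (0, 0) v 0 = (0, 0) := by unfold rho; simp
      rw [e4, mul_zero, zero_add, div_mul_cancel₀ _ hτ.ne'] at e3
      exact e3.symm
    · have hm := div_mem_Icc (sub_nonneg.2 h6) (by linarith : t - τ ≤ T - τ)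
      have e1 := h.final (R.pt w.1 w.2 (0, 0)) (fr R w (b, k) hV v v' τ T)
        (div_mem_Icc hτ.le hT.le) hm
      rw [hc] at e1
      have hTτ : T - τ ≠ 0 := by linarith
      have e2 : (1 - (t - τ) / (T - τ)) * (τ / T) + (t - τ) / (T - τ) = t / T := by
        field_simp
        ring
      rw [← e2, ← e1, fr_ge R hq h6, fr_ge R hq hT.le, R.glue w.1 w.2 _ hV hq]
      have e3 := seg_rho R h ⟨w.1 * W.of (b, k), hV⟩ q v' 0 (T - τ) hm
      have e4 : rho q v' 0 = q := by unfold rho; simp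
      rw [e4, mul_zero, zero_add, div_mul_cancel₀ _ hTτ] at e3
      exact e3.symm
  have hlen : ∀ T, τ < T → dist (R.pt w.1 w.2 (0, 0)) (fr R w (b, k) hV v v' τ T) = T := by
    intro T hT
    have hT0 : 0 < T := hτ.trans hT
    have e1 := h.dist_left (R.pt w.1 w.2 (0, 0)) (fr R w (b, k) hV v v' τ T)
      (div_mem_Icc hτ.le hT.le)
    rw [cross T hT, R.dist_same] at e1
    have e2 : 𝒢.N (𝒜.cls w.1) (0, 0) q = τ := by
      have e3 : 𝒢.N (𝒜.cls w.1) (rho (0, 0) v 0) (rho (0, 0) v τ) =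
        |0 - τ| * 𝒢.N (𝒜.cls w.1) v (0, 0) := Geo.N_rho _ _ _ v _ _
      have e4 : rho (0, 0) v 0 = (0, 0) := by unfold rho; simp
      have e5 : 𝒢.N (𝒜.cls w.1) v (0, 0) = 1 := hv
      rw [e4, e5, zero_sub, abs_neg, abs_of_pos hτ, mul_one] at e3
      exact e3
    rw [e2] at e1
    have : τ * T = τ * dist (R.pt w.1 w.2 (0, 0)) (fr R w (b, k) hV v v' τ T) := by
      calc τ * T = (τ / T * dist (R.pt w.1 w.2 (0, 0)) (fr R w (b, k) hV v v' τ T)) * T := by
            rw [← e1]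
        _ = τ * dist (R.pt w.1 w.2 (0, 0)) (fr R w (b, k) hV v v' τ T) := by field_simp
    exact (mul_left_cancel₀ hτ.ne' this).symm
  apply RRay.of_large h hpq
  · intro a c ha hc
    obtain ⟨T, hT⟩ := exists_gt (max τ (max a c))
    have hT1 : τ < T := (le_max_left _ _).trans_lt hT
    have hT2 : a < T := ((le_max_left _ _).trans (le_max_right _ _)).trans_lt hT
    have hT3 : c < T := ((le_max_right _ _).trans (le_max_right _ _)).trans_lt hT
    have hT0 : 0 < T := hτ.trans hT1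
    rw [key T hT1 a ha hT2.le, key T hT1 c hc hT3.le,
      h.geodesic _ _ _ (div_mem_Icc ha hT2.le) _ (div_mem_Icc hc hT3.le), hlen T hT1, ← sub_div,
      abs_div, abs_of_pos hT0, div_mul_cancel₀ _ hT0.ne']
  · intro T hT
    obtain ⟨T', hT'⟩ := exists_gt (max τ T)
    exact ⟨T', ((le_max_right _ _).trans_lt hT').le, hτ.trans ((le_max_left _ _).trans_lt hT'),
      key T' ((le_max_left _ _).trans_lt hT')⟩

variable [CompleteSpace Y]

include h in
theorem not_nul_base {p : Y} {w₁ : VP} (hp : p = R.pt w₁.1 w₁.2 (0, 0)) {b : Bool}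
    (hk : 𝒢.κ (𝒜.nx b (𝒜.cls w₁.1)) ≠ none)
    {x y : Bdry σ p} (hxy : IsPoles R w₁ b x y) : ¬ Nul x y := by
  intro hnul
  subst hp
  obtain ⟨κ₀, hκ, hunit, hτ, hv'⟩ := exists_kap 𝒢 (𝒜.cls w₁.1) b
  have hdir := hv' hk
  have hs1 : (1:ℝ) = 1 ∨ (1:ℝ) = -1 := Or.inl rfl
  have hs2 : (-1:ℝ) = 1 ∨ (-1:ℝ) = -1 := Or.inr rfl
  obtain ⟨va, hva1, hva2⟩ := Geo.tv_surj (𝒢 := 𝒢) (𝒜.cls w₁.1) (b, 0) (1 * κ₀) κ₀
  obtain ⟨vb, hvb1, hvb2⟩ := Geo.tv_surj (𝒢 := 𝒢) (𝒜.cls w₁.1) (b, 0) (-1 * κ₀) κ₀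
  have hua : 𝒢.U1 (𝒜.cls w₁.1) va := hunit va 1 hs1 hva1 hva2
  have hub : 𝒢.U1 (𝒜.cls w₁.1) vb := hunit vb (-1) hs2 hvb1 hvb2
  have hvab : va ≠ vb := by
    intro he
    rw [he, hvb1] at hva1
    linarith
  set a : Bdry σ (R.pt w₁.1 w₁.2 (0, 0)) := (plane_ray R h w₁ (0, 0) hua).toBdry with ha
  set a' : Bdry σ (R.pt w₁.1 w₁.2 (0, 0)) := (plane_ray R h w₁ (0, 0) hub).toBdry with ha'
  have hac : ∀ t, 0 ≤ t → a.c t = R.pt w₁.1 w₁.2 (rho (0, 0) va t) :=
    fun t ht => RRay.toBdry_c _ ht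
  have hac' : ∀ t, 0 ≤ t → a'.c t = R.pt w₁.1 w₁.2 (rho (0, 0) vb t) :=
    fun t ht => RRay.toBdry_c _ ht
  have hne : a ≠ a' := by
    intro he
    have h1 : a.c 1 = a'.c 1 := by rw [he]
    rw [hac 1 zero_le_one, hac' 1 zero_le_one] at h1
    have h2 := R.pt_inj h1
    apply hvab
    unfold rho at h2
    rw [Prod.mk.injEq] at h2
    ext
    · linarith [h2.1]
    · linarith [h2.2]
  obtain ⟨U, hU, V, hV, hfin⟩ := hnul a a' hne
  obtain ⟨T, hT, ε, hε, hTU⟩ := (Bdry.mem_nhds_iff h _ _).1 hU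
  obtain ⟨T', hT', ε', hε', hTV⟩ := (Bdry.mem_nhds_iff h _ _).1 hV
  obtain ⟨N, hN⟩ := exists_nat_gt (max T T' + 1)
  have hN1 : T < N - 1 := by linarith [le_max_left T T']
  have hN2 : T' < N - 1 := by linarith [le_max_right T T']
  obtain ⟨k₀, hk₀, hav⟩ := avail w₁ b
  rw [abs_le] at hk₀
  have hN0 : (1:ℝ) < N := by linarith
  set kk : ℕ → ℤ := fun n => k₀ + 2 * ((N + n : ℕ) : ℤ) with hkk
  have hkN : ∀ n, (N:ℝ) - 1 ≤ kk n := by
    intro n
    simp only [hkk]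
    push_cast
    have : (0:ℝ) ≤ n := Nat.cast_nonneg n
    linarith [hk₀.1]
  have hkpos : ∀ n, 0 < kk n := by
    intro n
    have h1 := hkN n
    have h2 : (0:ℝ) < kk n := by linarith
    exact_mod_cast h2
  have hkinj : ∀ n m, kk n = kk m → n = m := by
    intro n m hnm
    simp only [hkk] at hnm
    omega
  choose! τ hτ1 hτ2 using hτ
  have hτpos : ∀ n, 0 < τ (kk n) := by
    intro n
    have h1 := hτ1 (kk n) (hkpos n)
    have h2 : (0:ℝ) < kk n := by exact_mod_cast hkpos n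
    linarith
  have hra := fun n => fr_ray R h (hV := hav ((N + n : ℕ) : ℤ)) hκ (hτpos n) hua hva1 hva2
    (hdir 1).1 (hdir 1).2 hs1 (hτ2 (kk n) (hkpos n))
  have hrb := fun n => fr_ray R h (hV := hav ((N + n : ℕ) : ℤ)) hκ (hτpos n) hub hvb1 hvb2
    (hdir (-1)).1 (hdir (-1)).2 hs2 (hτ2 (kk n) (hkpos n))
  set xx : ℕ → Bdry σ (R.pt w₁.1 w₁.2 (0, 0)) := fun n => (hra n).2.toBdry with hxx
  set yy : ℕ → Bdry σ (R.pt w₁.1 w₁.2 (0, 0)) := fun n => (hrb n).2.toBdry with hyy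
  set wn : ℕ → VP := fun n => ⟨w₁.1 * W.of (b, kk n), hav ((N + n : ℕ) : ℤ)⟩ with hwn
  have hxa : ∀ n, Asym R (wn n) (pd (!b) 1) (xx n) := by
    intro n
    apply Asym.of_large R (rho (rho (0, 0) va (τ (kk n))) (pd (!b) 1) (-τ (kk n))) (C := 0)
      (b := τ (kk n))
    · intro t ht1 ht0
      have e1 : (xx n).c t = fr R w₁ (b, kk n) (hav ((N + n : ℕ) : ℤ)) va (pd (!b) 1)
        (τ (kk n)) t := RRay.toBdry_c _ ht0
      rw [e1, fr_ge R (hra n).1 ht1]
      have : rho (rho (0, 0) va (τ (kk n))) (pd (!b) 1) (t - τ (kk n)) =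
          rho (rho (rho (0, 0) va (τ (kk n))) (pd (!b) 1) (-τ (kk n))) (pd (!b) 1) t := by
        unfold rho
        ext <;> simp only <;> ring
      rw [this]
      exact (dist_self _).le
    · exact pd_unit _ _ hs1
  have hya : ∀ n, Asym R (wn n) (pd (!b) (-1)) (yy n) := by
    intro n
    apply Asym.of_large R (rho (rho (0, 0) vb (τ (kk n))) (pd (!b) (-1)) (-τ (kk n))) (C := 0)
      (b := τ (kk n))
    · intro t ht1 ht0
      have e1 : (yy n).c t = fr R w₁ (b, kk n) (hav ((N + n : ℕ) : ℤ)) vb (pd (!b) (-1))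
        (τ (kk n)) t := RRay.toBdry_c _ ht0
      rw [e1, fr_ge R (hrb n).1 ht1]
      have : rho (rho (0, 0) vb (τ (kk n))) (pd (!b) (-1)) (t - τ (kk n)) =
          rho (rho (rho (0, 0) vb (τ (kk n))) (pd (!b) (-1)) (-τ (kk n))) (pd (!b) (-1)) t := by
        unfold rho
        ext <;> simp only <;> ring
      rw [this]
      exact (dist_self _).le
    · exact pd_unit _ _ hs2
  have hlink : ∀ n, Linked x y (xx n) (yy n) := by
    intro n
    rw [linked_iff R h hxy]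
    exact ⟨wn n, Blk.step w₁ _, 1, hs1, hxa n, hya n⟩
  have hxinj : ∀ n m : ℕ, n ≠ m → xx n ≠ xx m := by
    intro n m hnm he
    have hkne : kk n ≠ kk m := fun hc => hnm (hkinj n m hc)
    have hword : ((wn n : Pl)⁻¹ * wn m).val = [(b, kk n), (b, kk m)] := by
      show ((w₁.1 * W.of (b, kk n))⁻¹ * (w₁.1 * W.of (b, kk m))).val = _
      have h1 : (w₁.1 * W.of (b, kk n))⁻¹ * (w₁.1 * W.of (b, kk m)) =
          W.of (b, kk n) * W.of (b, kk m) := by
        rw [mul_inv_rev, W.of_inv, mul_assoc, inv_mul_cancel_left]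
      rw [h1]
      exact W.mul_val_of_red (x := W.of (b, kk n)) (y := W.of (b, kk m))
        (red_cons_cons.2 ⟨fun hc => hkne (congrArg Prod.snd hc), red_singleton _⟩)
    have h1 := hxa n
    rw [he] at h1
    obtain ⟨s, hs, h2⟩ := Asym.meet R h hword (pd_unit _ _ hs1) h1 (hxa m)
    exact pd_ne b (by rcases hs with rfl | rfl <;> norm_num) h2.symm
  apply hfin.not_infinite
  apply Set.infinite_of_injective_forall_mem (f := fun n : ℕ => (xx n, yy n))
  · intro n m hnm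
    simp only [Prod.mk.injEq] at hnm
    by_contra hne'
    exact hxinj n m hne' hnm.1
  · intro n
    have hk1 := hkN n
    have hk2 := hτ1 (kk n) (hkpos n)
    refine ⟨hTU _ ?_, hTV _ ?_, hlink n⟩
    · show dist ((xx n).c T) _ < ε
      have e1 : (xx n).c T = fr R w₁ (b, kk n) (hav ((N + n : ℕ) : ℤ)) va (pd (!b) 1)
        (τ (kk n)) T := RRay.toBdry_c _ hT.le
      rw [e1, fr_le R (by linarith), hac _ hT.le, dist_self]
      exact hε
    · show dist ((yy n).c T') _ < ε'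
      have e1 : (yy n).c T' = fr R w₁ (b, kk n) (hav ((N + n : ℕ) : ℤ)) vb (pd (!b) (-1))
        (τ (kk n)) T' := RRay.toBdry_c _ hT'.le
      rw [e1, fr_le R (by linarith), hac' _ hT'.le, dist_self]
      exact hε'

include h in
/-- characterisation of the null property -/
theorem nul_iff {p : Y} {w₀ : VP} {b : Bool} {x y : Bdry σ p} (hxy : IsPoles R w₀ b x y) :
    Nul x y ↔ 𝒢.κ (𝒜.cls w₀.1) = none ∧ 𝒢.κ (𝒜.nx b (𝒜.cls w₀.1)) = none := by
  constructor
  · intro hn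
    by_contra hcon
    obtain ⟨w₁, hb, hk⟩ : ∃ w₁ : VP, Blk b w₀ w₁ ∧ 𝒢.κ (𝒜.nx b (𝒜.cls w₁.1)) ≠ none := by
      rcases not_and_or.1 hcon with h1 | h1
      · obtain ⟨k₀, -, hav⟩ := avail w₀ b
        refine ⟨⟨_, hav 0⟩, Blk.step w₀ _, ?_⟩
        rw [𝒜.cls_mul_of, 𝒜.inv]
        exact h1
      · exact ⟨w₀, Blk.refl _ _, h1⟩
    have h2 := (hxy.blk R hb).move R h (R.pt w₁.1 w₁.2 (0, 0))
    exact not_nul_base R h rfl hk h2 ((Nul.map_iff (moveHomeo h p (R.pt w₁.1 w₁.2 (0, 0)))).2 hn)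
  · rintro ⟨h1, h2⟩
    exact nul_of_none R h h1 h2 hxy

end

end Run7.h484.K

end

section

/-! The invariants of the boundaries, and the final statement. -/

namespace Run7.h484.K

universe u

open Set Filter Topology

section

variable {𝒜 : Auto}

/-- combinatorial version of `Dm` -/
def dmc (𝒢 : Geo 𝒜) : ℕ → 𝒜.C → Bool → Prop
  | 0 => fun c b => ¬ (𝒢.κ c = none ∧ 𝒢.κ (𝒜.nx b c) = none)
  | m + 1 => fun c b => dmc 𝒢 m c b ∨ dmc 𝒢 m c (!b) ∨ dmc 𝒢 m (𝒜.nx b c) (!b)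

variable {𝒢 : Geo 𝒜} {Y : Type u} [MetricSpace Y] (R : Rz 𝒢 Y) {σ : Y → Y → ℝ → Y}
  (h : IsBicombing σ) [CompleteSpace Y]

include h in
theorem dm_iff (m : ℕ) : ∀ {p : Y} {w : VP} {b : Bool} {x y : Bdry σ p}, IsPoles R w b x y →
    (Dm m x y ↔ dmc 𝒢 m (𝒜.cls w.1) b) := by
  induction m with
  | zero =>
    intro p w b x y hxy
    show (FiveCut x y ∧ ¬ Nul x y) ↔ _
    rw [nul_iff R h hxy]
    exact ⟨fun h1 => h1.2, fun h1 => ⟨hxy.fiveCut R h, h1⟩⟩
  | succ m ih =>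
    intro p w b x y hxy
    show (Dm m x y ∨ ∃ x' y', Linked x y x' y' ∧ Dm m x' y') ↔
      (dmc 𝒢 m (𝒜.cls w.1) b ∨ dmc 𝒢 m (𝒜.cls w.1) (!b) ∨ dmc 𝒢 m (𝒜.nx b (𝒜.cls w.1)) (!b))
    constructor
    · rintro (h1 | ⟨x', y', h1, h2⟩)
      · exact Or.inl ((ih hxy).1 h1)
      · right
        obtain ⟨w₁, hb, hp⟩ := (linked_iff R h hxy).1 h1
        have h3 := (ih hp).1 h2
        rcases hb.cls 𝒜 with h4 | h4
        · left; rw [← h4]; exact h3
        · right; rw [← h4]; exact h3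
    · rintro (h1 | h1 | h1)
      · exact Or.inl ((ih hxy).2 h1)
      · right
        obtain ⟨x', y', hp⟩ := exists_poles R h p w (!b)
        exact ⟨x', y', (linked_iff R h hxy).2 ⟨w, Blk.refl _ _, hp⟩, (ih hp).2 h1⟩
      · right
        obtain ⟨k₀, -, hav⟩ := avail w b
        set w₁ : VP := ⟨w.1 * W.of (b, k₀ + 2 * 0), hav 0⟩ with hw₁
        obtain ⟨x', y', hp⟩ := exists_poles R h p w₁ (!b)
        refine ⟨x', y', (linked_iff R h hxy).2 ⟨w₁, Blk.step w _, hp⟩, (ih hp).2 ?_⟩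
        have : 𝒜.cls w₁.1 = 𝒜.nx b (𝒜.cls w.1) := 𝒜.cls_mul_of _ _
        rw [this]
        exact h1

include R h in
theorem inv_iff (r : ℕ) (p : Y) :
    Inv r (Bdry σ p) ↔ ∀ (w : VP) (b : Bool), dmc 𝒢 r (𝒜.cls w.1) b := by
  constructor
  · intro hI w b
    obtain ⟨x, y, hp⟩ := exists_poles R h p w b
    exact (dm_iff R h r hp).1 (hI x y (hp.fiveCut R h))
  · intro hI x y hxy
    obtain ⟨w, b, hp⟩ := fiveCut_poles R h hxy
    exact (dm_iff R h r hp).2 (hI w b)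

end

/-! ### The examples -/

/-- parity as a Boolean -/
def bpar (i : ℕ) : Bool := decide (i % 2 = 1)

theorem bpar_succ (i : ℕ) : bpar (i + 1) = !bpar i := by
  unfold bpar
  rcases Nat.mod_two_eq_zero_or_one i with h | h
  · have : (i + 1) % 2 = 1 := by omega
    rw [h, this]; rfl
  · have : (i + 1) % 2 = 0 := by omega
    rw [h, this]; rfl

/-- crossing a line of type `b` from a plane of class `i` -/
def nxf (m : ℕ) (b : Bool) (i : ℕ) : ℕ :=
  if b = bpar i then i - 1 else if i + 1 < m then i + 1 else i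

theorem nxf_lt {m i : ℕ} (b : Bool) (hi : i < m) : nxf m b i < m := by
  unfold nxf
  split_ifs <;> omega

theorem nxf_inv (m : ℕ) (b : Bool) (i : ℕ) (hi : i < m) : nxf m b (nxf m b i) = i := by
  by_cases h1 : b = bpar i
  · have e1 : nxf m b i = i - 1 := if_pos h1
    rw [e1]
    rcases i with _ | i
    · exact if_pos h1
    · have h2 : b ≠ bpar i := by
        rw [h1, bpar_succ]; cases bpar i <;> simp
      rw [Nat.add_sub_cancel]
      unfold nxf
      rw [if_neg h2, if_pos hi]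
  · by_cases h3 : i + 1 < m
    · have e1 : nxf m b i = i + 1 := by unfold nxf; rw [if_neg h1, if_pos h3]
      rw [e1]
      have h2 : b = bpar (i + 1) := by
        rw [bpar_succ]; revert h1; cases b <;> cases bpar i <;> simp
      unfold nxf
      rw [if_pos h2, Nat.add_sub_cancel]
    · have e1 : nxf m b i = i := by unfold nxf; rw [if_neg h1, if_neg h3]
      rw [e1, e1]

/-- a segment of `n + 1` classes -/
def seg (n : ℕ) : Auto where
  C := Fin (n + 1)
  nx b i := ⟨nxf (n + 1) b i.1, nxf_lt b i.2⟩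
  inv b i := Fin.ext (nxf_inv (n + 1) b i.1 i.2)
  c0 := 0

/-- the type of the planes of class `i` in the `k`-th geometry -/
def kap (k i : ℕ) : Option Bool :=
  if i < k then none else if (i - k) % 2 = 0 then some (bpar (i + 1)) else some (bpar i)

theorem kap_none {k i : ℕ} : kap k i = none ↔ i < k := by
  unfold kap
  split_ifs with h1 h2 <;> simp [h1]

theorem kap_comp (m k : ℕ) (b : Bool) (i : ℕ) (h : kap k i = some b) :
    kap k (nxf m b i) = some b := by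
  have h1 : ¬ i < k := by
    intro h1
    rw [kap_none.2 h1] at h
    cases h
  by_cases h2 : (i - k) % 2 = 0
  · have e1 : kap k i = some (bpar (i + 1)) := by unfold kap; rw [if_neg h1, if_pos h2]
    rw [e1] at h
    have e2 : bpar (i + 1) = b := Option.some.inj h
    have h3 : b ≠ bpar i := by
      rw [← e2, bpar_succ]; cases bpar i <;> simp
    by_cases h4 : i + 1 < m
    · have e3 : nxf m b i = i + 1 := by unfold nxf; rw [if_neg h3, if_pos h4]
      rw [e3]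
      unfold kap
      rw [if_neg (by omega), if_neg (by omega), e2]
    · have e3 : nxf m b i = i := by unfold nxf; rw [if_neg h3, if_neg h4]
      rw [e3, e1, e2]
  · have e1 : kap k i = some (bpar i) := by unfold kap; rw [if_neg h1, if_neg h2]
    rw [e1] at h
    have e2 : bpar i = b := Option.some.inj h
    have e3 : nxf m b i = i - 1 := if_pos e2.symm
    rw [e3]
    unfold kap
    rw [if_neg (by omega), if_pos (by omega)]
    have : i - 1 + 1 = i := by omega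
    rw [this, e2]

/-- the `k`-th geometry -/
def geo (n k : ℕ) : Geo (seg n) where
  κ i := kap k i.1
  comp b i hi := kap_comp (n + 1) k b i.1 hi

/-- index of a line class -/
def jj (i : ℕ) (b : Bool) : ℕ := if b = bpar i then i else i + 1

theorem dmc_geo (n k : ℕ) (hk : k ≤ n) (r : ℕ) : ∀ (i : Fin (n + 1)) (b : Bool),
    dmc (geo n k) r i b ↔ k ≤ jj i.1 b + r := by
  induction r with
  | zero =>
    intro i b
    show ¬ (kap k i.1 = none ∧ kap k (nxf (n + 1) b i.1) = none) ↔ _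
    rw [kap_none, kap_none]
    have hi := i.2
    unfold jj nxf
    split_ifs <;> omega
  | succ r ih =>
    intro i b
    show (dmc (geo n k) r i b ∨ dmc (geo n k) r i (!b) ∨
      dmc (geo n k) r ⟨nxf (n + 1) b i.1, nxf_lt b i.2⟩ (!b)) ↔ _
    rw [ih, ih, ih]
    simp only
    have hi := i.2
    by_cases h1 : b = bpar i.1
    · have h2 : (!b) ≠ bpar i.1 := by rw [h1]; cases bpar i.1 <;> simp
      have e1 : jj i.1 b = i.1 := if_pos h1
      have e2 : jj i.1 (!b) = i.1 + 1 := if_neg h2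
      rw [e1, e2]
      have e3 : nxf (n + 1) b i.1 = i.1 - 1 := if_pos h1
      rw [e3]
      have h4 : jj (i.1 - 1) (!b) ≤ i.1 + 1 := by unfold jj; split_ifs <;> omega
      omega
    · have h2 : (!b) = bpar i.1 := by
        revert h1; cases b <;> cases bpar i.1 <;> simp
      have e1 : jj i.1 b = i.1 + 1 := if_neg h1
      have e2 : jj i.1 (!b) = i.1 := if_pos h2
      rw [e1, e2]
      by_cases h3 : i.1 + 1 < n + 1
      · have e3 : nxf (n + 1) b i.1 = i.1 + 1 := by unfold nxf; rw [if_neg h1, if_pos h3]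
        rw [e3]
        have h4 : (!b) ≠ bpar (i.1 + 1) := by
          rw [bpar_succ, h2]; cases bpar i.1 <;> simp
        have e4 : jj (i.1 + 1) (!b) = i.1 + 1 + 1 := if_neg h4
        rw [e4]
        omega
      · have e3 : nxf (n + 1) b i.1 = i.1 := by unfold nxf; rw [if_neg h1, if_neg h3]
        rw [e3, e2]
        omega

theorem inv_geo {n k : ℕ} (hk : k ≤ n) {σ : XX (geo n k) → XX (geo n k) → ℝ → XX (geo n k)}
    (h : IsBicombing σ) (r : ℕ) (p : XX (geo n k)) : Inv r (Bdry σ p) ↔ k ≤ r := by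
  rw [inv_iff (rzX (geo n k)) h]
  constructor
  · intro hI
    have h1 := hI ⟨1, one_mem_VP⟩ (bpar 0)
    have h2 := (dmc_geo n k hk r (0 : Fin (n + 1)) (bpar 0)).1 h1
    have h3 : jj (0 : Fin (n + 1)).1 (bpar 0) = 0 := if_pos rfl
    rw [h3] at h2
    omega
  · intro hr w b
    exact (dmc_geo n k hk r _ b).2 (by omega)

/-- For every `n` some group acts geometrically on `n` admissible spaces with pairwise
non-homeomorphic boundaries. -/
theorem many_boundaries (n : ℕ) :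
    ∃ (G : Type) (_ : Group G) (X : Fin n → Type) (_ : ∀ i, MetricSpace (X i))
      (_ : ∀ i, MulAction G (X i)),
      (∀ i, Admissible (X i)) ∧ (∀ i, IsGeometric G (X i)) ∧
      (∀ i, ∃ σ : X i → X i → ℝ → X i, IsConvexBicombing σ ∧ IsBicombing σ ∧
        ∀ τ : X i → X i → ℝ → X i, IsConvexBicombing τ →
          ∀ x y, ∀ t ∈ Set.Icc (0 : ℝ) 1, τ x y t = σ x y t) ∧
      ∀ i j, i ≠ j → ∀ (σ : X i → X i → ℝ → X i) (τ : X j → X j → ℝ → X j),
        IsConvexBicombing σ → IsConvexBicombing τ → ∀ p q, IsEmpty (Bdry σ p ≃ₜ Bdry τ q) := by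
  have : Finite (seg n).C := inferInstanceAs (Finite (Fin (n + 1)))
  refine ⟨GC (seg n), inferInstance, fun i => XX (geo n i.1), fun i => inferInstance,
    fun i => inferInstance, fun i => admissible _, fun i => geometric _, ?_, ?_⟩
  · intro i
    obtain ⟨σ, hσ⟩ := exists_bic (geo n i.1)
    exact ⟨σ, isConvexBicombing_of hσ, hσ,
      fun τ hτ x y t ht => hτ.eq (locUniqX (geo n i.1)) hσ x y ht⟩
  · intro i j hij σ τ hσ hτ p q
    refine ⟨fun e => ?_⟩
    have h1 := inv_geo i.2.le hσ.isBicombingX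
    have h2 := inv_geo j.2.le hτ.isBicombingX
    have h3 := fun r : ℕ => (⟨fun hI => hI.map e, fun hI => hI.map e.symm⟩ :
      Inv r (Bdry σ p) ↔ Inv r (Bdry τ q))
    have h4 : ∀ r : ℕ, i.1 ≤ r ↔ j.1 ≤ r := fun r => (h1 r p).symm.trans ((h3 r).trans (h2 r q))
    apply hij
    apply Fin.ext
    exact le_antisymm ((h4 j.1).2 le_rfl) ((h4 i.1).1 le_rfl)

end Run7.h484.K

end
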