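import Pool.Agent.Run7.h484.Grp
import Pool.Agent.Run7.h484.LUa

/-! Trees of planes with several kinds of planes: geometry of one plane. -/

namespace Run7.h484.K

open Set

/-- classes of planes; crossing a line of type `b` leads from class `c` to class `nx b c` -/
structure Auto where
  C : Type
  nx : Bool → C → C
  inv : ∀ b c, nx b (nx b c) = c
  c0 : C

/-- the geometry: in a plane of class `c` with `κ c = none` both families of lines are diagonal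
(the plane is an `ℓ¹` plane and the lines are parallel to its axes), for `κ c = some b` the lines of
type `b` are parallel to an axis of the `ℓ^∞` plane, and the other ones are diagonal. -/
structure Geo (𝒜 : Auto) where
  κ : 𝒜.C → Option Bool
  comp : ∀ b c, κ c = some b → κ (𝒜.nx b c) = some b

/-- the sum of the coordinates -/
def sm (z : ℝ × ℝ) : ℝ := z.1 + z.2

/-- the point with given coordinates -/
def mkp (b : Bool) (a p : ℝ) : ℝ × ℝ := if b then (p, a) else (a, p)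

@[simp] theorem alc_mkp (b : Bool) (a p : ℝ) : alc b (mkp b a p) = a := by
  cases b <;> rfl

@[simp] theorem pec_mkp (b : Bool) (a p : ℝ) : pec b (mkp b a p) = p := by
  cases b <;> rfl

theorem sm_eq (b : Bool) (z : ℝ × ℝ) : sm z = alc b z + pec b z := by
  cases b
  · rfl
  · show z.1 + z.2 = z.2 + z.1
    ring

@[simp] theorem sm_mkp (b : Bool) (a p : ℝ) : sm (mkp b a p) = a + p := by
  rw [sm_eq b, alc_mkp, pec_mkp]

@[simp] theorem alc_not (b : Bool) (z : ℝ × ℝ) : alc (!b) z = pec b z := by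
  cases b <;> rfl

@[simp] theorem pec_not (b : Bool) (z : ℝ × ℝ) : pec (!b) z = alc b z := by
  cases b <;> rfl

theorem mkp_eta (b : Bool) (z : ℝ × ℝ) : mkp b (alc b z) (pec b z) = z := by
  cases b <;> rfl

theorem N1_eq (b : Bool) (z z' : ℝ × ℝ) :
    N1 z z' = |alc b z - alc b z'| + |pec b z - pec b z'| := by
  cases b
  · rfl
  · show |z.1 - z'.1| + |z.2 - z'.2| = |z.2 - z'.2| + |z.1 - z'.1|
    ring

/-- the lines -/
def line (e : Letter) : Set (ℝ × ℝ) := {z | pec e.1 z = e.2}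

variable {𝒜 : Auto} (𝒢 : Geo 𝒜)

namespace Geo

theorem comp_iff (b : Bool) (c : 𝒜.C) : 𝒢.κ (𝒜.nx b c) = some b ↔ 𝒢.κ c = some b := by
  constructor
  · intro h
    have := 𝒢.comp b _ h
    rwa [𝒜.inv] at this
  · exact 𝒢.comp b c

/-- the distance in a plane of class `c` -/
noncomputable def N (c : 𝒜.C) (z z' : ℝ × ℝ) : ℝ :=
  match 𝒢.κ c with
  | none => N1 z z'
  | some b => max |sm z - sm z'| |pec b z - pec b z'|

theorem N_none {c : 𝒜.C} (h : 𝒢.κ c = none) (z z' : ℝ × ℝ) : 𝒢.N c z z' = N1 z z' := by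
  unfold N; rw [h]

theorem N_some {c : 𝒜.C} {b : Bool} (h : 𝒢.κ c = some b) (z z' : ℝ × ℝ) :
    𝒢.N c z z' = max |sm z - sm z'| |pec b z - pec b z'| := by
  unfold N; rw [h]

theorem N_self (c : 𝒜.C) (z : ℝ × ℝ) : 𝒢.N c z z = 0 := by
  rcases h : 𝒢.κ c with _ | b
  · rw [N_none 𝒢 h]; simp [N1]
  · rw [N_some 𝒢 h]; simp

theorem N_comm (c : 𝒜.C) (z z' : ℝ × ℝ) : 𝒢.N c z z' = 𝒢.N c z' z := by
  rcases h : 𝒢.κ c with _ | b
  · rw [N_none 𝒢 h, N_none 𝒢 h, N1_comm]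
  · rw [N_some 𝒢 h, N_some 𝒢 h, abs_sub_comm, abs_sub_comm (pec b z)]

theorem max_tri (a b c a' b' c' : ℝ) :
    max |a - c| |a' - c'| ≤ max |a - b| |a' - b'| + max |b - c| |b' - c'| := by
  have h1 := abs_sub_le a b c
  have h2 := abs_sub_le a' b' c'
  apply max_le
  · linarith [le_max_left |a - b| |a' - b'|, le_max_left |b - c| |b' - c'|]
  · linarith [le_max_right |a - b| |a' - b'|, le_max_right |b - c| |b' - c'|]

theorem N_tri (c : 𝒜.C) (z z' z'' : ℝ × ℝ) : 𝒢.N c z z'' ≤ 𝒢.N c z z' + 𝒢.N c z' z'' := by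
  rcases h : 𝒢.κ c with _ | b
  · rw [N_none 𝒢 h, N_none 𝒢 h, N_none 𝒢 h]; exact N1_tri _ _ _
  · rw [N_some 𝒢 h, N_some 𝒢 h, N_some 𝒢 h]; exact max_tri _ _ _ _ _ _

/-- on a line the distance is the difference of the parameters -/
theorem N_line (c : 𝒜.C) {e : Letter} {q q' : ℝ × ℝ} (hq : q ∈ line e) (hq' : q' ∈ line e) :
    𝒢.N c q q' = |alc e.1 q - alc e.1 q'| := by
  have h1 : pec e.1 q = e.2 := hq
  have h2 : pec e.1 q' = e.2 := hq'
  rcases h : 𝒢.κ c with _ | b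
  · rw [N_none 𝒢 h, N1_eq e.1, h1, h2, sub_self, abs_zero, add_zero]
  · rw [N_some 𝒢 h]
    by_cases hb : e.1 = b
    · subst hb
      rw [sm_eq e.1, sm_eq e.1, h1, h2, sub_self, abs_zero, max_eq_left (abs_nonneg _)]
      congr 1; ring
    · have hb' : b = !e.1 := by
        revert hb; cases b <;> cases e.1 <;> simp
      subst hb'
      rw [pec_not, pec_not, sm_eq e.1, sm_eq e.1, h1, h2]
      rw [show alc e.1 q + (e.2:ℝ) - (alc e.1 q' + e.2) = alc e.1 q - alc e.1 q' by ring, max_self]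

/-- Lipschitz bounds for the coordinates -/
theorem lo (c : 𝒜.C) (b : Bool) (z z' : ℝ × ℝ) : |pec b z - pec b z'| ≤ 2 * 𝒢.N c z z' := by
  rcases h : 𝒢.κ c with _ | b'
  · rw [N_none 𝒢 h, N1_eq b]
    have := abs_nonneg (alc b z - alc b z')
    have := abs_nonneg (pec b z - pec b z')
    linarith
  · rw [N_some 𝒢 h]
    have h1 := le_max_left |sm z - sm z'| |pec b' z - pec b' z'|
    have h2 := le_max_right |sm z - sm z'| |pec b' z - pec b' z'|
    by_cases hb : b = b'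
    · subst hb
      have := abs_nonneg (pec b z - pec b z')
      linarith
    · have hb' : b = !b' := by
        revert hb; cases b <;> cases b' <;> simp
      subst hb'
      rw [pec_not, pec_not]
      have h3 : |alc b' z - alc b' z'| ≤ |sm z - sm z'| + |pec b' z - pec b' z'| := by
        rw [sm_eq b', sm_eq b']
        have := abs_sub (alc b' z + pec b' z - (alc b' z' + pec b' z')) (pec b' z - pec b' z')
        rwa [show alc b' z + pec b' z - (alc b' z' + pec b' z') - (pec b' z - pec b' z') =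
          alc b' z - alc b' z' by ring] at this
      linarith

theorem lo_fst (c : 𝒜.C) (z z' : ℝ × ℝ) : |z.1 - z'.1| ≤ 2 * 𝒢.N c z z' := 𝒢.lo c true z z'
theorem lo_snd (c : 𝒜.C) (z z' : ℝ × ℝ) : |z.2 - z'.2| ≤ 2 * 𝒢.N c z z' := 𝒢.lo c false z z'

theorem hi (c : 𝒜.C) (z z' : ℝ × ℝ) : 𝒢.N c z z' ≤ N1 z z' := by
  rcases h : 𝒢.κ c with _ | b
  · rw [N_none 𝒢 h]
  · rw [N_some 𝒢 h, sm_eq b, sm_eq b, N1_eq b]
    apply max_le
    · rw [show alc b z + pec b z - (alc b z' + pec b z') = (alc b z - alc b z') +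
        (pec b z - pec b z') by ring]
      exact abs_add_le _ _
    · have := abs_nonneg (alc b z - alc b z')
      linarith

theorem N_nonneg (c : 𝒜.C) (z z' : ℝ × ℝ) : 0 ≤ 𝒢.N c z z' := by
  have := 𝒢.lo c true z z'
  have := abs_nonneg (pec true z - pec true z')
  linarith

theorem N1_le (c : 𝒜.C) (z z' : ℝ × ℝ) : N1 z z' ≤ 4 * 𝒢.N c z z' := by
  have h1 := 𝒢.lo_fst c z z'
  have h2 := 𝒢.lo_snd c z z'
  unfold N1; linarith

theorem N_eq_zero {c : 𝒜.C} {z z' : ℝ × ℝ} (h : 𝒢.N c z z' ≤ 0) : z = z' := by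
  have h1 := 𝒢.lo_fst c z z'
  have h2 := 𝒢.lo_snd c z z'
  have e1 := abs_nonpos_iff.1 (by linarith : |z.1 - z'.1| ≤ 0)
  have e2 := abs_nonpos_iff.1 (by linarith : |z.2 - z'.2| ≤ 0)
  ext <;> linarith

theorem N_add (c : 𝒜.C) (z z' v : ℝ × ℝ) : 𝒢.N c (z + v) (z' + v) = 𝒢.N c z z' := by
  have hp : ∀ b, ∀ z : ℝ × ℝ, pec b (z + v) = pec b z + pec b v := by
    intro b z; cases b <;> rfl
  have hs : ∀ z : ℝ × ℝ, sm (z + v) = sm z + sm v := by
    intro z; show z.1 + v.1 + (z.2 + v.2) = z.1 + z.2 + (v.1 + v.2); ring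
  rcases h : 𝒢.κ c with _ | b
  · rw [N_none 𝒢 h, N_none 𝒢 h]
    show |z.1 + v.1 - (z'.1 + v.1)| + |z.2 + v.2 - (z'.2 + v.2)| = _
    rw [add_sub_add_right_eq_sub, add_sub_add_right_eq_sub]; rfl
  · rw [N_some 𝒢 h, N_some 𝒢 h, hp, hp, hs, hs, add_sub_add_right_eq_sub,
      add_sub_add_right_eq_sub]

end Geo

/-! ### States -/

/-- description of the distance to a point, seen in a plane of class `c` -/
structure St (𝒜 : Auto) where
  c : 𝒜.C
  D : ℝ
  h : ℝ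
  g : ℝ × ℝ
  hh : 0 ≤ h

namespace Geo

/-- evaluation of a state -/
noncomputable def ev (S : St 𝒜) (z : ℝ × ℝ) : ℝ :=
  match 𝒢.κ S.c with
  | none => S.D + N1 S.g z
  | some b => S.D + max |sm z - sm S.g| (S.h + |pec b z - pec b S.g|)

theorem ev_none {S : St 𝒜} (h : 𝒢.κ S.c = none) (z : ℝ × ℝ) : 𝒢.ev S z = S.D + N1 S.g z := by
  unfold ev; rw [h]

theorem ev_some {S : St 𝒜} {b : Bool} (h : 𝒢.κ S.c = some b) (z : ℝ × ℝ) :
    𝒢.ev S z = S.D + max |sm z - sm S.g| (S.h + |pec b z - pec b S.g|) := by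
  unfold ev; rw [h]

/-- a state with `h = 0` is a cone -/
theorem ev_cone {S : St 𝒜} (h : S.h = 0) (z : ℝ × ℝ) : 𝒢.ev S z = S.D + 𝒢.N S.c S.g z := by
  rcases hk : 𝒢.κ S.c with _ | b
  · rw [ev_none 𝒢 hk, N_none 𝒢 hk]
  · rw [ev_some 𝒢 hk, N_some 𝒢 hk, h, zero_add, abs_sub_comm (sm z), abs_sub_comm (pec b z)]

/-- transport of a state through the line `e` -/
noncomputable def tr (e : Letter) (S : St 𝒜) : St 𝒜 :=
  match 𝒢.κ S.c with
  | none => ⟨𝒜.nx e.1 S.c, S.D + |pec e.1 S.g - e.2|, 0, mkp e.1 (alc e.1 S.g) e.2, le_refl 0⟩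
  | some b =>
    if e.1 = b then
      ⟨𝒜.nx e.1 S.c, S.D, S.h + |pec e.1 S.g - e.2|, mkp e.1 (sm S.g - e.2) e.2,
        add_nonneg S.hh (abs_nonneg _)⟩
    else
      ⟨𝒜.nx e.1 S.c, S.D + (S.h + |pec e.1 S.g - e.2 - cl (pec e.1 S.g - e.2) S.h| / 2), 0,
        mkp e.1 (alc e.1 S.g + (pec e.1 S.g - e.2 - cl (pec e.1 S.g - e.2) S.h) / 2) e.2,
        le_refl 0⟩

theorem tr_none {S : St 𝒜} (h : 𝒢.κ S.c = none) (e : Letter) : 𝒢.tr e S =
    ⟨𝒜.nx e.1 S.c, S.D + |pec e.1 S.g - e.2|, 0, mkp e.1 (alc e.1 S.g) e.2, le_refl 0⟩ := by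
  unfold tr
  split
  · rfl
  · rename_i b hb; rw [h] at hb; cases hb

theorem tr_axis {S : St 𝒜} {e : Letter} (h : 𝒢.κ S.c = some e.1) : 𝒢.tr e S =
    ⟨𝒜.nx e.1 S.c, S.D, S.h + |pec e.1 S.g - e.2|, mkp e.1 (sm S.g - e.2) e.2,
        add_nonneg S.hh (abs_nonneg _)⟩ := by
  unfold tr
  split
  · rename_i hb; rw [h] at hb; cases hb
  · rename_i b hb
    rw [h] at hb
    cases hb
    rw [if_pos rfl]

theorem tr_diag {S : St 𝒜} {e : Letter} (h : 𝒢.κ S.c = some (!e.1)) : 𝒢.tr e S =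
    ⟨𝒜.nx e.1 S.c, S.D + (S.h + |pec e.1 S.g - e.2 - cl (pec e.1 S.g - e.2) S.h| / 2), 0,
        mkp e.1 (alc e.1 S.g + (pec e.1 S.g - e.2 - cl (pec e.1 S.g - e.2) S.h) / 2) e.2,
        le_refl 0⟩ := by
  unfold tr
  split
  · rename_i hb; rw [h] at hb; cases hb
  · rename_i b hb
    rw [h] at hb
    cases hb
    rw [if_neg (by cases e.1 <;> simp)]

/-- the three cases -/
theorem cases3 (c : 𝒜.C) (b : Bool) :
    𝒢.κ c = none ∨ 𝒢.κ c = some b ∨ 𝒢.κ c = some (!b) := by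
  rcases h : 𝒢.κ c with _ | b'
  · exact Or.inl rfl
  · right
    cases b <;> cases b' <;> simp

theorem not_axis {c : 𝒜.C} {b : Bool} (h : 𝒢.κ c = none ∨ 𝒢.κ c = some (!b)) :
    𝒢.κ c ≠ some b := by
  rcases h with h | h <;> rw [h] <;> cases b <;> simp

@[simp] theorem tr_c (e : Letter) (S : St 𝒜) : (𝒢.tr e S).c = 𝒜.nx e.1 S.c := by
  rcases 𝒢.cases3 S.c e.1 with h | h | h
  · rw [tr_none 𝒢 h]
  · rw [tr_axis 𝒢 h]
  · rw [tr_diag 𝒢 h]

theorem tr_mem (e : Letter) (S : St 𝒜) : (𝒢.tr e S).g ∈ line e := by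
  show pec e.1 _ = _
  rcases 𝒢.cases3 S.c e.1 with h | h | h
  · rw [tr_none 𝒢 h]; simp
  · rw [tr_axis 𝒢 h]; simp
  · rw [tr_diag 𝒢 h]; simp

/-- if the line is diagonal, the transported state is a cone -/
theorem tr_h {e : Letter} {S : St 𝒜} (h : 𝒢.κ S.c ≠ some e.1) : (𝒢.tr e S).h = 0 := by
  rcases 𝒢.cases3 S.c e.1 with h' | h' | h'
  · rw [tr_none 𝒢 h']
  · exact absurd h' h
  · rw [tr_diag 𝒢 h']

/-- restriction to a diagonal line -/
theorem ev_line {e : Letter} {S : St 𝒜} (h : 𝒢.κ S.c ≠ some e.1) {q : ℝ × ℝ} (hq : q ∈ line e) :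
    𝒢.ev S q = (𝒢.tr e S).D + |alc e.1 q - alc e.1 (𝒢.tr e S).g| := by
  have hq' : pec e.1 q = e.2 := hq
  rcases 𝒢.cases3 S.c e.1 with h' | h' | h'
  · rw [tr_none 𝒢 h', ev_none 𝒢 h', N1_eq e.1, hq']
    simp only [alc_mkp]
    rw [abs_sub_comm (alc e.1 S.g)]; ring
  · exact absurd h' h
  · rw [tr_diag 𝒢 h', ev_some 𝒢 h']
    simp only [alc_mkp, pec_not]
    rw [sm_eq e.1, sm_eq e.1, hq']
    have := diag_cone S.h (pec e.1 S.g - e.2) (alc e.1 q - alc e.1 S.g) S.hh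
    rw [show alc e.1 q + (e.2:ℝ) - (alc e.1 S.g + pec e.1 S.g) =
      alc e.1 q - alc e.1 S.g - (pec e.1 S.g - e.2) by ring, this]
    rw [show alc e.1 q - (alc e.1 S.g + (pec e.1 S.g - ↑e.2 - cl (pec e.1 S.g - ↑e.2) S.h) / 2) =
      alc e.1 q - alc e.1 S.g - (pec e.1 S.g - ↑e.2 - cl (pec e.1 S.g - ↑e.2) S.h) / 2 by ring]
    ring

theorem ev_lip (S : St 𝒜) (z z' : ℝ × ℝ) : 𝒢.ev S z ≤ 𝒢.ev S z' + 𝒢.N S.c z' z := by
  rcases h : 𝒢.κ S.c with _ | b
  · rw [ev_none 𝒢 h, ev_none 𝒢 h, N_none 𝒢 h]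
    linarith [N1_tri S.g z' z]
  · rw [ev_some 𝒢 h, ev_some 𝒢 h, N_some 𝒢 h]
    have h1 := abs_sub_le (sm z) (sm z') (sm S.g)
    have h2 := abs_sub_le (pec b z) (pec b z') (pec b S.g)
    rw [abs_sub_comm (sm z) (sm z')] at h1
    rw [abs_sub_comm (pec b z) (pec b z')] at h2
    have h3 := le_max_left |sm z' - sm z| |pec b z' - pec b z|
    have h4 := le_max_right |sm z' - sm z| |pec b z' - pec b z|
    have h5 := le_max_left |sm z' - sm S.g| (S.h + |pec b z' - pec b S.g|)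
    have h6 := le_max_right |sm z' - sm S.g| (S.h + |pec b z' - pec b S.g|)
    have : max |sm z - sm S.g| (S.h + |pec b z - pec b S.g|) ≤
        max |sm z' - sm S.g| (S.h + |pec b z' - pec b S.g|) +
          max |sm z' - sm z| |pec b z' - pec b z| :=
      max_le (by linarith) (by linarith)
    linarith

theorem tr_le (e : Letter) (S : St 𝒜) (q z : ℝ × ℝ) (hq : q ∈ line e) :
    𝒢.ev (𝒢.tr e S) z ≤ 𝒢.ev S q + 𝒢.N (𝒜.nx e.1 S.c) q z := by
  by_cases h : 𝒢.κ S.c = some e.1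
  · have hq' : pec e.1 q = e.2 := hq
    have hk : 𝒢.κ (𝒢.tr e S).c = some e.1 := by rw [tr_c]; exact 𝒢.comp _ _ h
    have hk' := 𝒢.comp _ _ h
    rw [ev_some 𝒢 hk, ev_some 𝒢 h, N_some 𝒢 hk', tr_axis 𝒢 h]
    simp only [sm_mkp, pec_mkp, hq']
    rw [sub_add_cancel]
    have h1 := abs_sub_le (sm z) (sm q) (sm S.g)
    rw [abs_sub_comm (sm z) (sm q)] at h1
    rw [abs_sub_comm (pec e.1 z) (e.2:ℝ), abs_sub_comm (pec e.1 S.g) (e.2:ℝ)]
    have h3 := le_max_left |sm q - sm z| |(e.2:ℝ) - pec e.1 z|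
    have h4 := le_max_right |sm q - sm z| |(e.2:ℝ) - pec e.1 z|
    have h5 := le_max_left |sm q - sm S.g| (S.h + |(e.2:ℝ) - pec e.1 S.g|)
    have h6 := le_max_right |sm q - sm S.g| (S.h + |(e.2:ℝ) - pec e.1 S.g|)
    have : max |sm z - sm S.g| (S.h + |(e.2:ℝ) - pec e.1 S.g| + |(e.2:ℝ) - pec e.1 z|) ≤
      max |sm q - sm S.g| (S.h + |(e.2:ℝ) - pec e.1 S.g|) +
        max |sm q - sm z| |(e.2:ℝ) - pec e.1 z| :=
      max_le (by linarith) (by linarith)
    linarith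
  · rw [ev_line 𝒢 h hq, ev_cone 𝒢 (𝒢.tr_h h), tr_c]
    have h1 := 𝒢.N_line (𝒜.nx e.1 S.c) hq (𝒢.tr_mem e S)
    have h2 := 𝒢.N_tri (𝒜.nx e.1 S.c) (𝒢.tr e S).g q z
    rw [𝒢.N_comm _ (𝒢.tr e S).g q, h1] at h2
    linarith

/-- the interpolation used for axis lines -/
theorem axis_ex (G Z a b : ℝ) (ha0 : 0 ≤ a) (hb : 0 ≤ b) :
    ∃ q, max |Z - G| (a + b) = max |q - G| a + max |q - Z| b := by
  by_cases hc : |Z - G| ≤ a + b
  · obtain ⟨q1, hq1, hq2⟩ : ∃ q1, |q1 - G| ≤ a ∧ |q1 - Z| ≤ b := by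
      refine ⟨max (G - a) (min Z (G + a)), ?_, ?_⟩
      · rw [abs_le]
        constructor
        · have := le_max_left (G - a) (min Z (G + a)); linarith
        · have h1 := min_le_right Z (G + a)
          have := max_le (by linarith : G - a ≤ G + a) h1
          linarith
      · rw [abs_le] at hc ⊢
        obtain ⟨hc1, hc2⟩ := hc
        constructor
        · have h1 : min Z (G + a) ≥ Z - b := le_min (by linarith) (by linarith)
          have := le_max_right (G - a) (min Z (G + a))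
          linarith
        · have h1 : min Z (G + a) ≤ Z := min_le_left _ _
          have : max (G - a) (min Z (G + a)) ≤ Z + b :=
            max_le (by linarith) (by linarith)
          linarith
    refine ⟨q1, ?_⟩
    rw [max_eq_right hc, max_eq_right hq1, max_eq_right hq2]
  · push Not at hc
    rcases le_total G Z with h1 | h1
    · rw [abs_of_nonneg (by linarith : (0:ℝ) ≤ Z - G)] at hc
      refine ⟨Z - b, ?_⟩
      rw [max_eq_left, max_eq_left, max_eq_right]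
      · rw [abs_of_nonneg (by linarith : 0 ≤ Z - G), abs_of_nonneg (by linarith : 0 ≤ Z - b - G)]
        ring
      · rw [show Z - b - Z = -b by ring, abs_neg, abs_of_nonneg hb]
      · rw [abs_of_nonneg (by linarith : 0 ≤ Z - b - G)]; linarith
      · rw [abs_of_nonneg (by linarith : 0 ≤ Z - G)]; linarith
    · rw [abs_of_nonpos (by linarith : Z - G ≤ (0:ℝ))] at hc
      refine ⟨Z + b, ?_⟩
      rw [max_eq_left, max_eq_left, max_eq_right]
      · rw [abs_of_nonpos (by linarith : Z - G ≤ 0), abs_of_nonpos (by linarith : Z + b - G ≤ 0)]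
        ring
      · rw [show Z + b - Z = b by ring, abs_of_nonneg hb]
      · rw [abs_of_nonpos (by linarith : Z + b - G ≤ 0)]; linarith
      · rw [abs_of_nonpos (by linarith : Z - G ≤ 0)]; linarith

theorem tr_ex (e : Letter) (S : St 𝒜) (z : ℝ × ℝ) :
    ∃ q ∈ line e, 𝒢.ev (𝒢.tr e S) z = 𝒢.ev S q + 𝒢.N (𝒜.nx e.1 S.c) q z := by
  by_cases h : 𝒢.κ S.c = some e.1
  · have hk : 𝒢.κ (𝒢.tr e S).c = some e.1 := by rw [tr_c]; exact 𝒢.comp _ _ h
    have hk' := 𝒢.comp _ _ h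
    obtain ⟨q, hq⟩ := axis_ex (sm S.g) (sm z) (S.h + |pec e.1 S.g - e.2|)
      |pec e.1 z - e.2| (add_nonneg S.hh (abs_nonneg _)) (abs_nonneg _)
    refine ⟨mkp e.1 (q - e.2) e.2, by show pec e.1 _ = _; simp, ?_⟩
    rw [ev_some 𝒢 hk, ev_some 𝒢 h, N_some 𝒢 hk', tr_axis 𝒢 h]
    simp only [sm_mkp, pec_mkp]
    rw [sub_add_cancel, sub_add_cancel, abs_sub_comm (e.2:ℝ) (pec e.1 z),
      abs_sub_comm (e.2:ℝ) (pec e.1 S.g), hq]
    ring
  · refine ⟨(𝒢.tr e S).g, 𝒢.tr_mem e S, ?_⟩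
    rw [ev_line 𝒢 h (𝒢.tr_mem e S), ev_cone 𝒢 (𝒢.tr_h h), tr_c, sub_self, abs_zero, add_zero]

end Geo

end Run7.h484.K
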