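import Pool.Agent.Run7.h484.K.Tree

/-! Trees of planes with several kinds of planes: sides of lines, local finiteness, abstract
Helly property. -/

namespace Run7.h484.K

open Set

variable {𝒜 : Auto}

namespace Pt

variable {𝒢 : Geo 𝒜}

/-- `ξ` lies on the side of `w` of the edge `(w, e)` -/
def Before (w : Pl) (e : Letter) (ξ : Pt 𝒢) : Prop :=
  (ξ.pl⁻¹ * w * W.of e).val = (ξ.pl⁻¹ * w).val ++ [e]

/-- `ξ` lies beyond the edge `(w, e)` -/
def Beyond (w : Pl) (e : Letter) (ξ : Pt 𝒢) : Prop :=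
  (ξ.pl⁻¹ * w).val = (ξ.pl⁻¹ * w * W.of e).val ++ [e]

theorem before_or_beyond (w : Pl) (e : Letter) (ξ : Pt 𝒢) : Before w e ξ ∨ Beyond w e ξ :=
  W.dichotomy _ _

theorem beyond_flip {w : Pl} {e : Letter} {ξ : Pt 𝒢} (h : Before w e ξ) :
    Beyond (w * W.of e) e ξ := by
  unfold Beyond Before at *
  rw [← mul_assoc, W.mul_of_mul_of]
  exact h

theorem before_flip {w : Pl} {e : Letter} {ξ : Pt 𝒢} (h : Beyond w e ξ) :
    Before (w * W.of e) e ξ := by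
  unfold Beyond Before at *
  rw [← mul_assoc, W.mul_of_mul_of]
  exact h

theorem Before.S_eq {w : Pl} {e : Letter} {ξ : Pt 𝒢} (h : Before w e ξ) :
    S (w * W.of e) ξ = 𝒢.tr e (S w ξ) := by
  unfold S Before at *
  rw [← mul_assoc, h, 𝒢.go_snoc]

theorem Beyond.S_eq {w : Pl} {e : Letter} {ξ : Pt 𝒢} (h : Beyond w e ξ) :
    S w ξ = 𝒢.tr e (S (w * W.of e) ξ) := by
  unfold S Beyond at *
  rw [← mul_assoc, ← 𝒢.go_snoc, ← h]

theorem beyond_inv {w : Pl} {e : Letter} {η : Pt 𝒢} (h : Beyond w e η) :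
    (w⁻¹ * η.pl).val = e :: ((w * W.of e)⁻¹ * η.pl).val := by
  have h1 : (w⁻¹ * η.pl).val = (η.pl⁻¹ * w).val.reverse := by
    rw [← W.inv_val]; congr 1; group
  have h2 : ((w * W.of e)⁻¹ * η.pl).val = (η.pl⁻¹ * w * W.of e).val.reverse := by
    rw [← W.inv_val]; congr 1; group
  rw [h1, h2, h]
  simp

/-- Crossing a line. -/
theorem dist_cross {w : Pl} {e : Letter} {ξ η : Pt 𝒢} (h1 : Before w e ξ) (h2 : Beyond w e η) :
    ∃ q ∈ line e, dist ξ η = dist ξ ⟨w, q⟩ + dist ⟨w, q⟩ η := by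
  have h3 := beyond_inv h2
  have hred : Red ((ξ.pl⁻¹ * w).val ++ (w⁻¹ * η.pl).val) := by
    rw [h3]
    apply red_join
    · rw [← h1]; exact (ξ.pl⁻¹ * w * W.of e).red
    · rw [← h3]; exact (w⁻¹ * η.pl).red
  have h4 := W.mul_val_of_red hred
  rw [show ξ.pl⁻¹ * w * (w⁻¹ * η.pl) = ξ.pl⁻¹ * η.pl by group, h3] at h4
  obtain ⟨q, hq, h5⟩ := 𝒢.cost_mid_ex (𝒜.cls ξ.pl) (ξ.pl⁻¹ * w).val e
    ((w * W.of e)⁻¹ * η.pl).val ξ.pos η.pos
  refine ⟨q, hq, ?_⟩
  rw [dist_def, Geo.cst, h4, h5]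
  have h6 : dist (⟨w, q⟩ : Pt 𝒢) η = dist ⟨w * W.of e, q⟩ η := by
    rw [dist_comm _ η, dist_comm _ η, dist_glue' η w e hq]
  rw [h6, Auto.act_snoc, 𝒜.act_rel, ← Auto.cls_mul_of]
  rfl

theorem dist_via' {w : Pl} {ξ η : Pt 𝒢}
    (h : ∀ e, ¬ (Beyond w e ξ ∧ Beyond w e η)) :
    ∃ z, dist ξ η = dist ξ ⟨w, z⟩ + dist ⟨w, z⟩ η := by
  apply dist_via
  have hred : Red ((ξ.pl⁻¹ * w).val ++ (w⁻¹ * η.pl).val) := by
    rcases h1 : (w⁻¹ * η.pl).val with _ | ⟨e, l⟩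
    · rw [List.append_nil]; exact (ξ.pl⁻¹ * w).red
    · apply red_join
      · by_contra hcon
        have hb : Beyond w e ξ := by
          rcases before_or_beyond w e ξ with hb | hb
          · exact absurd (by rw [← hb]; exact W.red _) hcon
          · exact hb
        have hb' : Beyond w e η := by
          rcases before_or_beyond w e η with hb | hb
          · exfalso
            have h2 : (w⁻¹ * η.pl).val = (η.pl⁻¹ * w).val.reverse := by
              rw [← W.inv_val]; congr 1; group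
            rw [h1] at h2
            have h3 : (η.pl⁻¹ * w).val = l.reverse ++ [e] := by
              have := congrArg List.reverse h2
              simpa using this.symm
            have h4 := (η.pl⁻¹ * w * W.of e).red
            rw [hb, h3, W.red_append_singleton] at h4
            exact h4.2 e (by simp) rfl
          · exact hb
        exact h e ⟨hb, hb'⟩
      · rw [← h1]; exact W.red _
  have h4 := W.mul_val_of_red hred
  rw [show ξ.pl⁻¹ * w * (w⁻¹ * η.pl) = ξ.pl⁻¹ * η.pl by group] at h4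
  exact h4

end Pt


/-- The two closed balls meet on the line `e` of the plane `w`. -/
def MeetOn {𝒢 : Geo 𝒜} (w : Pl) (e : Letter) (p q : Pt 𝒢 × ℝ) : Prop :=
  ∃ z ∈ line e, dist p.1 ⟨w, z⟩ ≤ p.2 ∧ dist q.1 ⟨w, z⟩ ≤ q.2

/-- conditions under which the Helly property holds -/
structure HellyGeo (𝒢 : Geo 𝒜) : Prop where
  box : ∀ (ι : Type) (c : 𝒜.C) (S : ι → St 𝒜) (r : ι → ℝ), (∀ i, (S i).c = c) →
    (∀ i j, ∃ z, 𝒢.ev (S i) z ≤ r i ∧ 𝒢.ev (S j) z ≤ r j) → ∃ z, ∀ i, 𝒢.ev (S i) z ≤ r i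
  pair : ∀ (S S' : St 𝒜) (r r' : ℝ), S.c = S'.c → (∃ z, 𝒢.ev S z ≤ r) → (∃ z, 𝒢.ev S' z ≤ r') →
    (∃ z, 𝒢.ev S z + 𝒢.ev S' z ≤ r + r') → ∃ z, 𝒢.ev S z ≤ r ∧ 𝒢.ev S' z ≤ r'
  edge : ∀ (w : Pl) (e : Letter) (k l k' l' : Pt 𝒢 × ℝ),
    Pt.Before w e k.1 → Pt.Before w e l.1 → Pt.Beyond w e k'.1 → Pt.Beyond w e l'.1 →
    dist k.1 l.1 ≤ k.2 + l.2 → dist k'.1 l'.1 ≤ k'.2 + l'.2 →
    dist k.1 k'.1 ≤ k.2 + k'.2 → dist k.1 l'.1 ≤ k.2 + l'.2 →
    dist l.1 k'.1 ≤ l.2 + k'.2 → dist l.1 l'.1 ≤ l.2 + l'.2 →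
    MeetOn w e k l ∨ MeetOn w e k' l'
  fin : ∀ (R : ℝ), {w : Pl | w ∈ VP ∧ ∃ z', dist (⟨1, (0, 0)⟩ : Pt 𝒢) ⟨w, z'⟩ ≤ R}.Finite

theorem HellyGeo.helly {𝒢 : Geo 𝒜} (hM : HellyGeo 𝒢) (F : Set (Pt 𝒢 × ℝ))
    (hV : ∀ p ∈ F, p.1.pl ∈ VP) (hF : ∀ p ∈ F, ∀ q ∈ F, dist p.1 q.1 ≤ p.2 + q.2) :
    ∃ ξ : Pt 𝒢, ξ.pl ∈ VP ∧ ∀ p ∈ F, dist ξ p.1 ≤ p.2 := by
  classical
  by_cases hne : F.Nonempty
  swap
  · refine ⟨⟨1, (0, 0)⟩, one_mem_VP, fun p hp => ?_⟩
    exact absurd ⟨p, hp⟩ hne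
  obtain ⟨x₀, hx₀⟩ := hne
  -- bad planes
  set B : Set Pl := {w | w ∈ VP ∧ (w = 1 ∨ ∃ w' e, w = w' * W.of e ∧ w.val = w'.val ++ [e] ∧
    ∃ k ∈ F, ∃ l ∈ F, Pt.Beyond w' e k.1 ∧ Pt.Beyond w' e l.1 ∧ ¬ MeetOn w' e k l)} with hB
  have hprefix : ∀ (w : Pl) (e : Letter) (ξ : Pt 𝒢), (w * W.of e).val = w.val ++ [e] →
      Pt.Beyond w e ξ → ∃ l, ξ.pl.val = (w * W.of e).val ++ l := by
    intro w e ξ h1 h2
    have h3 := Pt.beyond_inv h2
    have hred : Red (w.val ++ (w⁻¹ * ξ.pl).val) := by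
      rw [h3]
      apply red_join
      · rw [← h1]; exact W.red _
      · rw [← h3]; exact W.red _
    have h4 := W.mul_val_of_red hred
    rw [mul_inv_cancel_left, h3] at h4
    exact ⟨((w * W.of e)⁻¹ * ξ.pl).val, by rw [h4, h1, List.append_assoc]; rfl⟩
  have hBfin : B.Finite := by
    have hf1 := hM.fin (dist (⟨1, (0, 0)⟩ : Pt 𝒢) x₀.1 + x₀.2)
    have hf2 : ({w : Pl | ∃ l, x₀.1.pl.val = w.val ++ l} : Set Pl).Finite := by
      apply Set.Finite.of_finite_image (f := W.val)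
      · apply (List.finite_toSet x₀.1.pl.val.inits).subset
        rintro _ ⟨w, ⟨l, hl⟩, rfl⟩
        rw [Set.mem_ofPred_eq, List.mem_inits]
        exact ⟨l, hl.symm⟩
      · intro a _ b _ h; exact W.ext h
    apply ((Set.finite_singleton (1 : Pl)).union (hf1.union hf2)).subset
    rintro w ⟨hw, hw1 | ⟨w', e, hw', hval, k, hk, l, hl, hbk, hbl, hnm⟩⟩
    · left; exact hw1
    · right
      rcases Pt.before_or_beyond w' e x₀.1 with hb | hb
      · left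
        refine ⟨hw, ?_⟩
        rcases hM.edge w' e x₀ x₀ k l hb hb hbk hbl (hF _ hx₀ _ hx₀) (hF _ hk _ hl)
          (hF _ hx₀ _ hk) (hF _ hx₀ _ hl) (hF _ hx₀ _ hk) (hF _ hx₀ _ hl) with h | h
        · obtain ⟨z, hz, h1, -⟩ := h
          refine ⟨z, ?_⟩
          rw [hw', Pt.dist_glue' _ _ _ hz]
          have := dist_triangle (⟨1, (0, 0)⟩ : Pt 𝒢) x₀.1 ⟨w', z⟩
          linarith
        · exact absurd h hnm
      · right
        obtain ⟨l, hl⟩ := hprefix w' e x₀.1 (by rw [← hw', hval]) hb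
        exact ⟨l, by rw [hl, hw']⟩
  obtain ⟨w, hwB, hmax⟩ := hBfin.exists_maximalFor (fun w => w.val.length) B
    ⟨1, one_mem_VP, Or.inl rfl⟩
  have hmax' : ∀ w' ∈ B, w'.val.length ≤ w.val.length := by
    intro w' hw'
    by_contra hlt
    push Not at hlt
    have h : w'.val.length ≤ w.val.length := hmax hw' hlt.le
    omega
  -- `w` is a sink
  have hsink : ∀ e, ∀ k ∈ F, ∀ l ∈ F, Pt.Beyond w e k.1 → Pt.Beyond w e l.1 →
      MeetOn w e k l := by
    intro e k hk l hl hbk hbl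
    by_contra hnm
    rcases W.dichotomy w e with h | h
    · have hin : w * W.of e ∈ B := by
        obtain ⟨l', hl'⟩ := hprefix w e k.1 h hbk
        exact ⟨VP_prefix (hV k hk) hl', Or.inr ⟨w, e, rfl, h, k, hk, l, hl, hbk, hbl, hnm⟩⟩
      have := hmax' _ hin
      rw [h] at this
      simp at this
    · rcases hwB with ⟨-, hw1 | ⟨w', e', hw', hval, k0, hk0, l0, hl0, hbk0, hbl0, hnm0⟩⟩
      · rw [hw1] at h
        simp at h
      · rw [hval] at h
        have he : e' = e := by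
          have := congrArg List.getLast? h
          simpa using this
        subst he
        have hk' : Pt.Before w' e' k.1 := by
          have := Pt.before_flip hbk
          rwa [hw', W.mul_of_mul_of] at this
        have hl' : Pt.Before w' e' l.1 := by
          have := Pt.before_flip hbl
          rwa [hw', W.mul_of_mul_of] at this
        rcases hM.edge w' e' k l k0 l0 hk' hl' hbk0 hbl0 (hF _ hk _ hl) (hF _ hk0 _ hl0)
          (hF _ hk _ hk0) (hF _ hk _ hl0) (hF _ hl _ hk0) (hF _ hl _ hl0) with h' | h'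
        · obtain ⟨z, hz, h1, h2⟩ := h'
          apply hnm
          refine ⟨z, hz, ?_, ?_⟩
          · rw [hw', Pt.dist_glue' _ _ _ hz]; exact h1
          · rw [hw', Pt.dist_glue' _ _ _ hz]; exact h2
        · exact hnm0 h'
  have hwV : w ∈ VP := hwB.1
  -- each ball meets the plane `w`
  have hone : ∀ k ∈ F, ∃ z, dist k.1 ⟨w, z⟩ ≤ k.2 := by
    intro k hk
    have hr : 0 ≤ k.2 := by
      have := hF k hk k hk
      rw [dist_self] at this
      linarith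
    by_cases hpl : k.1.pl = w
    · refine ⟨k.1.pos, ?_⟩
      have : (⟨w, k.1.pos⟩ : Pt 𝒢) = k.1 := by
        rw [← hpl]
      rw [this, dist_self]
      exact hr
    · have : (k.1.pl⁻¹ * w).val ≠ [] := by
        intro h
        apply hpl
        exact inv_mul_eq_one.1 (W.ext h)
      obtain ⟨L, e, hLe⟩ := List.eq_nil_or_concat'  (k.1.pl⁻¹ * w).val |>.resolve_left this
      have hb : Pt.Beyond w e k.1 := by
        rcases Pt.before_or_beyond w e k.1 with hb | hb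
        · exfalso
          have h4 := (k.1.pl⁻¹ * w * W.of e).red
          unfold Pt.Before at hb
          rw [hb, hLe, W.red_append_singleton] at h4
          exact h4.2 e (by simp) rfl
        · exact hb
      obtain ⟨z, -, h1, -⟩ := hsink e k hk k hk hb hb
      exact ⟨z, h1⟩
  obtain ⟨z, hz⟩ := hM.box F (𝒜.cls w) (fun p => Pt.S w p.1.1) (fun p => p.1.2) (fun p => Pt.S_c w p.1.1) (by
    rintro ⟨k, hk⟩ ⟨l, hl⟩
    by_cases hboth : ∃ e, Pt.Beyond w e k.1 ∧ Pt.Beyond w e l.1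
    · obtain ⟨e, h1, h2⟩ := hboth
      obtain ⟨z, -, h3, h4⟩ := hsink e k hk l hl h1 h2
      exact ⟨z, h3, h4⟩
    · push Not at hboth
      obtain ⟨z, hz⟩ := Pt.dist_via' (w := w) (ξ := k.1) (η := l.1)
        (fun e h => hboth e h.1 h.2)
      obtain ⟨z1, hz1⟩ := hone k hk
      obtain ⟨z2, hz2⟩ := hone l hl
      apply hM.pair _ _ _ _ ((Pt.S_c w k.1).trans (Pt.S_c w l.1).symm) ⟨z1, hz1⟩ ⟨z2, hz2⟩
      refine ⟨z, ?_⟩
      have := hF k hk l hl
      rw [hz, Pt.dist_mk, Pt.dist_mk'] at this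
      exact this)
  refine ⟨⟨w, z⟩, hwV, fun p hp => ?_⟩
  rw [dist_comm]
  exact hz ⟨p, hp⟩

end Run7.h484.K
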