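import Pool.Agent.Run7.h484.K.HellyA

/-! Trees of planes with several kinds of planes: the Helly property. -/

namespace Run7.h484.K

open Set

variable {𝒜 : Auto} (𝒢 : Geo 𝒜)

/-! ### Coordinates -/

/-- `ℓ^∞` coordinates -/
def cz (b : Bool) (z : ℝ × ℝ) : ℝ × ℝ := (sm z, pec b z)

theorem cz_surj (b : Bool) (p : ℝ × ℝ) : ∃ z, cz b z = p := by
  refine ⟨mkp b (p.1 - p.2) p.2, ?_⟩
  unfold cz
  rw [sm_mkp, pec_mkp, sub_add_cancel]

namespace Geo

theorem ev_eq1 {S : St 𝒜} (h : 𝒢.κ S.c = none) (z : ℝ × ℝ) :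
    𝒢.ev S z = ev1 ⟨S.D, S.g⟩ z := by rw [𝒢.ev_none h]; rfl

theorem ev_eq2 {S : St 𝒜} {b : Bool} (h : 𝒢.κ S.c = some b) (z : ℝ × ℝ) :
    𝒢.ev S z = ev2 ⟨S.D, S.h, cz b S.g, S.hh⟩ (cz b z) := by rw [𝒢.ev_some h]; rfl

theorem box (ι : Type) (c : 𝒜.C) (S : ι → St 𝒜) (r : ι → ℝ) (hc : ∀ i, (S i).c = c)
    (h : ∀ i j, ∃ z, 𝒢.ev (S i) z ≤ r i ∧ 𝒢.ev (S j) z ≤ r j) : ∃ z, ∀ i, 𝒢.ev (S i) z ≤ r i := by
  rcases hk : 𝒢.κ c with _ | b
  · obtain ⟨z, hz⟩ := box1 ι (fun i => ⟨(S i).D, (S i).g⟩) r (by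
      intro i j
      obtain ⟨z, h1, h2⟩ := h i j
      rw [𝒢.ev_eq1 (by rw [hc]; exact hk)] at h1 h2
      exact ⟨z, h1, h2⟩)
    refine ⟨z, fun i => ?_⟩
    rw [𝒢.ev_eq1 (by rw [hc]; exact hk)]
    exact hz i
  · obtain ⟨z, hz⟩ := box2 ι (fun i => ⟨(S i).D, (S i).h, cz b (S i).g, (S i).hh⟩) r (by
      intro i j
      obtain ⟨z, h1, h2⟩ := h i j
      rw [𝒢.ev_eq2 (by rw [hc]; exact hk)] at h1 h2
      exact ⟨cz b z, h1, h2⟩)
    obtain ⟨z', rfl⟩ := cz_surj b z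
    refine ⟨z', fun i => ?_⟩
    rw [𝒢.ev_eq2 (by rw [hc]; exact hk)]
    exact hz i

theorem pair (S S' : St 𝒜) (r r' : ℝ) (hc : S.c = S'.c) (h1 : ∃ z, 𝒢.ev S z ≤ r)
    (h2 : ∃ z, 𝒢.ev S' z ≤ r') (h3 : ∃ z, 𝒢.ev S z + 𝒢.ev S' z ≤ r + r') :
    ∃ z, 𝒢.ev S z ≤ r ∧ 𝒢.ev S' z ≤ r' := by
  rcases hk : 𝒢.κ S.c with _ | b
  · have hk' : 𝒢.κ S'.c = none := by rw [← hc]; exact hk
    simp only [𝒢.ev_eq1 hk, 𝒢.ev_eq1 hk'] at *
    exact pair1 _ _ r r' h1 h2 h3
  · have hk' : 𝒢.κ S'.c = some b := by rw [← hc]; exact hk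
    simp only [𝒢.ev_eq2 hk, 𝒢.ev_eq2 hk'] at *
    obtain ⟨z1, h1⟩ := h1
    obtain ⟨z2, h2⟩ := h2
    obtain ⟨z3, h3⟩ := h3
    obtain ⟨z, h4, h5⟩ := pair2 _ _ r r' ⟨_, h1⟩ ⟨_, h2⟩ ⟨_, h3⟩
    obtain ⟨z', rfl⟩ := cz_surj b z
    exact ⟨z', h4, h5⟩

end Geo

namespace Pt

variable {𝒢}

/-- axis lines are externally hyperconvex -/
theorem EH (b : Bool) (n : ℕ) : ∀ (w : Pl) (ξ η : Pt 𝒢) (r r' k : ℝ),
    𝒢.κ (𝒜.cls w) = some b → (ξ.pl⁻¹ * w).val.length ≤ n →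
    dist ξ η ≤ r + r' →
    (S w ξ).D + (S w ξ).h + |pec b (S w ξ).g - k| ≤ r →
    (S w η).D + (S w η).h + |pec b (S w η).g - k| ≤ r' →
    |sm (S w ξ).g - sm (S w η).g| ≤ (r - (S w ξ).D) + (r' - (S w η).D) := by
  -- the case of points seen through a point of the plane
  have via : ∀ (w : Pl) (ξ η : Pt 𝒢) (r r' : ℝ), 𝒢.κ (𝒜.cls w) = some b → dist ξ η ≤ r + r' →
      (∃ z, dist ξ η = dist ξ ⟨w, z⟩ + dist ⟨w, z⟩ η) →
      |sm (S w ξ).g - sm (S w η).g| ≤ (r - (S w ξ).D) + (r' - (S w η).D) := by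
    rintro w ξ η r r' hk hd ⟨z, hz⟩
    rw [hz, dist_mk, dist_mk', 𝒢.ev_some (by rw [S_c]; exact hk),
      𝒢.ev_some (by rw [S_c]; exact hk)] at hd
    have e1 := le_max_left |sm z - sm (S w ξ).g| ((S w ξ).h + |pec b z - pec b (S w ξ).g|)
    have e2 := le_max_left |sm z - sm (S w η).g| ((S w η).h + |pec b z - pec b (S w η).g|)
    have t1 := abs_sub_le (sm (S w ξ).g) (sm z) (sm (S w η).g)
    rw [abs_sub_comm (sm (S w ξ).g) (sm z)] at t1
    linarith
  induction n with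
  | zero =>
    intro w ξ η r r' k hk hn hd h1 h2
    have hlen : (ξ.pl⁻¹ * w).val = [] := List.length_eq_zero_iff.1 (Nat.le_zero.1 hn)
    apply via w ξ η r r' hk hd
    apply dist_via'
    intro e he
    have := he.1
    unfold Beyond at this
    rw [hlen] at this
    simp at this
  | succ n ih =>
    intro w ξ η r r' k hk hn hd h1 h2
    by_cases hboth : ∃ e, Beyond w e ξ ∧ Beyond w e η
    · obtain ⟨e, hb1, hb2⟩ := hboth
      have hlen : (ξ.pl⁻¹ * (w * W.of e)).val.length ≤ n := by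
        rw [← mul_assoc]
        unfold Beyond at hb1
        rw [hb1] at hn
        simpa using hn
      have s1 : S w ξ = 𝒢.tr e (S (w * W.of e) ξ) := hb1.S_eq
      have s2 : S w η = 𝒢.tr e (S (w * W.of e) η) := hb2.S_eq
      by_cases he : e.1 = b
      · -- parallel line
        subst he
        have hk' : 𝒢.κ (𝒜.cls (w * W.of e)) = some e.1 := by
          rw [Auto.cls_mul_of]; exact 𝒢.comp _ _ hk
        have hk1 : 𝒢.κ (S (w * W.of e) ξ).c = some e.1 := by rw [S_c]; exact hk'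
        have hk2 : 𝒢.κ (S (w * W.of e) η).c = some e.1 := by rw [S_c]; exact hk'
        rw [s1, 𝒢.tr_axis hk1] at h1 ⊢
        rw [s2, 𝒢.tr_axis hk2] at h2 ⊢
        simp only [sm_mkp, pec_mkp, sub_add_cancel] at h1 h2 ⊢
        have := abs_nonneg ((e.2:ℝ) - k)
        exact ih (w * W.of e) ξ η r r' e.2 hk' hlen hd (by linarith) (by linarith)
      · -- diagonal line
        have hb : b = !e.1 := by
          revert he; cases b <;> cases e.1 <;> simp
        have hk' : 𝒢.κ (𝒜.cls (w * W.of e)) ≠ some e.1 := by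
          rw [Auto.cls_mul_of]
          intro hcon
          rw [𝒢.comp_iff, hk, hb] at hcon
          revert hcon; cases e.1 <;> simp
        have hh1 : (S w ξ).h = 0 := by
          rw [s1]; apply 𝒢.tr_h; rw [S_c]; exact hk'
        have hh2 : (S w η).h = 0 := by
          rw [s2]; apply 𝒢.tr_h; rw [S_c]; exact hk'
        have g1 : pec e.1 (S w ξ).g = e.2 := by rw [s1]; exact 𝒢.tr_mem _ _
        have g2 : pec e.1 (S w η).g = e.2 := by rw [s2]; exact 𝒢.tr_mem _ _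
        subst hb
        rw [pec_not] at h1 h2
        rw [sm_eq e.1, sm_eq e.1, g1, g2, add_sub_add_right_eq_sub]
        have t := abs_sub_le (alc e.1 (S w ξ).g) k (alc e.1 (S w η).g)
        rw [abs_sub_comm k] at t
        linarith
    · push Not at hboth
      apply via w ξ η r r' hk hd
      exact dist_via' (fun e h => hboth e h.1 h.2)

theorem edge (w : Pl) (e : Letter) (k l k' l' : Pt 𝒢 × ℝ)
    (hk : Before w e k.1) (hl : Before w e l.1) (hk' : Beyond w e k'.1) (hl' : Beyond w e l'.1)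
    (h5 : dist k.1 l.1 ≤ k.2 + l.2) (h6 : dist k'.1 l'.1 ≤ k'.2 + l'.2)
    (h1 : dist k.1 k'.1 ≤ k.2 + k'.2) (h2 : dist k.1 l'.1 ≤ k.2 + l'.2)
    (h3 : dist l.1 k'.1 ≤ l.2 + k'.2) (h4 : dist l.1 l'.1 ≤ l.2 + l'.2) :
    MeetOn w e k l ∨ MeetOn w e k' l' := by
  by_cases hax : 𝒢.κ (𝒜.cls w) = some e.1
  · -- axis line
    have evq : ∀ (a : Pt 𝒢) (q : ℝ × ℝ), 𝒢.ev (S w a) q = (S w a).D +
        max |sm q - sm (S w a).g| ((S w a).h + |pec e.1 q - pec e.1 (S w a).g|) :=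
      fun a q => 𝒢.ev_some (by rw [S_c]; exact hax) q
    have cross : ∀ (a b : Pt 𝒢 × ℝ), Before w e a.1 → Beyond w e b.1 →
        dist a.1 b.1 ≤ a.2 + b.2 →
        ((S w a.1).D + (S w a.1).h + |pec e.1 (S w a.1).g - e.2|) +
        ((S w b.1).D + (S w b.1).h + |pec e.1 (S w b.1).g - e.2|) ≤ a.2 + b.2 := by
      intro a b ha hb hab
      obtain ⟨q, hq, h⟩ := dist_cross ha hb
      have hq' : pec e.1 q = e.2 := hq
      rw [h, dist_mk, dist_mk', evq, evq, hq'] at hab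
      have e1 := le_max_right |sm q - sm (S w a.1).g|
        ((S w a.1).h + |(e.2:ℝ) - pec e.1 (S w a.1).g|)
      have e2 := le_max_right |sm q - sm (S w b.1).g|
        ((S w b.1).h + |(e.2:ℝ) - pec e.1 (S w b.1).g|)
      rw [abs_sub_comm (pec e.1 (S w a.1).g), abs_sub_comm (pec e.1 (S w b.1).g)]
      linarith
    have meet : ∀ (a b : Pt 𝒢 × ℝ), dist a.1 b.1 ≤ a.2 + b.2 →
        (S w a.1).D + (S w a.1).h + |pec e.1 (S w a.1).g - e.2| ≤ a.2 →
        (S w b.1).D + (S w b.1).h + |pec e.1 (S w b.1).g - e.2| ≤ b.2 →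
        MeetOn w e a b := by
      intro a b hab ha hb
      have h := EH e.1 _ w a.1 b.1 a.2 b.2 e.2 hax le_rfl hab ha hb
      have hh := (S w a.1).hh
      have hh' := (S w b.1).hh
      have n1 := abs_nonneg (pec e.1 (S w a.1).g - e.2)
      have n2 := abs_nonneg (pec e.1 (S w b.1).g - e.2)
      obtain ⟨x, hx1, hx2⟩ := two_intervals (by linarith) (by linarith) h
      refine ⟨mkp e.1 (x - e.2) e.2, by show pec e.1 _ = _; simp, ?_, ?_⟩
      · rw [dist_mk, evq, sm_mkp, pec_mkp, sub_add_cancel, abs_sub_comm (e.2:ℝ)]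
        have : max |x - sm (S w a.1).g| ((S w a.1).h + |pec e.1 (S w a.1).g - e.2|) ≤
            a.2 - (S w a.1).D := by
          apply max_le
          · rw [abs_le]; constructor <;> linarith
          · linarith
        linarith
      · rw [dist_mk, evq, sm_mkp, pec_mkp, sub_add_cancel, abs_sub_comm (e.2:ℝ)]
        have : max |x - sm (S w b.1).g| ((S w b.1).h + |pec e.1 (S w b.1).g - e.2|) ≤
            b.2 - (S w b.1).D := by
          apply max_le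
          · rw [abs_le]; constructor <;> linarith
          · linarith
        linarith
    have c1 := cross k k' hk hk' h1
    have c2 := cross k l' hk hl' h2
    have c3 := cross l k' hl hk' h3
    have c4 := cross l l' hl hl' h4
    by_cases hkk : (S w k.1).D + (S w k.1).h + |pec e.1 (S w k.1).g - e.2| ≤ k.2
    · by_cases hll : (S w l.1).D + (S w l.1).h + |pec e.1 (S w l.1).g - e.2| ≤ l.2
      · left; exact meet k l h5 hkk hll
      · right
        push Not at hll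
        exact meet k' l' h6 (by linarith) (by linarith)
    · right
      push Not at hkk
      exact meet k' l' h6 (by linarith) (by linarith)
  · -- diagonal line
    have ld : ∀ ξ : Pt 𝒢, ∃ D t, ∀ q ∈ line e, dist ξ ⟨w, q⟩ = D + |alc e.1 q - t| := by
      intro ξ
      exact ⟨_, _, fun q hq => by rw [dist_mk, 𝒢.ev_line (by rw [S_c]; exact hax) hq]⟩
    obtain ⟨Dk, tk, ek⟩ := ld k.1
    obtain ⟨Dl, tl, el⟩ := ld l.1
    obtain ⟨Dk', tk', ek'⟩ := ld k'.1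
    obtain ⟨Dl', tl', el'⟩ := ld l'.1
    have cross : ∀ (a b : Pt 𝒢) (Da ta Db tb ra rb : ℝ), Before w e a → Beyond w e b →
        (∀ q ∈ line e, dist a ⟨w, q⟩ = Da + |alc e.1 q - ta|) →
        (∀ q ∈ line e, dist b ⟨w, q⟩ = Db + |alc e.1 q - tb|) → dist a b ≤ ra + rb →
        |ta - tb| ≤ (ra - Da) + (rb - Db) := by
      intro a b Da ta Db tb ra rb ha hb ea eb hab
      obtain ⟨q, hq, h⟩ := dist_cross ha hb
      rw [h, dist_comm (⟨w, q⟩ : Pt 𝒢) b, ea q hq, eb q hq] at hab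
      have := abs_sub_le ta (alc e.1 q) tb
      rw [abs_sub_comm ta (alc e.1 q)] at this
      linarith
    have c1 := cross _ _ _ _ _ _ _ _ hk hk' ek ek' h1
    have c2 := cross _ _ _ _ _ _ _ _ hk hl' ek el' h2
    have c3 := cross _ _ _ _ _ _ _ _ hl hk' el ek' h3
    have c4 := cross _ _ _ _ _ _ _ _ hl hl' el el' h4
    have mem : ∀ t, mkp e.1 t e.2 ∈ line e := fun t => by show pec e.1 _ = _; simp
    rcases cones c1 c2 c3 c4 with ⟨t, ht1, ht2⟩ | ⟨t, ht1, ht2⟩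
    · left
      refine ⟨mkp e.1 t e.2, mem t, ?_, ?_⟩
      · rw [ek _ (mem t), alc_mkp]; linarith
      · rw [el _ (mem t), alc_mkp]; linarith
    · right
      refine ⟨mkp e.1 t e.2, mem t, ?_, ?_⟩
      · rw [ek' _ (mem t), alc_mkp]; linarith
      · rw [el' _ (mem t), alc_mkp]; linarith

end Pt

/-! ### Local finiteness -/

theorem line_eq (e : Letter) : line e = line1 e := by
  rcases e with ⟨_ | _, k⟩ <;> rfl

namespace Geo

theorem cost_compare (c : 𝒜.C) (L : List Letter) (z z' : ℝ × ℝ) :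
    M1.cost L z z' ≤ 4 * 𝒢.cost c L z z' := by
  induction L using List.reverseRecOn generalizing z' with
  | nil => rw [M1.cost_nil, 𝒢.cost_nil]; exact 𝒢.N1_le c z z'
  | append_singleton L e ih =>
    obtain ⟨q, hq, h⟩ := 𝒢.cost_snoc_ex c L e z z'
    rw [h]
    have h1 := M1.cost_snoc_le L e z q z' (by rw [line_eq] at hq; exact hq)
    have h2 := ih q
    have h3 := 𝒢.N1_le (𝒜.act c (L ++ [e])) q z'
    change _ ≤ _ + N1 _ _ at h1
    linarith

theorem fin (R : ℝ) :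
    {w : Pl | w ∈ VP ∧ ∃ z', dist (⟨1, (0, 0)⟩ : Pt 𝒢) ⟨w, z'⟩ ≤ R}.Finite := by
  apply (finite_near1 (0, 0) (4 * R)).subset
  rintro w ⟨hw, z', h⟩
  refine ⟨hw, z', ?_⟩
  rw [Pt.dist_def] at h
  rw [h484.Pt.dist_def]
  have h2 := 𝒢.cost_compare 𝒜.c0 w.val (0, 0) z'
  simp only [inv_one, one_mul, Model.cst, Geo.cst, Auto.cls_one] at h ⊢
  linarith

theorem helly : HellyGeo 𝒢 where
  box := 𝒢.box
  pair := 𝒢.pair
  edge := Pt.edge
  fin := 𝒢.fin

end Geo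

end Run7.h484.K
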