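import Pool.Agent.Run7.h484.K.HellyC
import Pool.Agent.Run7.h484.LineCut

/-! Realisations of a tree of planes as a metric space; injectivity. -/

namespace Run7.h484.K

universe u

open Set

variable {𝒜 : Auto}

/-- points of valid planes -/
abbrev VPt (𝒢 : Geo 𝒜) := {ξ : Pt 𝒢 // ξ.pl ∈ VP}

theorem Geo.lo_cost (𝒢 : Geo 𝒜) (b : Bool) (c : 𝒜.C) (L : List Letter) (z z' : ℝ × ℝ) :
    |pec b z - pec b z'| ≤ 2 * 𝒢.cost c L z z' := by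
  induction L using List.reverseRecOn generalizing z' with
  | nil => rw [𝒢.cost_nil]; exact 𝒢.lo c b z z'
  | append_singleton L e ih =>
    obtain ⟨q, hq, h⟩ := 𝒢.cost_snoc_ex c L e z z'
    rw [h]
    have h1 := abs_sub_le (pec b z) (pec b q) (pec b z')
    have h2 := ih q
    have h3 := 𝒢.lo (𝒜.act c (L ++ [e])) b q z'
    linarith

theorem Pt.lo_dist {𝒢 : Geo 𝒜} (b : Bool) (ξ η : Pt 𝒢) :
    |pec b ξ.pos - pec b η.pos| ≤ 2 * dist ξ η := 𝒢.lo_cost b _ _ _ _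

/-- a metric space isometric to the metric quotient of the tree of planes -/
structure Rz (𝒢 : Geo 𝒜) (Y : Type u) [MetricSpace Y] where
  ι : VPt 𝒢 → Y
  dist_ι : ∀ ξ η, dist (ι ξ) (ι η) = dist ξ.1 η.1
  surj : Function.Surjective ι

namespace Rz

variable {𝒢 : Geo 𝒜} {Y : Type u} [MetricSpace Y] (R : Rz 𝒢 Y)

/-- the point with coordinates `z` of the plane `w` -/
def pt (w : Pl) (hw : w ∈ VP) (z : ℝ × ℝ) : Y := R.ι ⟨⟨w, z⟩, hw⟩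

theorem dist_pt (w w' : Pl) (hw : w ∈ VP) (hw' : w' ∈ VP) (z z' : ℝ × ℝ) :
    dist (R.pt w hw z) (R.pt w' hw' z') = dist (⟨w, z⟩ : Pt 𝒢) ⟨w', z'⟩ := R.dist_ι _ _

theorem dist_same (w : Pl) (hw : w ∈ VP) (z z' : ℝ × ℝ) :
    dist (R.pt w hw z) (R.pt w hw z') = 𝒢.N (𝒜.cls w) z z' := by
  rw [dist_pt, Pt.dist_same]

theorem exists_pt (y : Y) : ∃ ξ : VPt 𝒢, y = R.ι ξ :=
  let ⟨ξ, h⟩ := R.surj y
  ⟨ξ, h.symm⟩

theorem dist_ι_pt (ξ : VPt 𝒢) (w : Pl) (hw : w ∈ VP) (z : ℝ × ℝ) :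
    dist (R.ι ξ) (R.pt w hw z) = dist ξ.1 (⟨w, z⟩ : Pt 𝒢) := R.dist_ι _ _

theorem glue (w : Pl) (hw : w ∈ VP) (e : Letter) (hw' : w * W.of e ∈ VP) {q : ℝ × ℝ}
    (hq : q ∈ line e) : R.pt w hw q = R.pt (w * W.of e) hw' q := by
  apply dist_le_zero.1
  rw [dist_pt, Pt.dist_glue w e hq]

theorem lo_pt (b : Bool) (w w' : Pl) (hw : w ∈ VP) (hw' : w' ∈ VP) (z z' : ℝ × ℝ) :
    |pec b z - pec b z'| ≤ 2 * dist (R.pt w hw z) (R.pt w' hw' z') := by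
  rw [dist_pt]
  exact Pt.lo_dist b ⟨w, z⟩ ⟨w', z'⟩

theorem pt_inj {w w' : Pl} {hw : w ∈ VP} {hw' : w' ∈ VP} {z z' : ℝ × ℝ}
    (h : R.pt w hw z = R.pt w' hw' z') : z = z' := by
  have h1 := R.lo_pt true w w' hw hw' z z'
  have h2 := R.lo_pt false w w' hw hw' z z'
  rw [h, dist_self, mul_zero] at h1 h2
  have e1 : z.1 - z'.1 = 0 := abs_nonpos_iff.1 h1
  have e2 : z.2 - z'.2 = 0 := abs_nonpos_iff.1 h2
  ext <;> linarith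

/-- the near side of an edge -/
def A (w : Pl) (e : Letter) : Set Y := {y | ∃ ξ : VPt 𝒢, R.ι ξ = y ∧ Pt.Before w e ξ.1}

/-- the far side of an edge -/
def B (w : Pl) (e : Letter) : Set Y := {y | ∃ ξ : VPt 𝒢, R.ι ξ = y ∧ Pt.Beyond w e ξ.1}

theorem union_AB (w : Pl) (e : Letter) : R.A w e ∪ R.B w e = univ := by
  apply eq_univ_of_forall
  intro y
  obtain ⟨ξ, rfl⟩ := R.exists_pt y
  rcases Pt.before_or_beyond w e ξ.1 with h | h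
  · exact Or.inl ⟨ξ, rfl, h⟩
  · exact Or.inr ⟨ξ, rfl, h⟩

theorem pt_mem_A {w w' : Pl} {e : Letter} (hw' : w' ∈ VP)
    (h : (w'⁻¹ * w * W.of e).val = (w'⁻¹ * w).val ++ [e]) (z : ℝ × ℝ) :
    R.pt w' hw' z ∈ R.A w e := ⟨_, rfl, h⟩

theorem pt_mem_B {w w' : Pl} {e : Letter} (hw' : w' ∈ VP)
    (h : (w'⁻¹ * w).val = (w'⁻¹ * w * W.of e).val ++ [e]) (z : ℝ × ℝ) :
    R.pt w' hw' z ∈ R.B w e := ⟨_, rfl, h⟩

theorem pt_self_mem_A {w : Pl} {e : Letter} (hw : w ∈ VP) (z : ℝ × ℝ) :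
    R.pt w hw z ∈ R.A w e := by
  apply R.pt_mem_A
  rw [inv_mul_cancel, one_mul]; rfl

theorem pt_next_mem_B {w : Pl} {e : Letter} (hw' : w * W.of e ∈ VP) (z : ℝ × ℝ) :
    R.pt (w * W.of e) hw' z ∈ R.B w e := by
  apply R.pt_mem_B
  have h1 : (w * W.of e)⁻¹ * w * W.of e = 1 := by group
  have h2 : (w * W.of e)⁻¹ * w = W.of e := by
    rw [mul_inv_rev, W.of_inv, mul_assoc, inv_mul_cancel, mul_one]
  rw [h1, h2]; rfl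

theorem cross_AB {w : Pl} {e : Letter} (hw : w ∈ VP) {x y : Y} (hx : x ∈ R.A w e)
    (hy : y ∈ R.B w e) :
    ∃ q ∈ line e, dist x y = dist x (R.pt w hw q) + dist (R.pt w hw q) y := by
  obtain ⟨ξ, rfl, hξ⟩ := hx
  obtain ⟨η, rfl, hη⟩ := hy
  obtain ⟨q, hq, h⟩ := Pt.dist_cross hξ hη
  refine ⟨q, hq, ?_⟩
  have e1 : dist (R.ι ξ) (R.pt w hw q) = dist ξ.1 (⟨w, q⟩ : Pt 𝒢) := R.dist_ι _ _
  have e2 : dist (R.pt w hw q) (R.ι η) = dist (⟨w, q⟩ : Pt 𝒢) η.1 := R.dist_ι _ _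
  rw [e1, e2, R.dist_ι]
  exact h

end Rz

/-- hyperconvexity -/
def Hyp (Y : Type u) [MetricSpace Y] : Prop :=
  ∀ F : Set (Y × ℝ), (∀ p ∈ F, ∀ q ∈ F, dist p.1 q.1 ≤ p.2 + q.2) → ∃ z, ∀ p ∈ F, dist z p.1 ≤ p.2

theorem Rz.hyp {𝒢 : Geo 𝒜} {Y : Type u} [MetricSpace Y] (R : Rz 𝒢 Y) : Hyp Y := by
  intro F hF
  obtain ⟨ξ, hξ, h⟩ := 𝒢.helly.helly {p : Pt 𝒢 × ℝ | ∃ hp : p.1.pl ∈ VP, (R.ι ⟨p.1, hp⟩, p.2) ∈ F}
    (fun p hp => hp.1) (by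
      rintro p ⟨hp, hpF⟩ q ⟨hq, hqF⟩
      have := hF _ hpF _ hqF
      simp only at this
      rwa [R.dist_ι] at this)
  refine ⟨R.ι ⟨ξ, hξ⟩, fun p hp => ?_⟩
  obtain ⟨η, hη⟩ := R.exists_pt p.1
  have := h (η.1, p.2) ⟨η.2, by
    show (R.ι η, p.2) ∈ F
    rw [← hη]; exact hp⟩
  rw [hη, R.dist_ι]
  exact this

/-- the space -/
abbrev XX (𝒢 : Geo 𝒜) : Type := SeparationQuotient (VPt 𝒢)

/-- the space is a realisation of the tree of planes -/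
noncomputable def rzX (𝒢 : Geo 𝒜) : Rz 𝒢 (XX 𝒢) where
  ι := SeparationQuotient.mk
  dist_ι ξ η := SeparationQuotient.dist_mk ξ η
  surj := SeparationQuotient.surjective_mk

end Run7.h484.K
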