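import Pool.Agent.Run7.h484.K.Stm
import Pool.Agent.Run7.h484.K.Rz
import Pool.Agent.Run7.h484.Limit

/-! Injective spaces: the conical midpoint map, embedding of hulls, dimension. -/

namespace Run7.h484.K

universe u v

open Set Filter Topology

section

variable {X : Type u} [MetricSpace X]

theorem ext_dist (z : X) : IsExtremal fun x => dist z x := by
  rw [isExtremal_iff]
  constructor
  · intro x y
    rw [dist_comm z x]
    exact dist_triangle x z y
  · intro x ε hε
    refine ⟨z, ?_⟩
    rw [dist_self, dist_comm z x]; linarith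

/-- extremal functions on a hyperconvex space are distance functions -/
theorem Hyp.realize (h : Hyp X) {f : X → ℝ} (hf : IsExtremal f) : ∃ z, ∀ x, f x = dist z x := by
  obtain ⟨z, hz⟩ := h {p | p.2 = f p.1} (by
    rintro ⟨x, r⟩ hx ⟨y, s⟩ hy
    have hx' : r = f x := hx
    have hy' : s = f y := hy
    simp only
    rw [hx', hy']
    exact hf.1 x y)
  refine ⟨z, fun x => ?_⟩
  have := hf.2 (fun x => dist z x) (ext_dist z).1 fun x => hz (x, f x) rfl
  exact (congrFun this x).symm

/-- the point representing an extremal function -/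
noncomputable def Hyp.pt (h : Hyp X) {f : X → ℝ} (hf : IsExtremal f) : X :=
  (h.realize hf).choose

theorem Hyp.pt_dist (h : Hyp X) {f : X → ℝ} (hf : IsExtremal f) (x : X) :
    dist (h.pt hf) x = f x := ((h.realize hf).choose_spec x).symm

theorem Hyp.dist_pt_le (h : Hyp X) {f g : X → ℝ} (hf : IsExtremal f) (hg : IsExtremal g) {c : ℝ}
    (hc : ∀ x, |f x - g x| ≤ c) : dist (h.pt hf) (h.pt hg) ≤ c := by
  have h1 := hc (h.pt hg)
  have h2 : g (h.pt hg) = 0 := by rw [← h.pt_dist hg, dist_self]
  rw [h2, sub_zero] at h1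
  rw [h.pt_dist hf]
  exact (le_abs_self _).trans h1

theorem mid_adm (x y : X) : Adm fun u => (dist x u + dist y u) / 2 := by
  intro u v
  have h1 := dist_triangle u x v
  have h2 := dist_triangle u y v
  rw [dist_comm u x] at h1
  rw [dist_comm u y] at h2
  simp only
  linarith

theorem Hyp.conMid (h : Hyp X) : ∃ m : X → X → X, ConMid m := by
  refine ⟨fun x y => h.pt (pr_ext (mid_adm x y)), ?_⟩
  have hcon : ∀ x y x' y' : X, dist (h.pt (pr_ext (mid_adm x y))) (h.pt (pr_ext (mid_adm x' y'))) ≤
      (dist x x' + dist y y') / 2 := by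
    intro x y x' y'
    apply h.dist_pt_le
    apply pr_lip (mid_adm x y) (mid_adm x' y')
    intro u
    have h1 := abs_le.1 (abs_dist_sub_le x x' u)
    have h2 := abs_le.1 (abs_dist_sub_le y y' u)
    rw [abs_le]
    constructor <;> linarith
  have hself : ∀ x : X, h.pt (pr_ext (mid_adm x x)) = x := by
    intro x
    apply dist_le_zero.1
    rw [h.pt_dist]
    have : (fun u => (dist x u + dist x u) / 2) = fun u => dist x u := by
      funext u; ring
    rw [this, pr_self (ext_dist x)]
    exact (dist_self x).le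
  have hsymm : ∀ x y : X, h.pt (pr_ext (mid_adm x y)) = h.pt (pr_ext (mid_adm y x)) := by
    intro x y
    apply dist_le_zero.1
    apply h.dist_pt_le
    intro u
    have : (fun u => (dist x u + dist y u) / 2) = fun u => (dist y u + dist x u) / 2 := by
      funext u; ring
    rw [this, sub_self, abs_zero]
  refine ⟨hsymm, hcon, ?_⟩
  have hle : ∀ x y : X, dist x (h.pt (pr_ext (mid_adm x y))) ≤ dist x y / 2 := by
    intro x y
    have := hcon x x x y
    rw [hself, dist_self, zero_add] at this
    exact this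
  intro x y
  have h1 := hle x y
  have h2 := hle y x
  rw [hsymm y x, dist_comm y x] at h2
  have h3 := dist_triangle x (h.pt (pr_ext (mid_adm x y))) y
  rw [dist_comm (h.pt (pr_ext (mid_adm x y))) y] at h3
  linarith

/-! ### Hulls of subsets -/

/-- the largest extension of a function on a subset -/
noncomputable def exf (Y : Set X) (f : Y → ℝ) (x : X) : ℝ := ⨅ y : Y, (f y + dist (y : X) x)

theorem exf_bdd (Y : Set X) {f : Y → ℝ} (hf : IsExtremal f) (x : X) :
    BddBelow (range fun y : Y => f y + dist (y : X) x) :=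
  ⟨0, by rintro _ ⟨y, rfl⟩; exact add_nonneg (hf.nonneg y) dist_nonneg⟩

theorem exf_self (Y : Set X) {f : Y → ℝ} (hf : IsExtremal f) (y : Y) : exf Y f y = f y := by
  have : Nonempty Y := ⟨y⟩
  apply le_antisymm
  · have := ciInf_le (exf_bdd Y hf y) y
    simp only [dist_self, add_zero] at this
    exact this
  · apply le_ciInf
    intro y'
    have := hf.lip y y'
    rw [dist_comm y y'] at this
    have h2 : dist (y' : X) (y : X) = dist y' y := rfl
    rw [h2]; linarith

theorem exf_adm (Y : Set X) [Nonempty Y] {f : Y → ℝ} (hf : IsExtremal f) : Adm (exf Y f) := by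
  intro x x'
  have key : ∀ y y' : Y, dist x x' ≤ (f y + dist (y : X) x) + (f y' + dist (y' : X) x') := by
    intro y y'
    have h1 := hf.1 y y'
    have h2 := dist_triangle x (y : X) x'
    have h3 := dist_triangle (y : X) (y' : X) x'
    have h4 : dist (y : X) (y' : X) = dist y y' := rfl
    rw [dist_comm x (y : X)] at h2
    linarith
  have h1 : ∀ y' : Y, dist x x' - (f y' + dist (y' : X) x') ≤ exf Y f x := by
    intro y'
    apply le_ciInf
    intro y
    linarith [key y y']
  have h2 : dist x x' - exf Y f x ≤ exf Y f x' := by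
    apply le_ciInf
    intro y'
    linarith [h1 y']
  linarith

theorem exf_lip (Y : Set X) [Nonempty Y] {f g : Y → ℝ} (hf : IsExtremal f) (hg : IsExtremal g)
    {c : ℝ} (h : ∀ y, |f y - g y| ≤ c) (x : X) : |exf Y f x - exf Y g x| ≤ c := by
  have key : ∀ f g : Y → ℝ, IsExtremal f → (∀ y, |f y - g y| ≤ c) →
      exf Y f x - c ≤ exf Y g x := by
    intro f g hf h
    apply le_ciInf
    intro y
    have h1 := ciInf_le (exf_bdd Y hf x) y
    have h2 := (abs_le.1 (h y)).2
    have h3 : exf Y f x ≤ f y + dist (y : X) x := h1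
    linarith
  have h1 := key f g hf h
  have h2 := key g f hg fun y => by rw [abs_sub_comm]; exact h y
  rw [abs_le]
  constructor <;> linarith

/-- the hull of a nonempty subset embeds isometrically into a hyperconvex space -/
theorem Hyp.embed (h : Hyp X) (Y : Set X) [Nonempty Y] :
    ∃ i : InjHull Y → X, Isometry i := by
  refine ⟨fun f => h.pt (pr_ext (exf_adm Y f.extremal)), ?_⟩
  apply Isometry.of_dist_eq
  intro f g
  have hres : ∀ f : InjHull Y, ∀ y : Y, pr (exf Y f.val) y = f.val y := by
    intro f y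
    have h1 := f.extremal.2 (fun y : Y => pr (exf Y f.val) y)
      (fun y y' => (pr_ext (exf_adm Y f.extremal)).1 y y')
      (fun y => by
        have := pr_le (exf_adm Y f.extremal) 0 (y : X)
        rw [show itq (exf Y f.val) 0 = exf Y f.val from rfl, exf_self Y f.extremal] at this
        exact this)
    exact congrFun h1 y
  apply le_antisymm
  · apply h.dist_pt_le
    apply pr_lip (exf_adm Y f.extremal) (exf_adm Y g.extremal)
    apply exf_lip Y f.extremal g.extremal
    intro y
    exact hull_abs_le f g y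
  · apply dist_le_of dist_nonneg
    intro y
    rw [← hres f y, ← hres g y, ← h.pt_dist (pr_ext (exf_adm Y f.extremal)) y,
      ← h.pt_dist (pr_ext (exf_adm Y g.extremal)) y]
    exact abs_dist_sub_le _ _ _

theorem Hyp.injective (h : Hyp X) : IsInjective X := by
  intro ι x r hr hxr
  obtain ⟨z, hz⟩ := h (range fun i => (x i, r i)) (by
    rintro _ ⟨i, rfl⟩ _ ⟨j, rfl⟩
    exact hxr i j)
  exact ⟨z, mem_iInter.2 fun i => Metric.mem_closedBall.2 (hz _ ⟨i, rfl⟩)⟩

theorem Hyp.combDim (h : Hyp X) {n : ℕ} (hn : dimH (univ : Set X) ≤ n) : CombDimLE X n := by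
  intro Y _
  rcases Y.eq_empty_or_nonempty with rfl | hY
  · have hsub : (univ : Set (InjHull (∅ : Set X))).Subsingleton := by
      intro f _ g _
      apply InjHull.ext
      funext y
      exact absurd y.2 (notMem_empty _)
    rw [dimH_subsingleton hsub]
    exact bot_le
  · have : Nonempty Y := hY.to_subtype
    obtain ⟨i, hi⟩ := h.embed Y
    rw [← hi.dimH_image]
    exact (dimH_mono (subset_univ _)).trans hn

end

section

variable {𝒜 : Auto} {𝒢 : Geo 𝒜} {Y : Type u} [MetricSpace Y]

theorem Rz.lip (R : Rz 𝒢 Y) (w : VP) :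
    LipschitzWith 2 fun z : ℝ × ℝ => R.pt w.1 w.2 z := by
  apply LipschitzWith.of_dist_le_mul
  intro z z'
  rw [R.dist_same]
  have h1 := 𝒢.hi (𝒜.cls w.1) z z'
  have h2 : dist z z' = max (dist z.1 z'.1) (dist z.2 z'.2) := rfl
  rw [h2, Real.dist_eq, Real.dist_eq]
  have h3 := le_max_left |z.1 - z'.1| |z.2 - z'.2|
  have h4 := le_max_right |z.1 - z'.1| |z.2 - z'.2|
  have h5 : ((2 : NNReal) : ℝ) = 2 := rfl
  rw [h5]
  unfold N1 at h1
  linarith

instance : Countable VP := by
  have : Function.Injective fun w : VP => w.1.val := fun w w' h => Subtype.ext (W.ext h)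
  exact this.countable

theorem Rz.dimH_le (R : Rz 𝒢 Y) : dimH (univ : Set Y) ≤ 2 := by
  have h1 : (univ : Set Y) = ⋃ w : VP, range fun z : ℝ × ℝ => R.pt w.1 w.2 z := by
    symm
    apply eq_univ_of_forall
    intro y
    obtain ⟨ξ, rfl⟩ := R.exists_pt y
    exact mem_iUnion.2 ⟨⟨ξ.1.pl, ξ.2⟩, ξ.1.pos, rfl⟩
  rw [h1, dimH_iUnion]
  apply iSup_le
  intro w
  have h2 := (R.lip w).dimH_range_le
  have h3 : dimH (univ : Set (ℝ × ℝ)) = 2 := by
    rw [Real.dimH_univ_eq_finrank]
    have : Module.finrank ℝ (ℝ × ℝ) = 2 := by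
      rw [Module.finrank_prod, Module.finrank_self]
    rw [this]; rfl
  rwa [h3] at h2

end

end Run7.h484.K
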