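import Pool.Agent.Run7.h484.K.Adapt

/-! Local uniqueness of straight curves in trees of planes with several kinds of planes. -/

namespace Run7.h484.K

universe u

open Set Filter Topology

variable {𝒜 : Auto} {𝒢 : Geo 𝒜}

section

variable {Y : Type u} [MetricSpace Y] (R : Rz 𝒢 Y)

theorem dist_gate_le (w : VP) (m : VPt 𝒢) :
    dist (R.ι m) (R.pt w.1 w.2 (Pt.S w.1 m.1).g) ≤ (Pt.S w.1 m.1).D + (Pt.S w.1 m.1).h := by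
  rw [R.dist_ι_pt, Pt.dist_mk]
  exact 𝒢.ev_gate _

theorem dist_gate_none (w : VP) (m : VPt 𝒢) (hk : 𝒢.κ (𝒜.cls w) = none) :
    dist (R.ι m) (R.pt w.1 w.2 (Pt.S w.1 m.1).g) = (Pt.S w.1 m.1).D := by
  rw [R.dist_ι_pt, Pt.dist_mk]
  exact 𝒢.ev_gate_none (by rw [Pt.S_c]; exact hk)

theorem gate_eq {w : VP} {m : VPt 𝒢} (h : (Pt.S w.1 m.1).D + (Pt.S w.1 m.1).h ≤ 0) {z : ℝ × ℝ}
    (hz : (Pt.S w.1 m.1).g = z) : R.ι m = R.pt w.1 w.2 z := by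
  rw [← hz]
  exact dist_le_zero.1 ((dist_gate_le R w m).trans h)

/-- intermediate points of two points of a plane -/
theorem P_gen (w : VP) (za zb : ℝ × ℝ) (m : VPt 𝒢) {θ : ℝ}
    (h : Mix θ (R.pt w.1 w.2 za) (R.pt w.1 w.2 zb) (R.ι m)) :
    R.ι m = R.pt w.1 w.2 ((1 - θ) * za.1 + θ * zb.1, (1 - θ) * za.2 + θ * zb.2) := by
  have hD0 := 𝒢.D_nonneg w.1 m.1
  rcases hk : 𝒢.κ (𝒜.cls w.1) with _ | b
  · have key : ∀ s₁ s₂ : ℝ, (s₁ = 1 ∨ s₁ = -1) → (s₂ = 1 ∨ s₂ = -1) → _ := fun s₁ s₂ h₁ h₂ =>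
      mixN R (a := ⟨⟨w.1, za⟩, w.2⟩) (b := ⟨⟨w.1, zb⟩, w.2⟩) h hk false h₁ h₂
    simp only [Pt.S_pt, Geo.ini, alc, pec, Bool.false_eq_true, if_false] at key
    have k1 := key 1 1 (Or.inl rfl) (Or.inl rfl)
    have k2 := key 1 (-1) (Or.inl rfl) (Or.inr rfl)
    have k3 := key (-1) 1 (Or.inr rfl) (Or.inl rfl)
    have k4 := key (-1) (-1) (Or.inr rfl) (Or.inr rfl)
    have hD1 : dist (R.ι m) (R.pt w.1 w.2 (Pt.S w.1 m.1).g) ≤ 0 := by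
      rw [dist_gate_none R w m hk]; linarith
    rw [dist_le_zero.1 hD1]
    congr 1
    ext
    · simp only; linarith
    · simp only; linarith
  · have kU := fun (s : ℝ) (hs : s = 1 ∨ s = -1) =>
      mixU R (a := ⟨⟨w.1, za⟩, w.2⟩) (b := ⟨⟨w.1, zb⟩, w.2⟩) h hk hs
    have kY := fun (s : ℝ) (hs : s = 1 ∨ s = -1) =>
      mixY R (a := ⟨⟨w.1, za⟩, w.2⟩) (b := ⟨⟨w.1, zb⟩, w.2⟩) h hk hs
    simp only [Pt.S_pt, Geo.ini] at kU kY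
    have k1 := kU 1 (Or.inl rfl)
    have k2 := kU (-1) (Or.inr rfl)
    have k3 := kY 1 (Or.inl rfl)
    have k4 := kY (-1) (Or.inr rfl)
    have hh0 := (Pt.S w.1 m.1).hh
    apply gate_eq R (by linarith)
    have e1 : sm (Pt.S w.1 m.1).g = (1 - θ) * sm za + θ * sm zb := by linarith
    have e2 : pec b (Pt.S w.1 m.1).g = (1 - θ) * pec b za + θ * pec b zb := by linarith
    unfold sm at e1
    cases b
    · simp only [pec, Bool.false_eq_true, if_false] at e2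
      ext
      · simp only; linarith
      · simp only; linarith
    · simp only [pec, if_true] at e2
      ext
      · simp only; linarith
      · simp only; linarith

/-- crossing a line -/
theorem F_gen (w : VP) (e : Letter) (hV : w.1 * W.of e ∈ VP) (za zb z₀ : ℝ × ℝ)
    (hz : z₀ ∈ line e)
    (h0 : Mix (1 / 2) (R.pt w.1 w.2 za) (R.pt _ hV zb) (R.pt w.1 w.2 z₀))
    (m : VPt 𝒢) (hm : Mix (1 / 2) (R.pt w.1 w.2 za) (R.pt _ hV zb) (R.ι m)) :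
    R.ι m = R.pt w.1 w.2 z₀ := by
  set w' : VP := ⟨w.1 * W.of e, hV⟩ with hw'
  have hcls : 𝒜.cls (w.1 * W.of e) = 𝒜.nx e.1 (𝒜.cls w.1) := 𝒜.cls_mul_of w.1 e
  obtain ⟨sa, hsa, hα⟩ := exists_sgn (𝒢.ve (𝒜.cls w.1) e za)
  obtain ⟨sb, hsb, hβ⟩ := exists_sgn (𝒢.ve (𝒜.nx e.1 (𝒜.cls w.1)) e zb)
  have hD0 := 𝒢.D_nonneg w.1 m.1
  have hh0 := (Pt.S w.1 m.1).hh
  have hD0' := 𝒢.D_nonneg (w.1 * W.of e) m.1
  have hh0' := (Pt.S (w.1 * W.of e) m.1).hh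
  by_cases hk : 𝒢.κ (𝒜.cls w.1) = some e.1
  · have hk' : 𝒢.κ (𝒜.nx e.1 (𝒜.cls w.1)) = some e.1 := 𝒢.comp _ _ hk
    have hkw : 𝒢.κ (𝒜.cls w'.1) = some e.1 := by rw [hw', hcls]; exact hk'
    have t1 := fun (s : ℝ) (hs : s = 1 ∨ s = -1) =>
      mixT R (a := ⟨⟨w.1, za⟩, w.2⟩) (b := ⟨⟨w.1 * W.of e, zb⟩, hV⟩)
        (m := ⟨⟨w.1, z₀⟩, w.2⟩) h0 hk hs
    have v1 := mixV R (a := ⟨⟨w.1, za⟩, w.2⟩) (b := ⟨⟨w.1 * W.of e, zb⟩, hV⟩)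
      (m := ⟨⟨w.1, z₀⟩, w.2⟩) h0 hk hsa
    have v2 := mixV R (a := ⟨⟨w.1, za⟩, w.2⟩) (b := ⟨⟨w.1 * W.of e, zb⟩, hV⟩)
      (m := ⟨⟨w.1, z₀⟩, w.2⟩) h0 hkw hsb
    have t3 := fun (s : ℝ) (hs : s = 1 ∨ s = -1) =>
      mixT R (a := ⟨⟨w.1, za⟩, w.2⟩) (b := ⟨⟨w.1 * W.of e, zb⟩, hV⟩) hm hk hs
    have t4 := fun (s : ℝ) (hs : s = 1 ∨ s = -1) =>
      mixT R (a := ⟨⟨w.1, za⟩, w.2⟩) (b := ⟨⟨w.1 * W.of e, zb⟩, hV⟩) hm hkw hs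
    have v3 := mixV R (a := ⟨⟨w.1, za⟩, w.2⟩) (b := ⟨⟨w.1 * W.of e, zb⟩, hV⟩) hm hk hsa
    have v4 := mixV R (a := ⟨⟨w.1, za⟩, w.2⟩) (b := ⟨⟨w.1 * W.of e, zb⟩, hV⟩) hm hkw hsb
    simp only [hw', Pt.S_pt, S_adj, S_adj', hcls, Geo.tr_ini_axis hk, Geo.tr_ini_axis hk',
      𝒜.inv] at t1 v1 v2 t3 t4 v3 v4
    simp only [Geo.ini, Geo.te_mkp, Geo.ve_mkp, Geo.ve_line _ hz, abs_zero, mul_zero, sub_zero,
      add_zero, zero_add, zero_sub] at t1 v1 v2 t3 t4 v3 v4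
    have a1 := t1 1 (Or.inl rfl)
    have a2 := t1 (-1) (Or.inr rfl)
    have b1 := t3 1 (Or.inl rfl)
    have b2 := t3 (-1) (Or.inr rfl)
    have c1 := t4 1 (Or.inl rfl)
    have c2 := t4 (-1) (Or.inr rfl)
    have ht0 := Geo.te_line (𝒢 := 𝒢) (𝒜.cls w.1) hz
    have ht0' := Geo.te_line (𝒢 := 𝒢) (𝒜.nx e.1 (𝒜.cls w.1)) hz
    rcases Pt.S_dich w.1 e m.1 with hd | hd
    · have hg : (Pt.S (w.1 * W.of e) m.1).g ∈ line e := by rw [hd]; exact 𝒢.tr_mem e _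
      rw [Geo.ve_line _ hg] at v4
      rw [R.glue w.1 w.2 e hV hz]
      refine gate_eq R (w := w') ?_ ?_
      · show (Pt.S (w.1 * W.of e) m.1).D + (Pt.S (w.1 * W.of e) m.1).h ≤ 0
        linarith
      · apply Geo.tv_inj (𝒢 := 𝒢) (c := 𝒜.nx e.1 (𝒜.cls w.1)) (e := e)
        · show 𝒢.te _ e (Pt.S (w.1 * W.of e) m.1).g = _
          linarith
        · show 𝒢.ve _ e (Pt.S (w.1 * W.of e) m.1).g = _
          rw [Geo.ve_line _ hg, Geo.ve_line _ hz]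
    · have hg : (Pt.S w.1 m.1).g ∈ line e := by rw [hd]; exact 𝒢.tr_mem e _
      rw [Geo.ve_line _ hg] at v3
      refine gate_eq R (w := w) ?_ ?_
      · linarith
      · apply Geo.tv_inj (𝒢 := 𝒢) (c := 𝒜.cls w.1) (e := e)
        · linarith
        · rw [Geo.ve_line _ hg, Geo.ve_line _ hz]
  · have hk' : 𝒢.κ (𝒜.nx e.1 (𝒜.cls w.1)) ≠ some e.1 := fun h => hk ((𝒢.comp_iff _ _).1 h)
    have hkw : 𝒢.κ (𝒜.cls w'.1) ≠ some e.1 := by rw [hw', hcls]; exact hk'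
    have ha : (Pt.S w.1 (⟨w.1, za⟩ : Pt 𝒢)).h = 0 := by rw [Pt.S_pt]; rfl
    have hb : (Pt.S w.1 (⟨w.1 * W.of e, zb⟩ : Pt 𝒢)).h = 0 := by
      rw [S_adj]; exact 𝒢.tr_h (by rw [hcls]; exact hk')
    have ha' : (Pt.S (w.1 * W.of e) (⟨w.1, za⟩ : Pt 𝒢)).h = 0 := by
      rw [S_adj']; exact 𝒢.tr_h hk
    have hb' : (Pt.S (w.1 * W.of e) (⟨w.1 * W.of e, zb⟩ : Pt 𝒢)).h = 0 := by
      rw [Pt.S_pt]; rfl
    have i1 := fun (s : ℝ) (hs : s = 1 ∨ s = -1) =>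
      mixD R (a := ⟨⟨w.1, za⟩, w.2⟩) (b := ⟨⟨w.1 * W.of e, zb⟩, hV⟩) (m := ⟨⟨w.1, z₀⟩, w.2⟩)
        h0 hk ha hb hs hsa
    have i2 := fun (s : ℝ) (hs : s = 1 ∨ s = -1) =>
      mixD R (a := ⟨⟨w.1, za⟩, w.2⟩) (b := ⟨⟨w.1 * W.of e, zb⟩, hV⟩) (m := ⟨⟨w.1, z₀⟩, w.2⟩)
        h0 hkw ha' hb' hs hsb
    have i3 := fun (s : ℝ) (hs : s = 1 ∨ s = -1) =>
      mixD R (a := ⟨⟨w.1, za⟩, w.2⟩) (b := ⟨⟨w.1 * W.of e, zb⟩, hV⟩) hm hk ha hb hs hsa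
    have i4 := fun (s : ℝ) (hs : s = 1 ∨ s = -1) =>
      mixD R (a := ⟨⟨w.1, za⟩, w.2⟩) (b := ⟨⟨w.1 * W.of e, zb⟩, hV⟩) hm hkw ha' hb' hs hsb
    simp only [hw', Pt.S_pt, S_adj, S_adj', hcls, Geo.tr_ini_diag hk, Geo.tr_ini_diag hk',
      𝒜.inv] at i1 i2 i3 i4
    simp only [Geo.ini, Geo.te_mkp, Geo.ve_mkp, Geo.ve_line _ hz, abs_zero, mul_zero, sub_zero,
      add_zero, zero_add, zero_sub] at i1 i2 i3 i4
    have a1 := i1 1 (Or.inl rfl)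
    have a2 := i1 (-1) (Or.inr rfl)
    have a3 := i2 1 (Or.inl rfl)
    have a4 := i2 (-1) (Or.inr rfl)
    have b1 := i3 1 (Or.inl rfl)
    have b2 := i3 (-1) (Or.inr rfl)
    have b3 := i4 1 (Or.inl rfl)
    have b4 := i4 (-1) (Or.inr rfl)
    have ht0 := Geo.te_line (𝒢 := 𝒢) (𝒜.cls w.1) hz
    have ht0' := Geo.te_line (𝒢 := 𝒢) (𝒜.nx e.1 (𝒜.cls w.1)) hz
    rcases Pt.S_dich w.1 e m.1 with hd | hd
    · have hg : (Pt.S (w.1 * W.of e) m.1).g ∈ line e := by rw [hd]; exact 𝒢.tr_mem e _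
      have hh : (Pt.S (w.1 * W.of e) m.1).h = 0 := by
        rw [hd]; exact 𝒢.tr_h (by rw [Pt.S_c]; exact hk)
      rw [Geo.ve_line _ hg] at b3 b4
      rw [R.glue w.1 w.2 e hV hz]
      refine gate_eq R (w := w') ?_ ?_
      · show (Pt.S (w.1 * W.of e) m.1).D + (Pt.S (w.1 * W.of e) m.1).h ≤ 0
        linarith
      · apply Geo.tv_inj (𝒢 := 𝒢) (c := 𝒜.nx e.1 (𝒜.cls w.1)) (e := e)
        · show 𝒢.te _ e (Pt.S (w.1 * W.of e) m.1).g = _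
          linarith
        · show 𝒢.ve _ e (Pt.S (w.1 * W.of e) m.1).g = _
          rw [Geo.ve_line _ hg, Geo.ve_line _ hz]
    · have hg : (Pt.S w.1 m.1).g ∈ line e := by rw [hd]; exact 𝒢.tr_mem e _
      have hh : (Pt.S w.1 m.1).h = 0 := by
        rw [hd]; exact 𝒢.tr_h (by rw [Pt.S_c, hcls]; exact hk')
      rw [Geo.ve_line _ hg] at b1 b2
      refine gate_eq R (w := w) ?_ ?_
      · linarith
      · apply Geo.tv_inj (𝒢 := 𝒢) (c := 𝒜.cls w.1) (e := e)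
        · linarith
        · rw [Geo.ve_line _ hg, Geo.ve_line _ hz]

/-- relation at the crossing point -/
theorem X_gen (w : VP) (e : Letter) (hV : w.1 * W.of e ∈ VP) {za zd zc : ℝ × ℝ}
    (hz : zc ∈ line e) {θ : ℝ}
    (h : Mix θ (R.pt _ hV za) (R.pt w.1 w.2 zd) (R.pt w.1 w.2 zc)) :
    (1 - θ) * |𝒢.ve (𝒜.nx e.1 (𝒜.cls w.1)) e za| = θ * |𝒢.ve (𝒜.cls w.1) e zd| ∧
      alc e.1 zc = (1 - θ) * 𝒢.te (𝒜.nx e.1 (𝒜.cls w.1)) e za + θ * 𝒢.te (𝒜.cls w.1) e zd := by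
  set w' : VP := ⟨w.1 * W.of e, hV⟩ with hw'
  have hcls : 𝒜.cls (w.1 * W.of e) = 𝒜.nx e.1 (𝒜.cls w.1) := 𝒜.cls_mul_of w.1 e
  obtain ⟨sa, hsa, hα⟩ := exists_sgn (𝒢.ve (𝒜.nx e.1 (𝒜.cls w.1)) e za)
  obtain ⟨sd, hsd, hδ⟩ := exists_sgn (𝒢.ve (𝒜.cls w.1) e zd)
  by_cases hk : 𝒢.κ (𝒜.cls w.1) = some e.1
  · have hk' : 𝒢.κ (𝒜.nx e.1 (𝒜.cls w.1)) = some e.1 := 𝒢.comp _ _ hk
    have hkw : 𝒢.κ (𝒜.cls w'.1) = some e.1 := by rw [hw', hcls]; exact hk'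
    have t1 := fun (s : ℝ) (hs : s = 1 ∨ s = -1) =>
      mixT R (a := ⟨⟨w.1 * W.of e, za⟩, hV⟩) (b := ⟨⟨w.1, zd⟩, w.2⟩)
        (m := ⟨⟨w.1, zc⟩, w.2⟩) h hk hs
    have v1 := mixV R (a := ⟨⟨w.1 * W.of e, za⟩, hV⟩) (b := ⟨⟨w.1, zd⟩, w.2⟩)
      (m := ⟨⟨w.1, zc⟩, w.2⟩) h hk hsd
    have v2 := mixV R (a := ⟨⟨w.1 * W.of e, za⟩, hV⟩) (b := ⟨⟨w.1, zd⟩, w.2⟩)
      (m := ⟨⟨w.1, zc⟩, w.2⟩) h hkw hsa
    simp only [hw', Pt.S_pt, S_adj, S_adj', hcls, Geo.tr_ini_axis hk, Geo.tr_ini_axis hk',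
      𝒜.inv] at t1 v1 v2
    simp only [Geo.ini, Geo.te_mkp, Geo.ve_mkp, Geo.ve_line _ hz, Geo.te_line _ hz, abs_zero,
      mul_zero, sub_zero, add_zero, zero_add, zero_sub] at t1 v1 v2
    have a1 := t1 1 (Or.inl rfl)
    have a2 := t1 (-1) (Or.inr rfl)
    constructor
    · rw [← hα, ← hδ]
      rw [← hα] at v1
      rw [← hδ] at v2
      linarith
    · linarith
  · have hk' : 𝒢.κ (𝒜.nx e.1 (𝒜.cls w.1)) ≠ some e.1 := fun h => hk ((𝒢.comp_iff _ _).1 h)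
    have hkw : 𝒢.κ (𝒜.cls w'.1) ≠ some e.1 := by rw [hw', hcls]; exact hk'
    have ha : (Pt.S w.1 (⟨w.1 * W.of e, za⟩ : Pt 𝒢)).h = 0 := by
      rw [S_adj]; exact 𝒢.tr_h (by rw [hcls]; exact hk')
    have hb : (Pt.S w.1 (⟨w.1, zd⟩ : Pt 𝒢)).h = 0 := by rw [Pt.S_pt]; rfl
    have ha' : (Pt.S (w.1 * W.of e) (⟨w.1 * W.of e, za⟩ : Pt 𝒢)).h = 0 := by
      rw [Pt.S_pt]; rfl
    have hb' : (Pt.S (w.1 * W.of e) (⟨w.1, zd⟩ : Pt 𝒢)).h = 0 := by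
      rw [S_adj']; exact 𝒢.tr_h hk
    have i1 := fun (s : ℝ) (hs : s = 1 ∨ s = -1) =>
      mixD R (a := ⟨⟨w.1 * W.of e, za⟩, hV⟩) (b := ⟨⟨w.1, zd⟩, w.2⟩) (m := ⟨⟨w.1, zc⟩, w.2⟩)
        h hk ha hb hs hsd
    have i2 := fun (s : ℝ) (hs : s = 1 ∨ s = -1) =>
      mixD R (a := ⟨⟨w.1 * W.of e, za⟩, hV⟩) (b := ⟨⟨w.1, zd⟩, w.2⟩) (m := ⟨⟨w.1, zc⟩, w.2⟩)
        h hkw ha' hb' hs hsa
    simp only [hw', Pt.S_pt, S_adj, S_adj', hcls, Geo.tr_ini_diag hk, Geo.tr_ini_diag hk',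
      𝒜.inv] at i1 i2
    simp only [Geo.ini, Geo.te_mkp, Geo.ve_mkp, Geo.ve_line _ hz, Geo.te_line _ hz, abs_zero,
      mul_zero, sub_zero, add_zero, zero_add, zero_sub] at i1 i2
    have a1 := i1 1 (Or.inl rfl)
    have a2 := i1 (-1) (Or.inr rfl)
    have a3 := i2 1 (Or.inl rfl)
    have a4 := i2 (-1) (Or.inr rfl)
    rw [← hα, ← hδ]
    rw [← hα] at a1 a2
    rw [← hδ] at a3 a4
    constructor
    · linarith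
    · linarith

end

end Run7.h484.K
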