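import Pool.Agent.Run7.h484.K.Rz
import Pool.Agent.Run7.h484.Local

/-! Local structure of the tree of planes; properness. -/

namespace Run7.h484.K

universe u

open Set Filter Topology

theorem line_inj {e e' : Letter} {z : ℝ × ℝ} (h : z ∈ line e) (h' : z ∈ line e')
    (hty : e.1 = e'.1) : e = e' := by
  have h1 : pec e.1 z = e.2 := h
  have h2 : pec e'.1 z = e'.2 := h'
  rw [← hty, h1] at h2
  have : e.2 = e'.2 := by exact_mod_cast h2
  exact Prod.ext hty this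

theorem line_closed (e : Letter) : IsClosed (line e) := by
  rcases e with ⟨_ | _, k⟩
  · exact isClosed_eq continuous_snd continuous_const
  · exact isClosed_eq continuous_fst continuous_const

theorem Geo.near {𝒜 : Auto} (𝒢 : Geo 𝒜) (S : St 𝒜) : ∃ g, ∀ z, 𝒢.ev S g ≤ 𝒢.ev S z := by
  refine ⟨S.g, fun z => ?_⟩
  rcases h : 𝒢.κ S.c with _ | b
  · rw [𝒢.ev_none h, 𝒢.ev_none h]
    have h1 : N1 S.g S.g = 0 := by simp [N1]
    rw [h1]
    linarith [N1_nonneg S.g z]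
  · rw [𝒢.ev_eq2 h, 𝒢.ev_eq2 h]
    exact ev2_near ⟨S.D, S.h, cz b S.g, S.hh⟩ (cz b z)

section local_

variable {𝒜 : Auto} {𝒢 : Geo 𝒜} {Y : Type u} [MetricSpace Y] (R : Rz 𝒢 Y)

/-- a plane as a subset -/
def flatM (R : Rz 𝒢 Y) (w : VP) : Set Y := range fun z => R.pt w.1 w.2 z

theorem flatM_closed (w : VP) : IsClosed (flatM R w) := by
  apply isClosed_of_closure_subset
  intro y hy
  obtain ⟨ξ, rfl⟩ := R.exists_pt y
  obtain ⟨g, hg⟩ := 𝒢.near (Pt.S w.1 ξ.1)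
  refine ⟨g, ?_⟩
  symm
  apply dist_le_zero.1
  apply le_of_forall_pos_le_add
  intro ε hε
  obtain ⟨x, ⟨z, rfl⟩, hx⟩ := Metric.mem_closure_iff.1 hy ε hε
  simp only at hx ⊢
  rw [R.dist_ι_pt, Pt.dist_mk] at hx ⊢
  linarith [hg z]

theorem mem_some_flatM (y : Y) : ∃ w : VP, y ∈ flatM R w := by
  obtain ⟨ξ, rfl⟩ := R.exists_pt y
  exact ⟨⟨ξ.1.pl, ξ.2⟩, ξ.1.pos, rfl⟩

theorem fin_near (y : Y) (r : ℝ) : {w : VP | ∃ z, dist y (R.pt w.1 w.2 z) ≤ r}.Finite := by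
  have hf := 𝒢.fin (dist (R.pt 1 one_mem_VP (0, 0)) y + r)
  apply Set.Finite.of_finite_image (f := Subtype.val) _ Subtype.val_injective.injOn
  apply hf.subset
  rintro _ ⟨w, ⟨z, hz⟩, rfl⟩
  refine ⟨w.2, z, ?_⟩
  rw [← R.dist_pt 1 w.1 one_mem_VP w.2]
  have := dist_triangle (R.pt 1 one_mem_VP (0, 0)) y (R.pt w.1 w.2 z)
  linarith

include R in
theorem Rz.proper : ProperSpace Y := by
  have hcont : ∀ w : VP, Continuous fun z : ℝ × ℝ => R.pt w.1 w.2 z := by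
    intro w
    apply LipschitzWith.continuous (K := 2)
    apply LipschitzWith.of_dist_le_mul
    intro z z'
    rw [R.dist_same]
    have h1 := 𝒢.hi (𝒜.cls w.1) z z'
    have h2 : dist z z' = max (dist z.1 z'.1) (dist z.2 z'.2) := rfl
    rw [h2, Real.dist_eq, Real.dist_eq]
    have h3 := le_max_left |z.1 - z'.1| |z.2 - z'.2|
    have h4 := le_max_right |z.1 - z'.1| |z.2 - z'.2|
    have h5 : ((2 : NNReal) : ℝ) = 2 := rfl
    rw [h5]
    unfold N1 at h1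
    linarith
  have hball : ∀ r : ℝ, IsCompact (Metric.closedBall (R.pt 1 one_mem_VP (0, 0)) r) := by
    intro r
    have hF := fin_near R (R.pt 1 one_mem_VP (0, 0)) r
    have hK : IsCompact (⋃ w ∈ {w : VP | ∃ z, dist (R.pt 1 one_mem_VP (0, 0))
        (R.pt w.1 w.2 z) ≤ r}, (fun z : ℝ × ℝ => R.pt w.1 w.2 z) ''
          Metric.closedBall ((0, 0) : ℝ × ℝ) (2 * r)) :=
      hF.isCompact_biUnion fun w _ => (isCompact_closedBall _ _).image (hcont w)
    apply hK.of_isClosed_subset Metric.isClosed_closedBall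
    intro y hy
    rw [Metric.mem_closedBall, dist_comm] at hy
    obtain ⟨w, z, rfl⟩ := mem_some_flatM R y
    simp only at hy
    refine mem_iUnion₂.2 ⟨w, ⟨z, hy⟩, z, ?_, rfl⟩
    rw [Metric.mem_closedBall, dist_comm]
    have h3 : |0 - z.1| ≤ 2 * dist (R.pt 1 one_mem_VP (0, 0)) (R.pt w.1 w.2 z) :=
      R.lo_pt true 1 w.1 one_mem_VP w.2 (0, 0) z
    have h4 : |0 - z.2| ≤ 2 * dist (R.pt 1 one_mem_VP (0, 0)) (R.pt w.1 w.2 z) :=
      R.lo_pt false 1 w.1 one_mem_VP w.2 (0, 0) z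
    have h5 : dist ((0, 0) : ℝ × ℝ) z = max (dist (0:ℝ) z.1) (dist (0:ℝ) z.2) := rfl
    rw [h5, Real.dist_eq, Real.dist_eq]
    exact max_le (by linarith) (by linarith)
  refine ⟨fun x r => ?_⟩
  apply (hball (r + dist x (R.pt 1 one_mem_VP (0, 0)))).of_isClosed_subset
    Metric.isClosed_closedBall
  exact Metric.closedBall_subset_closedBall' (le_refl _)

/-- near a point, all planes pass through the point -/
theorem near_planes (m₀ : Y) : ∃ ε > 0, ∀ a : Y, dist a m₀ < ε →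
    ∃ w : VP, a ∈ flatM R w ∧ m₀ ∈ flatM R w := by
  set F : Set VP := {w : VP | ∃ z, dist m₀ (R.pt w.1 w.2 z) ≤ 1} with hF
  set F' : Set VP := {w ∈ F | m₀ ∉ flatM R w} with hF'
  have hfin : F'.Finite := (fin_near R m₀ 1).subset fun w hw => hw.1
  have hcl : IsClosed (⋃ w ∈ F', flatM R w) :=
    hfin.isClosed_biUnion fun w _ => flatM_closed R w
  have hnot : m₀ ∉ ⋃ w ∈ F', flatM R w := by
    intro hcon
    obtain ⟨w, hw, hm⟩ := mem_iUnion₂.1 hcon
    exact hw.2 hm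
  obtain ⟨ε, hε, hb⟩ := Metric.isOpen_iff.1 hcl.isOpen_compl m₀ hnot
  refine ⟨min ε 1, lt_min hε one_pos, fun a ha => ?_⟩
  obtain ⟨w, z, rfl⟩ := mem_some_flatM R a
  refine ⟨w, ⟨z, rfl⟩, ?_⟩
  by_contra hcon
  have hwF : w ∈ F := ⟨z, by rw [dist_comm]; exact (ha.trans_le (min_le_right _ _)).le⟩
  have h1 : R.pt w.1 w.2 z ∈ (⋃ w ∈ F', flatM R w)ᶜ := hb (by
    rw [Metric.mem_ball]; exact ha.trans_le (min_le_left _ _))
  exact h1 (mem_iUnion₂.2 ⟨w, ⟨hwF, hcon⟩, z, rfl⟩)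

/-- moving one step towards another plane through the same point -/
theorem step_plane {w w' : VP} {e : Letter} {L : List Letter}
    (hL : ((w:Pl)⁻¹ * w').val = e :: L) {z z' : ℝ × ℝ}
    (hz : R.pt w.1 w.2 z = R.pt w'.1 w'.2 z') :
    z ∈ line e ∧ ∃ hV : (w:Pl) * W.of e ∈ VP, R.pt w.1 w.2 z = R.pt _ hV z ∧
      (((w:Pl) * W.of e)⁻¹ * w').val = L := by
  obtain ⟨y, hy, hye⟩ := W.eq_of_mul hL
  have hval : (((w:Pl) * W.of e)⁻¹ * w').val = L := by
    have : ((w:Pl) * W.of e)⁻¹ * w' = y := by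
      rw [mul_inv_rev, W.of_inv, mul_assoc, hye, ← mul_assoc, W.of_mul_of, one_mul]
    rw [this, hy]
  have hB : R.pt w'.1 w'.2 z' ∈ R.B w.1 e := by
    apply R.pt_mem_B
    have e1 : (w'.1)⁻¹ * w.1 = y⁻¹ * W.of e := by
      have : (w'.1)⁻¹ * w.1 = ((w.1)⁻¹ * w'.1)⁻¹ := by group
      rw [this, hye, mul_inv_rev, W.of_inv]
    have e2 : (w'.1)⁻¹ * w.1 * W.of e = y⁻¹ := by rw [e1, W.mul_of_mul_of]
    rw [e2]
    have e3 : ((w'.1)⁻¹ * w.1).val = (((w.1)⁻¹ * w'.1).val).reverse := by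
      rw [← W.inv_val]; congr 1; group
    rw [e3, hL, W.inv_val, hy]
    simp
  obtain ⟨q, hq, hd⟩ := R.cross_AB w.2 (R.pt_self_mem_A w.2 z) hB
  rw [← hz, dist_self] at hd
  have h1 : R.pt w.1 w.2 z = R.pt w.1 w.2 q := by
    apply dist_le_zero.1
    linarith [dist_nonneg (x := R.pt w.1 w.2 q) (y := R.pt w.1 w.2 z)]
  have h2 := R.pt_inj h1
  subst h2
  have hV := VP_convex w.2 w'.2 hL
  exact ⟨hq, hV, R.glue w.1 w.2 e hV hq, hval⟩

/-- the three local configurations -/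
theorem local_cases (m₀ : Y) : ∃ ε > 0, ∀ a b : Y, dist a m₀ < ε → dist b m₀ < ε →
    (∃ (w : VP) (za zb z₀ : ℝ × ℝ), a = R.pt w.1 w.2 za ∧ b = R.pt w.1 w.2 zb ∧
      m₀ = R.pt w.1 w.2 z₀) ∨
    (∃ (w w' : VP) (e : Letter) (za zb z₀ : ℝ × ℝ), w'.1 = w.1 * W.of e ∧ z₀ ∈ line e ∧
      a = R.pt w.1 w.2 za ∧ b = R.pt w'.1 w'.2 zb ∧ m₀ = R.pt w.1 w.2 z₀) ∨
    (∃ (w w₁ w₂ : VP) (e₁ e₂ : Letter) (za zb z₀ : ℝ × ℝ), w₁.1 = w.1 * W.of e₁ ∧
      w₂.1 = w.1 * W.of e₂ ∧ e₁.1 ≠ e₂.1 ∧ z₀ ∈ line e₁ ∧ z₀ ∈ line e₂ ∧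
      a = R.pt w₁.1 w₁.2 za ∧ b = R.pt w₂.1 w₂.2 zb ∧ m₀ = R.pt w.1 w.2 z₀) := by
  obtain ⟨ε, hε, hnear⟩ := near_planes R m₀
  refine ⟨ε, hε, fun a b ha hb => ?_⟩
  obtain ⟨wa, ⟨za, rfl⟩, ⟨z₀, hz₀⟩⟩ := hnear a ha
  obtain ⟨wb, ⟨zb, rfl⟩, ⟨z₀', hz₀'⟩⟩ := hnear b hb
  simp only at hz₀ hz₀'
  have hzz : R.pt wa.1 wa.2 z₀ = R.pt wb.1 wb.2 z₀' := by rw [hz₀, hz₀']
  rcases hL : ((wa:Pl)⁻¹ * wb).val with _ | ⟨e₁, L⟩
  · left
    have h1 : (wa:Pl)⁻¹ * wb = 1 := W.ext hL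
    have h2 : wa = wb := Subtype.ext (inv_mul_eq_one.1 h1)
    subst h2
    exact ⟨wa, za, zb, z₀, rfl, rfl, hz₀.symm⟩
  · obtain ⟨hl1, hV1, hg1, hval1⟩ := step_plane R hL hzz
    rcases L with _ | ⟨e₂, L⟩
    · right; left
      have h1 : ((wa:Pl) * W.of e₁)⁻¹ * wb = 1 := W.ext hval1
      have h2 : (wb:Pl) = wa * W.of e₁ := (inv_mul_eq_one.1 h1).symm
      exact ⟨wa, wb, e₁, za, zb, z₀, h2, hl1, rfl, rfl, hz₀.symm⟩
    · set w : VP := ⟨(wa:Pl) * W.of e₁, hV1⟩ with hw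
      have hzz1 : R.pt w.1 w.2 z₀ = R.pt wb.1 wb.2 z₀' := by rw [← hzz, hg1]
      obtain ⟨hl2, hV2, hg2, hval2⟩ := step_plane R (w := w) hval1 hzz1
      have hne12 : e₁ ≠ e₂ := by
        have := ((wa:Pl)⁻¹ * wb).red
        rw [hL, red_cons_cons] at this
        exact this.1
      have hty12 : e₁.1 ≠ e₂.1 := fun h => hne12 (line_inj hl1 hl2 h)
      have hwa : wa.1 = w.1 * W.of e₁ := (W.mul_of_mul_of _ _).symm
      rcases L with _ | ⟨e₃, L⟩
      · right; right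
        have h1 : ((w:Pl) * W.of e₂)⁻¹ * wb = 1 := W.ext hval2
        have h2 : (wb:Pl) = w * W.of e₂ := (inv_mul_eq_one.1 h1).symm
        refine ⟨w, wa, wb, e₁, e₂, za, zb, z₀, hwa, h2, hty12, hl1, hl2, rfl, rfl, ?_⟩
        rw [← hz₀]; exact hg1
      · exfalso
        set w₂ : VP := ⟨(w:Pl) * W.of e₂, hV2⟩ with hw₂
        have hzz2 : R.pt w₂.1 w₂.2 z₀ = R.pt wb.1 wb.2 z₀' := by rw [← hzz1, hg2]
        obtain ⟨hl3, hV3, -, -⟩ := step_plane R (w := w₂) hval2 hzz2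
        have hne23 : e₂ ≠ e₃ := by
          have := ((wa:Pl)⁻¹ * wb).red
          rw [hL, red_cons_cons, red_cons_cons] at this
          exact this.2.1
        have hty23 : e₂.1 ≠ e₃.1 := fun h => hne23 (line_inj hl2 hl3 h)
        have hty13 : e₁.1 = e₃.1 := by
          revert hty12 hty23
          cases e₁.1 <;> cases e₂.1 <;> cases e₃.1 <;> simp
        have he13 : e₁ = e₃ := line_inj hl1 hl3 hty13
        subst he13
        -- parities
        have a1 : Av w.1 e₁ := (mem_VP_mul_of w.2 e₁).1 (by rw [← hwa]; exact wa.2)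
        have a2 : Av w₂.1 e₁ := (mem_VP_mul_of w₂.2 e₁).1 hV3
        unfold Av at a1 a2
        have p1 := par_mul_of w.1 e₂ false
        have p2 := par_mul_of w.1 e₂ true
        have q1 : par false w₂.1.val = par false (w.1 * W.of e₂).val := rfl
        have q2 : par true w₂.1.val = par true (w.1 * W.of e₂).val := rfl
        rw [q1, q2, p1, p2] at a2
        rcases e₁ with ⟨_ | _, k⟩
        · have h2 : e₂.1 = true := by
            revert hty12; cases e₂.1 <;> simp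
          simp only [Ok] at a1 a2
          rw [h2, if_pos rfl, ← a1] at a2
          have : (1 : ZMod 2) = 0 := by
            have := a2
            exact (left_eq_add.1 this)
          exact absurd this (by decide)
        · have h2 : e₂.1 = false := by
            revert hty12; cases e₂.1 <;> simp
          simp only [Ok] at a1 a2
          rw [h2, if_pos rfl, ← a1] at a2
          have : (1 : ZMod 2) = 0 := by
            have := a2
            exact (left_eq_add.1 this)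
          exact absurd this (by decide)

end local_

end Run7.h484.K
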