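import Pool.Agent.Run7.h484.Defs

/-! Definitions used in the statement. -/

namespace Run7.h484.K

universe u v

/-- Injective metric spaces: closed balls `B(x i, r i)` with positive radii and
`d (x i, x j) ≤ r i + r j` for all `i, j` have a common point. -/
def IsInjective (X : Type u) [MetricSpace X] : Prop :=
  ∀ (ι : Type u) (x : ι → X) (r : ι → ℝ), (∀ i, 0 < r i) →
    (∀ i j, dist (x i) (x j) ≤ r i + r j) → (⋂ i, Metric.closedBall (x i) (r i)).Nonempty

/-- The combinatorial dimension of `X` is at most `n`: the injective hulls of the finite subsets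
of `X` (which are finite polyhedral complexes) have dimension at most `n`. -/
def CombDimLE (X : Type u) [MetricSpace X] (n : ℕ) : Prop :=
  ∀ Y : Set X, Y.Finite → dimH (Set.univ : Set (InjHull Y)) ≤ n

/-- Admissible spaces: proper injective metric spaces of finite combinatorial dimension. -/
structure Admissible (X : Type u) [MetricSpace X] : Prop where
  proper : ProperSpace X
  injective : IsInjective X
  finiteDim : ∃ n : ℕ, CombDimLE X n

/-- The group `G` acts geometrically on `X`. -/
structure IsGeometric (G : Type v) [Group G] (X : Type u) [MetricSpace X] [MulAction G X] :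
    Prop where
  isometric : ∀ (g : G) (x y : X), dist (g • x) (g • y) = dist x y
  proper : ∀ K : Set X, IsCompact K → {g : G | (((fun x => g • x) '' K) ∩ K).Nonempty}.Finite
  cocompact : ∃ K : Set X, IsCompact K ∧ ∀ x : X, ∃ g : G, ∃ k ∈ K, g • k = x

/-- Convex bicombings. Here `σ x y : ℝ → X`, and only the values on `[0,1]` matter. -/
structure IsConvexBicombing {X : Type u} [MetricSpace X] (σ : X → X → ℝ → X) : Prop where
  continuous : ContinuousOn (fun q : X × X × ℝ => σ q.1 q.2.1 q.2.2)
    {q | q.2.2 ∈ Set.Icc (0 : ℝ) 1}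
  zero : ∀ x y, σ x y 0 = x
  one : ∀ x y, σ x y 1 = y
  geodesic : ∀ x y, ∀ s ∈ Set.Icc (0 : ℝ) 1, ∀ t ∈ Set.Icc (0 : ℝ) 1,
    dist (σ x y s) (σ x y t) = |s - t| * dist x y
  convex : ∀ x y x' y', ConvexOn ℝ (Set.Icc 0 1) fun t => dist (σ x y t) (σ x' y' t)

end Run7.h484.K
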