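import Pool.Agent.Run7.h484.K.Geo

/-! Trees of planes with several kinds of planes: the pseudometric. -/

namespace Run7.h484.K

open Set

namespace Auto

variable (𝒜 : Auto)

/-- the class reached along a word -/
def act (c : 𝒜.C) (L : List Letter) : 𝒜.C := L.foldl (fun c e => 𝒜.nx e.1 c) c

@[simp] theorem act_nil (c : 𝒜.C) : 𝒜.act c [] = c := rfl
@[simp] theorem act_cons (c : 𝒜.C) (e : Letter) (L : List Letter) :
    𝒜.act c (e :: L) = 𝒜.act (𝒜.nx e.1 c) L := rfl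
theorem act_append (c : 𝒜.C) (L L' : List Letter) :
    𝒜.act c (L ++ L') = 𝒜.act (𝒜.act c L) L' := by simp [act, List.foldl_append]
@[simp] theorem act_snoc (c : 𝒜.C) (L : List Letter) (e : Letter) :
    𝒜.act c (L ++ [e]) = 𝒜.nx e.1 (𝒜.act c L) := by simp [act_append]

theorem act_step (c : 𝒜.C) (e : Letter) (l : List Letter) :
    𝒜.act c (step e l) = 𝒜.act (𝒜.nx e.1 c) l := by
  cases l with
  | nil => rfl
  | cons a l =>
    by_cases h : e = a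
    · subst h
      simp only [step, if_true, act_cons, 𝒜.inv]
    · simp only [step, h, if_false]; rfl

theorem act_wmul (c : 𝒜.C) (u v : List Letter) :
    𝒜.act c (wmul u v) = 𝒜.act (𝒜.act c u) v := by
  induction u generalizing c with
  | nil => rfl
  | cons a u ih => rw [wmul_cons, act_step, ih]; rfl

theorem act_reverse (c : 𝒜.C) (L : List Letter) : 𝒜.act (𝒜.act c L) L.reverse = c := by
  induction L generalizing c with
  | nil => rfl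
  | cons e L ih =>
    rw [List.reverse_cons, act_snoc, act_cons, ih, 𝒜.inv]

theorem act_map (a : ℤ × ℤ) (c : 𝒜.C) (L : List Letter) : 𝒜.act c (L.map (sh a)) = 𝒜.act c L := by
  induction L generalizing c with
  | nil => rfl
  | cons e L ih =>
    rw [List.map_cons, act_cons, act_cons, ih]
    rcases e with ⟨_ | _, k⟩ <;> rfl

/-- the class of a plane -/
def cls (w : Pl) : 𝒜.C := 𝒜.act 𝒜.c0 w.val

theorem cls_mul (w x : Pl) : 𝒜.cls (w * x) = 𝒜.act (𝒜.cls w) x.val := by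
  unfold cls
  rw [W.mul_val, act_wmul]

@[simp] theorem cls_mul_of (w : Pl) (e : Letter) : 𝒜.cls (w * W.of e) = 𝒜.nx e.1 (𝒜.cls w) := by
  rw [cls_mul]; rfl

theorem cls_one : 𝒜.cls 1 = 𝒜.c0 := rfl

theorem act_rel (v w : Pl) : 𝒜.act (𝒜.cls v) (v⁻¹ * w).val = 𝒜.cls w := by
  rw [← cls_mul, mul_inv_cancel_left]

end Auto

variable {𝒜 : Auto} (𝒢 : Geo 𝒜)

namespace Geo

/-- transport along a word -/
noncomputable def go (L : List Letter) (S : St 𝒜) : St 𝒜 := L.foldl (fun S e => 𝒢.tr e S) S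

@[simp] theorem go_nil (S : St 𝒜) : 𝒢.go [] S = S := rfl
@[simp] theorem go_cons (e : Letter) (L : List Letter) (S : St 𝒜) :
    𝒢.go (e :: L) S = 𝒢.go L (𝒢.tr e S) := rfl
theorem go_append (L L' : List Letter) (S : St 𝒜) :
    𝒢.go (L ++ L') S = 𝒢.go L' (𝒢.go L S) := by
  simp [go, List.foldl_append]
@[simp] theorem go_snoc (L : List Letter) (e : Letter) (S : St 𝒜) :
    𝒢.go (L ++ [e]) S = 𝒢.tr e (𝒢.go L S) := by simp [go_append]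

theorem go_c (L : List Letter) (S : St 𝒜) : (𝒢.go L S).c = 𝒜.act S.c L := by
  induction L generalizing S with
  | nil => rfl
  | cons e L ih => rw [go_cons, ih, tr_c]; rfl

/-- the initial state -/
def ini (c : 𝒜.C) (z : ℝ × ℝ) : St 𝒜 := ⟨c, 0, 0, z, le_refl 0⟩

theorem ev_ini (c : 𝒜.C) (z z' : ℝ × ℝ) : 𝒢.ev (ini c z) z' = 𝒢.N c z z' := by
  rw [ev_cone 𝒢 rfl]
  show 0 + _ = _
  rw [zero_add]; rfl

/-- cost of a path crossing the lines of `L` in order, starting in class `c` -/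
noncomputable def cost (c : 𝒜.C) (L : List Letter) (z z' : ℝ × ℝ) : ℝ :=
  𝒢.ev (𝒢.go L (ini c z)) z'

theorem cost_nil (c : 𝒜.C) (z z' : ℝ × ℝ) : 𝒢.cost c [] z z' = 𝒢.N c z z' := 𝒢.ev_ini c z z'

theorem cost_snoc_le (c : 𝒜.C) (L : List Letter) (e : Letter) (z q z' : ℝ × ℝ) (hq : q ∈ line e) :
    𝒢.cost c (L ++ [e]) z z' ≤ 𝒢.cost c L z q + 𝒢.N (𝒜.act c (L ++ [e])) q z' := by
  simp only [cost, go_snoc, Auto.act_snoc]
  have := 𝒢.tr_le e (𝒢.go L (ini c z)) q z' hq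
  rwa [go_c] at this

theorem cost_snoc_ex (c : 𝒜.C) (L : List Letter) (e : Letter) (z z' : ℝ × ℝ) :
    ∃ q ∈ line e, 𝒢.cost c (L ++ [e]) z z' =
      𝒢.cost c L z q + 𝒢.N (𝒜.act c (L ++ [e])) q z' := by
  simp only [cost, go_snoc, Auto.act_snoc]
  have := 𝒢.tr_ex e (𝒢.go L (ini c z)) z'
  rwa [go_c] at this

theorem cost_lip (c : 𝒜.C) (L : List Letter) (z z' z'' : ℝ × ℝ) :
    𝒢.cost c L z z'' ≤ 𝒢.cost c L z z' + 𝒢.N (𝒜.act c L) z' z'' := by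
  have := 𝒢.ev_lip (𝒢.go L (ini c z)) z'' z'
  rwa [go_c] at this

/-- on the line the transported state agrees with the old one -/
theorem tr_line {e : Letter} (S : St 𝒜) {q : ℝ × ℝ} (hq : q ∈ line e) :
    𝒢.ev (𝒢.tr e S) q = 𝒢.ev S q := by
  apply le_antisymm
  · have := 𝒢.tr_le e S q q hq
    rwa [𝒢.N_self, add_zero] at this
  · obtain ⟨q', hq', h⟩ := 𝒢.tr_ex e S q
    rw [h, 𝒢.N_line _ hq' hq, ← 𝒢.N_line S.c hq' hq]
    exact 𝒢.ev_lip S q q'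

theorem cost_mid_le (c : 𝒜.C) (L1 : List Letter) (e : Letter) (L2 : List Letter)
    (z q z' : ℝ × ℝ) (hq : q ∈ line e) :
    𝒢.cost c (L1 ++ e :: L2) z z' ≤
      𝒢.cost c L1 z q + 𝒢.cost (𝒜.act c (L1 ++ [e])) L2 q z' := by
  induction L2 using List.reverseRecOn generalizing z' with
  | nil => rw [cost_nil]; exact 𝒢.cost_snoc_le c L1 e z q z' hq
  | append_singleton L2 e' ih =>
    obtain ⟨q', hq', h⟩ := 𝒢.cost_snoc_ex (𝒜.act c (L1 ++ [e])) L2 e' q z'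
    rw [h]
    have h1 := 𝒢.cost_snoc_le c (L1 ++ e :: L2) e' z q' z' hq'
    have h2 := ih q'
    have h3 : L1 ++ e :: (L2 ++ [e']) = (L1 ++ e :: L2) ++ [e'] := by simp
    have h4 : 𝒜.act (𝒜.act c (L1 ++ [e])) (L2 ++ [e']) = 𝒜.act c (L1 ++ e :: L2 ++ [e']) := by
      rw [← Auto.act_append]; congr 1; simp
    rw [h3, h4]
    linarith

theorem cost_mid_ex (c : 𝒜.C) (L1 : List Letter) (e : Letter) (L2 : List Letter)
    (z z' : ℝ × ℝ) :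
    ∃ q ∈ line e, 𝒢.cost c (L1 ++ e :: L2) z z' =
      𝒢.cost c L1 z q + 𝒢.cost (𝒜.act c (L1 ++ [e])) L2 q z' := by
  induction L2 using List.reverseRecOn generalizing z' with
  | nil =>
    obtain ⟨q, hq, h⟩ := 𝒢.cost_snoc_ex c L1 e z z'
    exact ⟨q, hq, by rw [h, cost_nil]⟩
  | append_singleton L2 e' ih =>
    have e1 : L1 ++ e :: (L2 ++ [e']) = (L1 ++ e :: L2) ++ [e'] := by simp
    obtain ⟨q', hq', h'⟩ := 𝒢.cost_snoc_ex c (L1 ++ e :: L2) e' z z'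
    obtain ⟨q, hq, h⟩ := ih q'
    refine ⟨q, hq, le_antisymm (𝒢.cost_mid_le c L1 e _ z q z' hq) ?_⟩
    rw [e1, h', h]
    have := 𝒢.cost_snoc_le (𝒜.act c (L1 ++ [e])) L2 e' q q' z' hq'
    have h4 : 𝒜.act (𝒜.act c (L1 ++ [e])) (L2 ++ [e']) = 𝒜.act c (L1 ++ e :: L2 ++ [e']) := by
      rw [← Auto.act_append]; congr 1; simp
    rw [h4] at this
    linarith

theorem cost_reverse (c : 𝒜.C) (L : List Letter) (z z' : ℝ × ℝ) :
    𝒢.cost (𝒜.act c L) L.reverse z z' = 𝒢.cost c L z' z := by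
  induction L generalizing z z' c with
  | nil => simp only [List.reverse_nil, cost_nil, Auto.act_nil]; exact 𝒢.N_comm c z z'
  | cons e L ih =>
    rw [List.reverse_cons]
    have hc : 𝒜.act (𝒜.act c (e :: L)) (L.reverse ++ [e]) = c := by
      have := 𝒜.act_reverse c (e :: L)
      rwa [List.reverse_cons] at this
    apply le_antisymm
    · obtain ⟨q, hq, h⟩ := 𝒢.cost_mid_ex c [] e L z' z
      simp only [List.nil_append] at h
      rw [h, cost_nil]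
      have := 𝒢.cost_snoc_le (𝒜.act c (e :: L)) L.reverse e z q z' hq
      rw [hc] at this
      have h2 := ih (𝒜.nx e.1 c) z q
      rw [show 𝒜.act c (e :: L) = 𝒜.act (𝒜.nx e.1 c) L from rfl] at this ⊢
      rw [h2, 𝒢.N_comm c q z'] at this
      show _ ≤ _ + 𝒢.cost (𝒜.nx e.1 c) L q z
      linarith
    · obtain ⟨q, hq, h⟩ := 𝒢.cost_snoc_ex (𝒜.act c (e :: L)) L.reverse e z z'
      rw [h, hc]
      have := 𝒢.cost_mid_le c [] e L z' q z hq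
      simp only [List.nil_append, cost_nil] at this
      have h2 := ih (𝒜.nx e.1 c) z q
      rw [show 𝒜.act c (e :: L) = 𝒜.act (𝒜.nx e.1 c) L from rfl]
      rw [h2, 𝒢.N_comm c q z']
      have h3 : 𝒢.cost (𝒜.act c [e]) L q z = 𝒢.cost (𝒜.nx e.1 c) L q z := rfl
      rw [h3] at this
      linarith

theorem cost_lip_left (c : 𝒜.C) (L : List Letter) (z z' z'' : ℝ × ℝ) :
    𝒢.cost c L z z'' ≤ 𝒢.N c z z' + 𝒢.cost c L z' z'' := by
  rw [← 𝒢.cost_reverse c L z'' z, ← 𝒢.cost_reverse c L z'' z', 𝒢.N_comm c z z']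
  have := 𝒢.cost_lip (𝒜.act c L) L.reverse z'' z' z
  rw [𝒜.act_reverse] at this
  linarith

/-- cost of an element of the Coxeter group -/
noncomputable def cst (c : 𝒜.C) (x : Pl) (z z' : ℝ × ℝ) : ℝ := 𝒢.cost c x.val z z'

theorem cst_step (c : 𝒜.C) (x : Pl) (e : Letter) (z q z' : ℝ × ℝ) (hq : q ∈ line e) :
    𝒢.cst c (x * W.of e) z z' ≤ 𝒢.cst c x z q + 𝒢.N (𝒜.act c (x * W.of e).val) q z' := by
  unfold cst
  rcases W.dichotomy x e with h | h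
  · rw [h]; exact 𝒢.cost_snoc_le c _ e z q z' hq
  · have h1 : 𝒢.cost c x.val z q = 𝒢.cost c (x * W.of e).val z q := by
      rw [h]
      simp only [cost, go_snoc]
      exact 𝒢.tr_line _ hq
    rw [h1]
    exact 𝒢.cost_lip c _ _ _ _

theorem cst_mul_le (c : 𝒜.C) (x y : Pl) (z z' z'' : ℝ × ℝ) :
    𝒢.cst c (x * y) z z'' ≤ 𝒢.cst c x z z' + 𝒢.cst (𝒜.act c x.val) y z' z'' := by
  obtain ⟨l, hl⟩ : ∃ l, y.val = l := ⟨_, rfl⟩
  induction l using List.reverseRecOn generalizing y z'' with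
  | nil =>
    have : y = 1 := W.ext hl
    subst this
    rw [mul_one]
    have := 𝒢.cost_lip c x.val z z' z''
    simpa [cst, cost_nil] using this
  | append_singleton l e ih =>
    obtain ⟨y', hy', rfl⟩ := W.eq_mul_of hl
    obtain ⟨q, hq, h⟩ := 𝒢.cost_snoc_ex (𝒜.act c x.val) l e z' z''
    have h1 : 𝒢.cst (𝒜.act c x.val) (y' * W.of e) z' z'' =
        𝒢.cost (𝒜.act c x.val) l z' q + 𝒢.N (𝒜.act (𝒜.act c x.val) (l ++ [e])) q z'' := by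
      unfold cst; rw [hl, h]
    have h2 := ih y' q hy'
    have h3 := 𝒢.cst_step c (x * y') e z q z'' hq
    have h5 : 𝒜.act c (x * y' * W.of e).val = 𝒜.act (𝒜.act c x.val) (l ++ [e]) := by
      rw [mul_assoc, W.mul_val, Auto.act_wmul, hl]
    rw [← mul_assoc, h1]
    rw [h5] at h3
    have h4 : 𝒢.cst (𝒜.act c x.val) y' z' q = 𝒢.cost (𝒜.act c x.val) l z' q := by
      unfold cst; rw [hy']
    linarith

theorem cst_inv (c : 𝒜.C) (x : Pl) (z z' : ℝ × ℝ) :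
    𝒢.cst (𝒜.act c x.val) x⁻¹ z z' = 𝒢.cst c x z' z :=
  𝒢.cost_reverse c x.val z z'

theorem cst_one (c : 𝒜.C) (z z' : ℝ × ℝ) : 𝒢.cst c 1 z z' = 𝒢.N c z z' := 𝒢.cost_nil c z z'

end Geo

/-- points of the tree of planes -/
@[ext] structure Pt (𝒢 : Geo 𝒜) where
  pl : Pl
  pos : ℝ × ℝ

namespace Pt

variable {𝒢}

noncomputable instance : Dist (Pt 𝒢) :=
  ⟨fun ξ η => 𝒢.cst (𝒜.cls ξ.pl) (ξ.pl⁻¹ * η.pl) ξ.pos η.pos⟩

theorem dist_def (ξ η : Pt 𝒢) :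
    dist ξ η = 𝒢.cst (𝒜.cls ξ.pl) (ξ.pl⁻¹ * η.pl) ξ.pos η.pos := rfl

noncomputable instance : PseudoMetricSpace (Pt 𝒢) where
  dist_self ξ := by rw [dist_def, inv_mul_cancel, 𝒢.cst_one, 𝒢.N_self]
  dist_comm ξ η := by
    rw [dist_def, dist_def, ← 𝒢.cst_inv, 𝒜.act_rel]
    congr 1
    group
  dist_triangle ξ η ζ := by
    rw [dist_def, dist_def, dist_def]
    have := 𝒢.cst_mul_le (𝒜.cls ξ.pl) (ξ.pl⁻¹ * η.pl) (η.pl⁻¹ * ζ.pl) ξ.pos η.pos ζ.pos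
    rwa [show ξ.pl⁻¹ * η.pl * (η.pl⁻¹ * ζ.pl) = ξ.pl⁻¹ * ζ.pl by group, 𝒜.act_rel] at this

/-- the state of a point at a plane -/
noncomputable def S (w : Pl) (ξ : Pt 𝒢) : St 𝒜 :=
  𝒢.go (ξ.pl⁻¹ * w).val (Geo.ini (𝒜.cls ξ.pl) ξ.pos)

@[simp] theorem S_c (w : Pl) (ξ : Pt 𝒢) : (S w ξ).c = 𝒜.cls w := by
  unfold S
  rw [𝒢.go_c]
  exact 𝒜.act_rel _ _

theorem dist_mk (ξ : Pt 𝒢) (w : Pl) (z : ℝ × ℝ) : dist ξ ⟨w, z⟩ = 𝒢.ev (S w ξ) z := rfl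

theorem dist_mk' (ξ : Pt 𝒢) (w : Pl) (z : ℝ × ℝ) : dist ⟨w, z⟩ ξ = 𝒢.ev (S w ξ) z := by
  rw [dist_comm]; rfl

theorem dist_eq (ξ η : Pt 𝒢) : dist ξ η = 𝒢.ev (S η.pl ξ) η.pos := rfl

theorem dist_same (w : Pl) (z z' : ℝ × ℝ) :
    dist (⟨w, z⟩ : Pt 𝒢) ⟨w, z'⟩ = 𝒢.N (𝒜.cls w) z z' := by
  rw [dist_def, inv_mul_cancel, 𝒢.cst_one]

theorem S_self (ξ : Pt 𝒢) : S ξ.pl ξ = Geo.ini (𝒜.cls ξ.pl) ξ.pos := by
  unfold S; rw [inv_mul_cancel]; rfl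

theorem S_pt (w : Pl) (z : ℝ × ℝ) : S w (⟨w, z⟩ : Pt 𝒢) = Geo.ini (𝒜.cls w) z := S_self _

theorem S_dich (w : Pl) (e : Letter) (ξ : Pt 𝒢) :
    S (w * W.of e) ξ = 𝒢.tr e (S w ξ) ∨ S w ξ = 𝒢.tr e (S (w * W.of e) ξ) := by
  unfold S
  rw [← mul_assoc]
  rcases W.dichotomy (ξ.pl⁻¹ * w) e with h | h
  · left; rw [h, 𝒢.go_snoc]
  · right; rw [← 𝒢.go_snoc, ← h]

/-- adjacent planes are glued along the line -/
theorem dist_glue (w : Pl) (e : Letter) {q : ℝ × ℝ} (hq : q ∈ line e) :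
    dist (⟨w, q⟩ : Pt 𝒢) ⟨w * W.of e, q⟩ = 0 := by
  have h0 : (0:ℝ) ≤ dist (⟨w, q⟩ : Pt 𝒢) ⟨w * W.of e, q⟩ := dist_nonneg
  apply le_antisymm _ h0
  rw [dist_def]
  show 𝒢.cst _ (w⁻¹ * (w * W.of e)) q q ≤ 0
  rw [inv_mul_cancel_left]
  have h1 := 𝒢.cost_snoc_le (𝒜.cls w) [] e q q q hq
  rw [𝒢.cost_nil, 𝒢.N_self, 𝒢.N_self, add_zero] at h1
  exact h1

theorem dist_glue' (ξ : Pt 𝒢) (w : Pl) (e : Letter) {q : ℝ × ℝ} (hq : q ∈ line e) :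
    dist ξ ⟨w * W.of e, q⟩ = dist ξ ⟨w, q⟩ := by
  apply le_antisymm
  · have := dist_triangle ξ ⟨w, q⟩ (⟨w * W.of e, q⟩ : Pt 𝒢)
    rw [dist_glue w e hq] at this; linarith
  · have := dist_triangle ξ ⟨w * W.of e, q⟩ (⟨w, q⟩ : Pt 𝒢)
    rw [dist_comm (⟨w * W.of e, q⟩ : Pt 𝒢) (⟨w, q⟩ : Pt 𝒢), dist_glue w e hq] at this; linarith

/-- If the path from `ξ` to `η` passes through the plane `w`, the distance is computed there. -/
theorem dist_via (w : Pl) (ξ η : Pt 𝒢)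
    (h : (ξ.pl⁻¹ * η.pl).val = (ξ.pl⁻¹ * w).val ++ (w⁻¹ * η.pl).val) :
    ∃ z, dist ξ η = dist ξ ⟨w, z⟩ + dist ⟨w, z⟩ η := by
  rw [dist_def]
  unfold Geo.cst
  rw [h]
  cases h2 : (w⁻¹ * η.pl).val with
  | nil =>
    have hw : w⁻¹ * η.pl = 1 := W.ext h2
    have hw' : w = η.pl := (inv_mul_eq_one.1 hw)
    refine ⟨η.pos, ?_⟩
    rw [dist_def, dist_def]
    show _ = 𝒢.cst _ (ξ.pl⁻¹ * w) ξ.pos η.pos + 𝒢.cst _ (w⁻¹ * η.pl) η.pos η.pos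
    rw [hw, 𝒢.cst_one, 𝒢.N_self, add_zero, List.append_nil]
    rfl
  | cons e L =>
    obtain ⟨q, hq, h3⟩ := 𝒢.cost_mid_ex (𝒜.cls ξ.pl) (ξ.pl⁻¹ * w).val e L ξ.pos η.pos
    refine ⟨q, ?_⟩
    rw [h3]
    show _ = 𝒢.cst _ (ξ.pl⁻¹ * w) ξ.pos q + 𝒢.cst _ (w⁻¹ * η.pl) q η.pos
    unfold Geo.cst
    rw [h2, Auto.act_snoc, 𝒜.act_rel]
    congr 1
    show 𝒢.cost (𝒜.nx e.1 (𝒜.cls w)) L q η.pos = 𝒢.cost (𝒜.cls w) (e :: L) q η.pos
    apply le_antisymm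
    · obtain ⟨q', hq', h4⟩ := 𝒢.cost_mid_ex (𝒜.cls w) [] e L q η.pos
      simp only [List.nil_append, 𝒢.cost_nil] at h4
      rw [h4]
      have h5 := 𝒢.cost_lip_left (𝒜.nx e.1 (𝒜.cls w)) L q q' η.pos
      rw [𝒢.N_line _ hq hq', ← 𝒢.N_line (𝒜.cls w) hq hq'] at h5
      exact h5
    · have := 𝒢.cost_mid_le (𝒜.cls w) [] e L q q η.pos hq
      simp only [List.nil_append, 𝒢.cost_nil, 𝒢.N_self, zero_add] at this
      exact this

end Pt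

end Run7.h484.K
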